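import Pool.Agent.Work.MP_a60482_prim.Interface

/-!
# MP_a60482_ag, primitive classes: block ADJ
-/

open CategoryTheory MonoidalCategory CartesianMonoidalCategory Polynomial

universe u v w x b

namespace Pool.Prm

open Pool.Std Pool.KC

variable {V : Type u} [Category.{v} V] [CartesianMonoidalCategory V]

namespace ADJ

/-- the transposed correspondence is the adjoint -/
theorem transp {K : Type x} [Field K] (T : WeilTheory.{u, v, w, x} V K) {X : V}
    {z : T.H (X ⊗ X)} (hz : z ∈ T.deg (X ⊗ X) (2 * T.dim X)) (a e : T.H X) :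
    T.tr X (T.act z a * e) = T.tr X (a * T.act (T.pull (Cohomology.swap X) z) e) := by
  have hz' : T.pull (Cohomology.swap X) z ∈ T.deg (X ⊗ X) (2 * T.dim X) := T.pull_deg _ hz
  refine T.hind (P := fun a => T.tr X (T.act z a * e) =
    T.tr X (a * T.act (T.pull (Cohomology.swap X) z) e)) (by simp) ?_ ?_ a
  · intro k a ha
    refine T.hind (P := fun e => T.tr X (T.act z a * e) =
      T.tr X (a * T.act (T.pull (Cohomology.swap X) z) e)) (by simp) ?_ ?_ e
    · intro l e he
      have h1 := tr_act_swap hz he ha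
      have hd : T.act (T.pull (Cohomology.swap X) z) e ∈ T.deg X l :=
        T.act_deg hz' (by omega) he
      have h2 := T.comm ha hd
      rw [T.neg_pow_smul] at h2
      rw [h2, map_smul, smul_eq_mul, h1, mul_comm k l, ← mul_assoc, neg_pow_sq, one_mul]
    · intro e1 e2 h1 h2
      rw [mul_add, map_add, h1, h2, map_add, mul_add, map_add]
  · intro a1 a2 h1 h2
    rw [map_add, add_mul, map_add, h1, h2, add_mul, map_add]

end ADJ

theorem blk_ADJ (D : WeilCoh.{u, v, w, 0} V ℂ) (S : HodgeStr D) : Stmt_ADJ D S := by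
  intro h hC X z hz
  have hswap : ∀ y : D.H (X ⊗ X), D.pb (Cohomology.swap X) (D.pb (Cohomology.swap X) y) = y := by
    intro y
    rw [← h.pull.comp]
    have h1 : (Cohomology.swap X) ≫ (Cohomology.swap X) = 𝟙 (X ⊗ X) := by
      ext <;> simp [Cohomology.swap]
    rw [h1, h.pull.id]
  have hpf : ∀ y : D.H (X ⊗ X), S.bar X (D.pf y) = D.pf (S.bar (X ⊗ X) y) := by
    intro y
    have hy : y ∈ Submodule.span ℂ {t | ∃ (a : D.H X) (b : D.H X), D.cross a b = t} := by
      rw [h.kunneth.span X X]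
      trivial
    have hadd : ∀ s t : D.H (X ⊗ X), D.pf (s + t) = D.pf s + D.pf t :=
      fun s t => map_add (D.push X X) s t
    have hsm : ∀ (r : ℂ) (t : D.H (X ⊗ X)), D.pf (r • t) = r • D.pf t :=
      fun r t => map_smul (D.push X X) r t
    induction hy using Submodule.span_induction with
    | mem y hy =>
      obtain ⟨a, b, rfl⟩ := hy
      have h1 : S.bar (X ⊗ X) (D.cross a b) = D.cross (S.bar X a) (S.bar X b) := by
        unfold WeilCoh.cross
        rw [hC.mul, hC.pull, hC.pull]
      rw [h1, h.kunneth.push, h.kunneth.push, LinearMap.map_smulₛₗ, hC.int]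
    | zero =>
      have h0 : D.pf (0 : D.H (X ⊗ X)) = 0 := map_zero (D.push X X)
      rw [map_zero, h0, map_zero]
    | add s t _ _ h1 h2 => rw [hadd, map_add, h1, h2, map_add, hadd]
    | smul r t _ h1 =>
      rw [hsm, LinearMap.map_smulₛₗ, h1, LinearMap.map_smulₛₗ, hsm]
  have hact : ∀ (y : D.H (X ⊗ X)) (b : D.H X), S.bar X (D.act y b) =
      D.act (S.bar (X ⊗ X) y) (S.bar X b) := by
    intro y b
    unfold WeilCoh.act
    rw [hpf, hC.mul, hC.pull]
  have htr : ∀ y ∈ D.alg (X ⊗ X) (D.dim X), ∀ a e : D.H X,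
      D.int (D.act y a * e) = D.int (a * D.act (D.pb (Cohomology.swap X) y) e) := by
    intro y hy a e
    have h1 := ADJ.transp (WeilCoh.toWeil h) (h.cycle.deg _ _ y hy) a e
    rw [WeilCoh.act_eq h, WeilCoh.act_eq h] at h1
    exact h1
  have hsz : D.pb (Cohomology.swap X) z ∈ D.alg (X ⊗ X) (D.dim X) := h.functor.pull _ _ _ _ z hz
  refine ⟨S.bar (X ⊗ X) (D.pb (Cohomology.swap X) z), hC.alg _ _ _ hsz, ?_, ?_⟩
  · intro a b
    rw [htr z hz, hact, hC.invol]
  · intro a b
    rw [htr _ (hC.alg _ _ _ hsz), hact, ← hC.pull, hswap]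

end Pool.Prm
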