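import Pool.Agent.Work.StdConj01.Api

/-!
# Hodge structures on a Weil cohomology theory; twisted and primitive classes on `X × X`

`HodgeStr D`, `HodgeStr.IsHodge`: complex conjugation, the Hodge decomposition and the
Hodge-Riemann bilinear relations for a Weil cohomology theory with complex coefficients.

`Polarization.Twisted G M q z`: `z` is an algebraic class on `X × X` of codimension `dim X` with
`ξ₁ z = q ξ₂ z`, where `ξ₁`, `ξ₂` are the two pull-backs of `ξ = c M`.

`WeilCoh.Nondegenerate D z`: the correspondence `z` is injective on `H(X)`.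
-/

open CategoryTheory MonoidalCategory CartesianMonoidalCategory

universe u v w x b

namespace Pool.Std

variable {V : Type u} [Category.{v} V] [CartesianMonoidalCategory V]

/-- Complex conjugation on `H(X)` and the groups `H^{p,q}(X)`. -/
structure HodgeStr (D : WeilCoh.{u, v, w, 0} V ℂ) where
  bar : ∀ X : V, D.H X →ₛₗ[starRingEnd ℂ] D.H X
  hodge : ∀ X : V, ℕ → ℕ → Submodule ℂ (D.H X)

namespace HodgeStr

variable {D : WeilCoh.{u, v, w, 0} V ℂ} (S : HodgeStr D)

/-- Complex conjugation is an involution and an antilinear automorphism of the theory, which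
maps algebraic classes to algebraic classes. -/
structure ConjAxioms : Prop where
  invol : ∀ (X : V) (a : D.H X), S.bar X (S.bar X a) = a
  mul : ∀ (X : V) (a b : D.H X), S.bar X (a * b) = S.bar X a * S.bar X b
  pull : ∀ (X Y : V) (f : X ⟶ Y) (a : D.H Y), S.bar X (D.pb f a) = D.pb f (S.bar Y a)
  int : ∀ (X : V) (a : D.H X), D.int (S.bar X a) = starRingEnd ℂ (D.int a)
  alg : ∀ (X : V) (i : ℕ), ∀ a ∈ D.alg X i, S.bar X a ∈ D.alg X i

/-- The Hodge decomposition: `H(X)` is the direct sum of the `H^{p,q}(X)`, of degree `p + q`,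
compatible with products, pull-backs, conjugation and traces; the algebraic classes are of
type `(i, i)`. -/
structure TypeAxioms : Prop where
  internal : ∀ X : V, DirectSum.IsInternal fun pq : ℕ × ℕ => S.hodge X pq.1 pq.2
  deg : ∀ (X : V) (p q : ℕ), S.hodge X p q ≤ D.deg X (p + q)
  mul : ∀ (X : V) (p q p' q' : ℕ), ∀ a ∈ S.hodge X p q, ∀ b ∈ S.hodge X p' q',
    a * b ∈ S.hodge X (p + p') (q + q')
  pull : ∀ (X Y : V) (f : X ⟶ Y) (p q : ℕ), ∀ a ∈ S.hodge Y p q, D.pb f a ∈ S.hodge X p q
  bar : ∀ (X : V) (p q : ℕ), ∀ a ∈ S.hodge X p q, S.bar X a ∈ S.hodge X q p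
  alg : ∀ (X : V) (i : ℕ), ∀ a ∈ D.alg X i, a ∈ S.hodge X i i
  int : ∀ (X : V) (p q : ℕ), p ≠ q → ∀ a ∈ S.hodge X p q, D.int a = 0

/-- The axioms: complex conjugation, the Hodge decomposition, and the Hodge-Riemann bilinear
relations for the real classes `c M` of the ample bundles `M`. -/
structure IsHodge (G : Polarization.{u, v, w, 0, b} D) : Prop where
  conj : S.ConjAxioms
  types : S.TypeAxioms
  real : ∀ (X : V) (M : G.Bund X), S.bar X (G.c M) = G.c M
  riemann : ∀ (X : V) (M : G.Bund X) (p q k : ℕ), p + q + k = D.dim X → ∀ a ∈ S.hodge X p q,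
    a ≠ 0 → G.c M ^ (k + 1) * a = 0 → ∃ r : ℝ, 0 < r ∧
      Complex.I ^ p * (-Complex.I) ^ q * (-1) ^ ((p + q) * (p + q - 1) / 2) *
        D.int (G.c M ^ k * (a * S.bar X a)) = r

end HodgeStr

variable {K : Type x} [Field K]

/-- The correspondence `z` is injective (hence bijective) on `H(X)`. -/
def WeilCoh.Nondegenerate (D : WeilCoh.{u, v, w, x} V K) {X : V} (z : D.H (X ⊗ X)) : Prop :=
  ∀ a : D.H X, D.act z a = 0 → a = 0

namespace Polarization

variable {D : WeilCoh.{u, v, w, x} V K} (G : Polarization.{u, v, w, x, b} D)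

/-- `z` is an algebraic class of codimension `dim X` on `X × X` with `ξ₁ z = q ξ₂ z`, where
`ξ₁`, `ξ₂` are the pull-backs of `ξ = c M` along the two projections. -/
def Twisted {X : V} (M : G.Bund X) (q : K) (z : D.H (X ⊗ X)) : Prop :=
  z ∈ D.alg (X ⊗ X) (D.dim X) ∧
    D.pb (fst X X) (G.c M) * z = q • (D.pb (snd X X) (G.c M) * z)

/-- `z` is an algebraic class of codimension `dim X` on `X × X` which is primitive for the
product polarization: `(ξ₁ + ξ₂) z = 0`. -/
def PrimitiveClass {X : V} (M : G.Bund X) (z : D.H (X ⊗ X)) : Prop :=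
  z ∈ D.alg (X ⊗ X) (D.dim X) ∧ G.Primitive (G.box M M) (2 * D.dim X) z

/-- The class `ξ₁ Δ` is divisible by `ξ₁ - ξ₂` in the algebraic classes on `X × X`. -/
def Divisible {X : V} (M : G.Bund X) : Prop :=
  ∃ z ∈ D.alg (X ⊗ X) (D.dim X), D.pb (fst X X) (G.c M) * D.diag X =
    (D.pb (fst X X) (G.c M) - D.pb (snd X X) (G.c M)) * z

/-- The class `ξ₁ Δ` is divisible by `(ξ₁ - ξ₂)²` in the algebraic classes on `X × X`. -/
def TwiceDivisible {X : V} (M : G.Bund X) : Prop :=
  ∃ z ∈ D.alg (X ⊗ X) (D.dim X - 1), D.pb (fst X X) (G.c M) * D.diag X =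
    (D.pb (fst X X) (G.c M) - D.pb (snd X X) (G.c M)) ^ 2 * z

end Polarization

end Pool.Std
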