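import Pool.Agent.Work.MP_a60482_prim.Interface

/-!
`H(X)` is a Lefschetz module with Hodge decomposition and Hodge-Riemann form.
-/

open CategoryTheory MonoidalCategory CartesianMonoidalCategory

universe u v w b

namespace Pool.Prm

open Pool.Std Pool.KC

variable {V : Type u} [Category.{v} V] [CartesianMonoidalCategory V]

theorem blk_BLD (D : WeilCoh.{u, v, w, 0} V ℂ) (G : Polarization.{u, v, w, 0, b} D)
    (S : HodgeStr D) : Stmt_BLD D G S := by
  intro h hP hS X M
  let T := WeilCoh.toWeil h
  let G' := Polarization.toPl h hP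
  have hc : G.c M ∈ D.deg X (2 * 1) := h.cycle.deg X 1 _ (hP.chern_mem X M)
  have hpow : ∀ (k : ℕ) (a : D.H X), ((LinearMap.mulLeft ℂ (G.c M)) ^ k) a = G.c M ^ k * a := by
    intro k
    induction k with
    | zero => intro a; rw [pow_zero, pow_zero, one_mul]; rfl
    | succ k ih =>
      intro a
      rw [pow_succ, Module.End.mul_apply, ih, pow_succ, mul_assoc]
      rfl
  have hadd : ∀ a b : D.H X, D.int (a + b) = D.int a + D.int b := fun a b => map_add (D.tr X) a b
  have hsmul : ∀ (s : ℂ) (a : D.H X), D.int (s • a) = s * D.int a :=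
    fun s a => map_smul (D.tr X) s a
  refine ⟨{ deg := D.deg X, typ := S.hodge X, L := LinearMap.mulLeft ℂ (G.c M),
            B := fun a b => D.int (a * S.bar X b),
            int_deg := DirectSum.Decomposition.isInternal (D.deg X),
            int_typ := hS.types.internal X,
            typ_le := hS.types.deg X,
            L_deg := ?_, L_typ := ?_, hard_inj := ?_, hard_surj := ?_, top := ?_,
            B_add_left := ?_, B_add_right := ?_, B_smul_left := ?_, B_smul_right := ?_,
            B_L := ?_, riemann := ?_ }, rfl, rfl, fun a => rfl, fun a b => rfl⟩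
  · intro i a ha
    exact T.deg_of_eq (T.mul_deg hc ha) (by omega)
  · intro p q a ha
    have h1 := hS.types.mul X 1 1 p q _ (hS.types.alg X 1 _ (hP.chern_mem X M)) a ha
    rw [Nat.add_comm 1 p, Nat.add_comm 1 q] at h1
    exact h1
  · intro i k hik a ha h0
    rw [hpow] at h0
    exact hP.hard_inj X M i k hik a ha h0
  · intro i k hik a ha
    obtain ⟨e, he, hea⟩ := hP.hard_surj X M i k hik a ha
    exact ⟨e, he, (hpow k e).trans hea⟩
  · intro i hi a ha
    exact T.deg_eq_zero ha hi
  · intro a b c
    rw [add_mul, hadd]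
  · intro a b c
    rw [map_add, mul_add, hadd]
  · intro s a b
    rw [smul_mul_assoc, hsmul]
  · intro s a b
    rw [map_smulₛₗ, mul_smul_comm, hsmul]
  · intro a b
    change D.int (G.c M * a * S.bar X b) = D.int (a * S.bar X (G.c M * b))
    rw [hS.conj.mul, hS.real, ← mul_assoc, ← T.even_comm hc a]
  · intro p q k hpq
    refine ⟨Complex.I ^ p * (-Complex.I) ^ q * (-1) ^ ((p + q) * (p + q - 1) / 2), ?_⟩
    intro a ha ha0 hL
    rw [hpow] at hL
    obtain ⟨r, hr, hr1⟩ := hS.riemann X M p q k hpq a ha ha0 hL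
    refine ⟨r, hr, ?_⟩
    rw [← hr1]
    change _ * D.int (((LinearMap.mulLeft ℂ (G.c M)) ^ k) a * S.bar X a) = _
    rw [hpow, mul_assoc (G.c M ^ k)]

end Pool.Prm
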