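import Mathlib

/-!
# Lefschetz modules with Hodge decomposition and Hodge-Riemann form

Linear algebra of `H(X)` for a smooth projective variety `X` of dimension `n` over the complex
numbers: `LHS n W` collects the grading, the Hodge decomposition, the Lefschetz operator and the
form `B(a, b) = ∫ a * conj b`.
-/

universe w

namespace Pool.Prm

/-- a Lefschetz module with Hodge decomposition and Hodge-Riemann form -/
structure LHS (n : ℕ) (W : Type w) [AddCommGroup W] [Module ℂ W] where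
  deg : ℕ → Submodule ℂ W
  typ : ℕ → ℕ → Submodule ℂ W
  L : Module.End ℂ W
  B : W → W → ℂ
  int_deg : DirectSum.IsInternal deg
  int_typ : DirectSum.IsInternal fun pq : ℕ × ℕ => typ pq.1 pq.2
  typ_le : ∀ p q, typ p q ≤ deg (p + q)
  L_deg : ∀ i, ∀ a ∈ deg i, L a ∈ deg (i + 2)
  L_typ : ∀ p q, ∀ a ∈ typ p q, L a ∈ typ (p + 1) (q + 1)
  hard_inj : ∀ i k, i + k = n → ∀ a ∈ deg i, (L ^ k) a = 0 → a = 0
  hard_surj : ∀ i k, i + k = n → ∀ a ∈ deg (i + 2 * k), ∃ e ∈ deg i, (L ^ k) e = a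
  top : ∀ i, 2 * n < i → ∀ a ∈ deg i, a = 0
  B_add_left : ∀ a b c, B (a + b) c = B a c + B b c
  B_add_right : ∀ a b c, B a (b + c) = B a b + B a c
  B_smul_left : ∀ (s : ℂ) (a b : W), B (s • a) b = s * B a b
  B_smul_right : ∀ (s : ℂ) (a b : W), B a (s • b) = starRingEnd ℂ s * B a b
  B_L : ∀ a b, B (L a) b = B a (L b)
  riemann : ∀ p q k, p + q + k = n → ∃ ε : ℂ, ∀ a ∈ typ p q, a ≠ 0 → (L ^ (k + 1)) a = 0 →
    ∃ t : ℝ, 0 < t ∧ ε * B ((L ^ k) a) a = t

variable {n : ℕ} {W : Type w} [AddCommGroup W] [Module ℂ W]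

/-- `f` preserves degrees and types -/
structure LHS.Pres (S : LHS n W) (f : Module.End ℂ W) : Prop where
  deg : ∀ i, ∀ a ∈ S.deg i, f a ∈ S.deg i
  typ : ∀ p q, ∀ a ∈ S.typ p q, f a ∈ S.typ p q

/-- `g` is the adjoint of `f`, both preserve degrees and types -/
structure LHS.Adj (S : LHS n W) (f g : Module.End ℂ W) : Prop where
  left : S.Pres f
  right : S.Pres g
  fg : ∀ a b, S.B (f a) b = S.B a (g b)
  gf : ∀ a b, S.B (g a) b = S.B a (f b)

end Pool.Prm
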