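import Pool.Agent.Work.MP_a60482_prim.Interface

/-!
# MP_a60482_ag, primitive classes: block DER

If `f` and its adjoint `g` satisfy `f L = L f + L`, `g L = L g - L`, then every eigenvalue of
`f - g` on degree `i` has real part `i - n`.
-/

universe w

namespace Pool.Prm

theorem blk_DER (EXT : Stmt_EXT.{w}) : Stmt_DER.{w} := by
  intro n W _ _ S f g hadj hf hg i v μ hv hv0 huv
  have h1 : ∀ b, (f - g) (S.L b) = S.L ((f - g) b) + (2 : ℂ) • S.L b := by
    intro b
    simp only [LinearMap.sub_apply, map_sub, hf, hg]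
    module
  have hL : ∀ (k : ℕ) (a : W), (f - g) ((S.L ^ k) a) =
      (1 : ℂ) • (S.L ^ k) ((f - g) a) + (2 * (k : ℂ)) • (S.L ^ k) a := by
    intro k
    induction k with
    | zero => intro a; simp
    | succ k ih =>
      intro a
      have e1 : ∀ b, (S.L ^ (k + 1)) b = S.L ((S.L ^ k) b) := by
        intro b
        rw [pow_succ', Module.End.mul_apply]
      rw [e1, h1, ih, e1, map_add, map_smul, map_smul]
      push_cast
      module
  have hpres : S.Pres (f - g) :=
    ⟨fun i a ha => Submodule.sub_mem _ (hadj.left.deg i a ha) (hadj.right.deg i a ha),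
      fun p q a ha => Submodule.sub_mem _ (hadj.left.typ p q a ha) (hadj.right.typ p q a ha)⟩
  obtain ⟨s, k, p, q, y, μ', e1, -, e3, hy, hy0, hLy, huy, hμ⟩ :=
    EXT n W S (f - g) (fun _ => 1) (fun k => 2 * (k : ℂ)) hpres (fun _ => one_ne_zero) hL
      i v μ hv hv0 huv
  obtain ⟨ε, hε⟩ := S.riemann p q k e3
  obtain ⟨t, ht, hB⟩ := hε y hy hy0 hLy
  have hBne : S.B ((S.L ^ k) y) y ≠ 0 := by
    intro h0
    rw [h0, mul_zero] at hB
    exact ht.ne' (by exact_mod_cast hB.symm)
  have hneg : ∀ a b : W, S.B (a - b) y = S.B a y - S.B b y := by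
    intro a b
    have h := S.B_add_left (a - b) b y
    rw [sub_add_cancel] at h
    rw [h]; ring
  have hneg' : ∀ a b : W, S.B ((S.L ^ k) y) (a - b) =
      S.B ((S.L ^ k) y) a - S.B ((S.L ^ k) y) b := by
    intro a b
    have h := S.B_add_right ((S.L ^ k) y) (a - b) b
    rw [sub_add_cancel] at h
    rw [h]; ring
  have key1 : S.B ((f - g) ((S.L ^ k) y)) y = (μ' + 2 * k) * S.B ((S.L ^ k) y) y := by
    rw [hL, huy, map_smul, one_smul, S.B_add_left, S.B_smul_left, S.B_smul_left]
    ring
  have key2 : S.B ((f - g) ((S.L ^ k) y)) y =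
      - (starRingEnd ℂ μ' * S.B ((S.L ^ k) y) y) := by
    have h3 : S.B ((S.L ^ k) y) ((f - g) y) = starRingEnd ℂ μ' * S.B ((S.L ^ k) y) y := by
      rw [huy, S.B_smul_right]
    rw [← h3, LinearMap.sub_apply, LinearMap.sub_apply, hneg, hneg', hadj.fg, hadj.gf]
    ring
  have key3 : μ' + 2 * k = - starRingEnd ℂ μ' := by
    have h4 : (μ' + 2 * k) * S.B ((S.L ^ k) y) y =
        (- starRingEnd ℂ μ') * S.B ((S.L ^ k) y) y := by
      rw [← key1, key2]; ring
    exact mul_right_cancel₀ hBne h4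
  have key4 : μ'.re + 2 * k = - μ'.re := by
    have h5 := congrArg Complex.re key3
    simpa using h5
  have key5 : μ'.re + 2 * k = μ.re + 2 * s := by
    have h6 := congrArg Complex.re hμ
    simpa using h6
  have e1' : (i : ℝ) + 2 * s = n + k := by exact_mod_cast e1
  linarith

end Pool.Prm
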