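import Pool.Agent.Work.MP_a60482_prim.Interface

/-!
# MP_a60482_ag, primitive classes: block DIA
-/

open CategoryTheory MonoidalCategory CartesianMonoidalCategory Polynomial

universe u v w x b

namespace Pool.Prm

open Pool.Std Pool.KC

variable {V : Type u} [Category.{v} V] [CartesianMonoidalCategory V]

theorem blk_DIA (D : WeilCoh.{u, v, w, 0} V ℂ) : Stmt_DIA D := by
  classical
  intro h hF X hC c
  choose z hz h2 h3 using hC
  have hadd : ∀ (s t : D.H (X ⊗ X)) (a : D.H X), D.act (s + t) a = D.act s a + D.act t a := by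
    intro s t a
    unfold WeilCoh.act WeilCoh.pf
    rw [mul_add, map_add]
  have hsm : ∀ (r : ℂ) (t : D.H (X ⊗ X)) (a : D.H X), D.act (r • t) a = r • D.act t a := by
    intro r t a
    unfold WeilCoh.act WeilCoh.pf
    rw [mul_smul_comm, map_smul]
  have hz0 : ∀ a : D.H X, D.act (0 : D.H (X ⊗ X)) a = 0 := by
    intro a
    unfold WeilCoh.act WeilCoh.pf
    rw [mul_zero, map_zero]
  have hsum : ∀ (s : Finset ℕ) (g : ℕ → D.H (X ⊗ X)) (a : D.H X),
      D.act (∑ k ∈ s, g k) a = ∑ k ∈ s, D.act (g k) a := by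
    intro s g a
    induction s using Finset.induction_on with
    | empty => rw [Finset.sum_empty, Finset.sum_empty, hz0]
    | insert k s hk ih => rw [Finset.sum_insert hk, Finset.sum_insert hk, hadd, ih]
  refine ⟨∑ k ∈ Finset.range (2 * D.dim X + 1), c k • z k,
    sum_mem fun k _ => hF.smul (X ⊗ X) (D.dim X) (c k) (z k) (hz k), ?_⟩
  intro i a ha
  rw [hsum]
  by_cases hi : i ≤ 2 * D.dim X
  · rw [Finset.sum_eq_single i]
    · rw [hsm, h2 i a ha]
    · intro k _ hk
      rw [hsm, h3 k i (Ne.symm hk) a ha, smul_zero]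
    · intro hn
      refine absurd ?_ hn
      rw [Finset.mem_range]
      omega
  · have ha0 : a = 0 := (WeilCoh.toWeil h).deg_eq_zero ha (by
      change 2 * D.dim X < i
      omega)
    rw [ha0, smul_zero]
    apply Finset.sum_eq_zero
    intro k _
    unfold WeilCoh.act WeilCoh.pf WeilCoh.pb
    rw [map_zero, zero_mul, map_zero]

end Pool.Prm
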