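import Pool.Agent.Work.MP_a60482_prim.Interface

/-!
# MP_a60482_ag, block EXT
-/

universe w

namespace Pool.Prm.EXTb

variable {W : Type w} [AddCommGroup W] [Module ℂ W]

theorem comp_map {ι : Type*} [DecidableEq ι] (A : ι → Submodule ℂ W) [DirectSum.Decomposition A]
    (f : Module.End ℂ W) (σ : ι → ι) (hσ : Function.Injective σ)
    (h : ∀ i, ∀ a ∈ A i, f a ∈ A (σ i)) (y : W) (i : ι) :
    (DirectSum.decompose A (f y) (σ i) : W) = f (DirectSum.decompose A y i : W) := by
  induction y using DirectSum.Decomposition.inductionOn A with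
  | zero => simp
  | homogeneous a =>
    rename_i j
    by_cases hij : j = i
    · subst hij
      rw [DirectSum.decompose_of_mem_same A (h j a a.2), DirectSum.decompose_of_mem_same A a.2]
    · rw [DirectSum.decompose_of_mem_ne A (h j a a.2) (fun e => hij (hσ e)),
        DirectSum.decompose_of_mem_ne A a.2 hij, map_zero]
  | add a b ha hb =>
    rw [map_add, DirectSum.decompose_add, DirectSum.decompose_add, DirectSum.add_apply,
      DirectSum.add_apply, Submodule.coe_add, Submodule.coe_add, ha, hb, map_add]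

/-- an element of `deg j` has a nonzero component of type `(p, q)`, `p + q = j` -/
theorem exists_typ {deg : ℕ → Submodule ℂ W} {typ : ℕ → ℕ → Submodule ℂ W}
    [DirectSum.Decomposition deg] [DirectSum.Decomposition fun pq : ℕ × ℕ => typ pq.1 pq.2]
    (hle : ∀ p q, typ p q ≤ deg (p + q)) {j : ℕ} {y : W} (hy : y ∈ deg j) (h0 : y ≠ 0) :
    ∃ p q, p + q = j ∧
      (DirectSum.decompose (fun pq : ℕ × ℕ => typ pq.1 pq.2) y (p, q) : W) ≠ 0 := by
  classical
  by_contra hcon
  push Not at hcon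
  apply h0
  rw [← DirectSum.decompose_of_mem_same deg hy]
  have h1 : ∀ z : W, (∀ p q, p + q = j →
      (DirectSum.decompose (fun pq : ℕ × ℕ => typ pq.1 pq.2) z (p, q) : W) = 0) →
      (DirectSum.decompose deg z j : W) = 0 := by
    intro z hz
    rw [← DirectSum.sum_support_decompose (fun pq : ℕ × ℕ => typ pq.1 pq.2) z,
      DirectSum.decompose_sum]
    have e : ((∑ i ∈ DFinsupp.support (DirectSum.decompose (fun pq : ℕ × ℕ => typ pq.1 pq.2) z),
        DirectSum.decompose deg
          ((DirectSum.decompose (fun pq : ℕ × ℕ => typ pq.1 pq.2) z i : W))) j : W) =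
        ∑ i ∈ DFinsupp.support (DirectSum.decompose (fun pq : ℕ × ℕ => typ pq.1 pq.2) z),
        (DirectSum.decompose deg
          ((DirectSum.decompose (fun pq : ℕ × ℕ => typ pq.1 pq.2) z i : W)) j : W) := by
      rw [DFinsupp.finsetSum_apply, AddSubmonoidClass.coe_finsetSum]
    rw [e]
    refine Finset.sum_eq_zero fun pq _ => ?_
    obtain ⟨p, q⟩ := pq
    have hm : (DirectSum.decompose (fun pq : ℕ × ℕ => typ pq.1 pq.2) z (p, q) : W) ∈ deg (p + q) :=
      hle p q (Submodule.coe_mem _)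
    by_cases hpq : p + q = j
    · rw [hz p q hpq, DirectSum.decompose_zero]
      rfl
    · exact DirectSum.decompose_of_mem_ne deg hm hpq
  exact h1 y hcon

end Pool.Prm.EXTb

namespace Pool.Prm

open EXTb

theorem blk_EXT : Stmt_EXT.{w} := by
  classical
  intro n W _ _ S u κ β hu hκ hcomm i v μ hv hv0 huv
  -- degrees of powers
  have hLd : ∀ j a, a ∈ S.deg i → (S.L ^ j) a ∈ S.deg (i + 2 * j) := by
    intro j a ha
    induction j with
    | zero => simpa using ha
    | succ j ih =>
      rw [pow_succ', Module.End.mul_apply]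
      have := S.L_deg _ _ ih
      rwa [show i + 2 * (j + 1) = i + 2 * j + 2 by ring]
  have hex : ∃ j, (S.L ^ j) v = 0 := ⟨n + 1, S.top (i + 2 * (n + 1)) (by omega) _ (hLd _ _ hv)⟩
  obtain ⟨s, hs⟩ : ∃ s, Nat.find hex = s + 1 := by
    refine ⟨Nat.find hex - 1, ?_⟩
    have : Nat.find hex ≠ 0 := by
      intro h0
      have := Nat.find_spec hex
      rw [h0, pow_zero] at this
      exact hv0 this
    omega
  have hs1 : (S.L ^ (s + 1)) v = 0 := by
    rw [← hs]
    exact Nat.find_spec hex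
  have hs0 : (S.L ^ s) v ≠ 0 := Nat.find_min hex (by omega)
  have hzero : ∀ j, s + 1 ≤ j → (S.L ^ j) v = 0 := by
    intro j hj
    obtain ⟨l, rfl⟩ := Nat.exists_eq_add_of_le hj
    rw [add_comm (s + 1) l, pow_add, Module.End.mul_apply, hs1, map_zero]
  -- `n ≤ i + 2 s`
  have h1 : n ≤ i + 2 * s := by
    by_contra hcon
    push Not at hcon
    refine hs0 (S.hard_inj (i + 2 * s) (n - (i + 2 * s)) (by omega) _ (hLd s v hv) ?_)
    rw [← Module.End.mul_apply, ← pow_add]
    exact hzero _ (by omega)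
  have h2 : i + 2 * s ≤ 2 * n := by
    by_contra hcon
    push Not at hcon
    exact hs0 (S.top _ hcon _ (hLd s v hv))
  obtain ⟨k, hk⟩ : ∃ k, i + 2 * s = n + k := ⟨i + 2 * s - n, by omega⟩
  have hsk : s ≤ k := by
    by_contra hcon
    push Not at hcon
    exact hv0 (S.hard_inj i (2 * s - k) (by omega) v hv (hzero _ (by omega)))
  obtain ⟨d, hd⟩ : ∃ d, d + k = n := ⟨n - k, by omega⟩
  obtain ⟨y, hy, hyx⟩ := S.hard_surj d k hd ((S.L ^ s) v) (by
    rw [show d + 2 * k = i + 2 * s by omega]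
    exact hLd s v hv)
  have hy0 : y ≠ 0 := by
    rintro rfl
    rw [map_zero] at hyx
    exact hs0 hyx.symm
  have hyk : (S.L ^ (k + 1)) y = 0 := by
    rw [pow_succ', Module.End.mul_apply, hyx, ← Module.End.mul_apply, ← pow_succ', hs1]
  obtain ⟨μ', hμ'⟩ : ∃ μ' : ℂ, μ' = (κ k)⁻¹ * (κ s * μ + β s - β k) := ⟨_, rfl⟩
  have hμ'' : κ k * μ' + β k = κ s * μ + β s := by
    rw [hμ', mul_inv_cancel_left₀ (hκ k)]
    ring
  have huy : u y = μ' • y := by
    have e1 := hcomm s v
    have e2 := hcomm k y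
    rw [huv, map_smul] at e1
    rw [hyx, e1] at e2
    rw [← sub_eq_zero]
    refine S.hard_inj d k hd _ (Submodule.sub_mem _ (hu.deg d y hy) (Submodule.smul_mem _ _ hy)) ?_
    rw [map_sub, map_smul, hyx]
    have e3 : κ k • (S.L ^ k) (u y) = κ k • (μ' • (S.L ^ s) v) := by
      have e4 : κ k • (S.L ^ k) (u y) = (κ s * μ + β s - β k) • (S.L ^ s) v := by
        rw [sub_smul, add_smul, mul_smul, e2, add_sub_cancel_right]
      rw [e4, ← hμ'', smul_smul]
      congr 1
      ring
    have e5 : (S.L ^ k) (u y) = μ' • (S.L ^ s) v := smul_right_injective W (hκ k) e3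
    rw [e5, sub_self]
  -- the components
  let _ := S.int_deg.chooseDecomposition
  let _ := S.int_typ.chooseDecomposition
  obtain ⟨p, q, hpq, hne⟩ := exists_typ (deg := S.deg) (typ := S.typ) S.typ_le hy hy0
  refine ⟨s, k, p, q, (DirectSum.decompose (fun pq : ℕ × ℕ => S.typ pq.1 pq.2) y (p, q) : W), μ', hk,
    hsk, by omega, Submodule.coe_mem _, hne, ?_, ?_, hμ''⟩
  · have hLt : ∀ j (pq : ℕ × ℕ), ∀ a ∈ S.typ pq.1 pq.2, (S.L ^ j) a ∈ S.typ (pq.1 + j) (pq.2 + j) := by
      intro j pq a ha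
      induction j with
      | zero => simpa using ha
      | succ j ih =>
        rw [pow_succ', Module.End.mul_apply, ← add_assoc, ← add_assoc]
        exact S.L_typ _ _ _ ih
    have h3 := comp_map (fun pq : ℕ × ℕ => S.typ pq.1 pq.2) (S.L ^ (k + 1))
      (fun pq => (pq.1 + (k + 1), pq.2 + (k + 1))) (by
        rintro ⟨a, b⟩ ⟨a', b'⟩ h
        simp only [Prod.mk.injEq] at h ⊢
        omega) (fun pq a ha => hLt (k + 1) pq a ha) y (p, q)
    rw [hyk, DirectSum.decompose_zero] at h3
    rw [← h3]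
    rfl
  · have h3 := comp_map (fun pq : ℕ × ℕ => S.typ pq.1 pq.2) u id Function.injective_id
      (fun pq a ha => hu.typ pq.1 pq.2 a ha) y (p, q)
    rw [← h3, huy, DirectSum.decompose_smul]
    rfl

end Pool.Prm
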