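import Pool.Agent.Work.StdConj.Conv
import Pool.Agent.Work.MP_a60482_prim.Api

/-!
`B(X)` holds if and only if `ξ₁ Δ` is divisible by `(ξ₁ - ξ₂)²` in the algebraic classes.
-/

open CategoryTheory MonoidalCategory CartesianMonoidalCategory

universe u v w x b

namespace Pool.Std

open Pool.KC

variable {V : Type u} [Category.{v} V] [CartesianMonoidalCategory V] {K : Type x} [Field K]

section internal

variable {T : WeilTheory.{u, v, w, x} V K} [CharZero K] {R : Cyc T} {G : Pl.{u, v, w, x, b} R}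

/-- the recurrence -/
theorem two_rec {X : V} {c : T.H X} {f : Module.End K (T.H X)}
    (hf : ∀ a, f (c * (c * a)) = (2 : K) • (c * f (c * a)) - c * (c * f a) + c * a) (y : T.H X)
    (j : ℕ) : f (c ^ (j + 1) * y) = -(j : K) • (c ^ (j + 1) * f y) +
      ((j : K) + 1) • (c ^ j * f (c * y)) + (((j : K) + 1) * j / 2) • (c ^ j * y) := by
  have key : ∀ j : ℕ, f (c ^ (j + 1) * y) = -(j : K) • (c ^ (j + 1) * f y) +
      ((j : K) + 1) • (c ^ j * f (c * y)) + (((j : K) + 1) * j / 2) • (c ^ j * y) ∧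
      f (c ^ (j + 2) * y) = -((j + 1 : ℕ) : K) • (c ^ (j + 2) * f y) +
      (((j + 1 : ℕ) : K) + 1) • (c ^ (j + 1) * f (c * y)) +
      ((((j + 1 : ℕ) : K) + 1) * ((j + 1 : ℕ) : K) / 2) • (c ^ (j + 1) * y) := by
    intro j
    induction j with
    | zero =>
      constructor
      · simp
      · have h1 := hf y
        rw [show c ^ (0 + 2) * y = c * (c * y) by rw [zero_add, pow_two, mul_assoc], h1]
        simp only [zero_add, Nat.cast_one, pow_one]
        rw [pow_two, mul_assoc]
        module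
    | succ j ih =>
      refine ⟨ih.2, ?_⟩
      have h1 := hf (c ^ (j + 1) * y)
      have e1 : c * (c ^ (j + 1) * y) = c ^ (j + 2) * y := by
        rw [← mul_assoc, ← pow_succ']
      have e2 : c * (c * (c ^ (j + 1) * y)) = c ^ (j + 1 + 2) * y := by
        rw [e1, ← mul_assoc, ← pow_succ']
      rw [e2, e1, ih.1, ih.2] at h1
      rw [h1]
      simp only [mul_add, mul_smul_comm, ← mul_assoc, ← pow_succ', smul_add, smul_smul]
      push_cast
      module
  exact (key j).1

/-- the values of `f` on the Lefschetz decomposition -/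
theorem two_prim {X : V} {M : G.Bund X} {f : Module.End K (T.H X)}
    (hf : ∀ a, f (G.c M * (G.c M * a)) =
      (2 : K) • (G.c M * f (G.c M * a)) - G.c M * (G.c M * f a) + G.c M * a)
    (h0 : ∀ i < 2, ∀ a ∈ T.deg X i, f a = 0) (h1 : ∀ i, ∀ a ∈ T.deg X (i + 2), f a ∈ T.deg X i)
    {i : ℕ} {y : T.H X} (hy : G.Prim M i y) : f y = 0 ∧
      ∀ j : ℕ, f (G.c M ^ (j + 1) * y) =
        -((((j : K) + 1) * (((T.dim X - i : ℕ) : K) - j)) / 2) • (G.c M ^ j * y) := by
  obtain ⟨k, hk⟩ : ∃ k, k = T.dim X - i := ⟨_, rfl⟩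
  have hik : i + k = T.dim X := by have := hy.1; omega
  have hz : ∀ j, k < j → G.c M ^ j * y = 0 := fun j hj => hy.pow_eq_zero (by omega)
  have hcy : G.c M * y ∈ T.deg X (i + 2) := T.deg_of_eq (T.mul_deg (G.c_deg M) hy.2.1) (by omega)
  have e1 := two_rec hf y k
  have e2 := two_rec hf y (k + 1)
  rw [hz (k + 1) (by omega), map_zero] at e1
  rw [hz (k + 1 + 1) (by omega), map_zero, hz (k + 1) (by omega), smul_zero, add_zero] at e2
  -- `f y = 0`
  have e3 : G.c M ^ (k + 1 + 1) * f y = 0 := by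
    have e4 := congrArg (fun t => G.c M * t) e1
    simp only [mul_zero, mul_add, mul_smul_comm, ← mul_assoc, ← pow_succ'] at e4
    rw [hz (k + 1) (by omega), smul_zero, add_zero] at e4
    have e5 : G.c M ^ (k + 1 + 1) * f y = ((k : K) + 2) • (0 : T.H X) - ((k : K) + 1) • 0 := by
      nth_rw 1 [e4]
      rw [e2]
      push_cast
      module
    rw [e5, smul_zero, smul_zero, sub_zero]
  have hfy : f y = 0 := by
    rcases Nat.lt_or_ge i 2 with hi | hi
    · exact h0 i hi y hy.2.1
    · obtain ⟨i', rfl⟩ : ∃ i', i = i' + 2 := ⟨i - 2, by omega⟩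
      exact G.hard_inj M (i := i') (k := k + 1 + 1) (by omega) _ (h1 i' y hy.2.1) e3
  refine ⟨hfy, ?_⟩
  have e6 : f (G.c M * y) = -((k : K) / 2) • y := by
    rw [← sub_eq_zero]
    apply G.hard_inj M (i := i) (k := k) hik
    · exact sub_mem (h1 i _ hcy) (Submodule.smul_mem _ _ hy.2.1)
    · rw [hfy, mul_zero, smul_zero, zero_add] at e1
      have hk1 : (k : K) + 1 ≠ 0 := by exact_mod_cast Nat.succ_ne_zero k
      have e7 : ((k : K) + 1) • (G.c M ^ k * (f (G.c M * y) - -((k : K) / 2) • y)) = 0 := by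
        rw [e1, mul_sub, mul_smul_comm]
        module
      exact (smul_eq_zero.mp e7).resolve_left hk1
  intro j
  rw [two_rec hf y j, hfy, e6, ← hk, mul_zero, smul_zero, zero_add, mul_smul_comm]
  module

/-- divisibility by `(ξ₁ - ξ₂)²` gives the operator of the `sl2`-triple -/
theorem lef_of_two {X : V} (M : G.Bund X) {z : T.H (X ⊗ X)}
    (hz : z ∈ R.A (X ⊗ X) (T.dim X - 1))
    (hf : ∀ a, T.act z (G.c M * (G.c M * a)) =
      (2 : K) • (G.c M * T.act z (G.c M * a)) - G.c M * (G.c M * T.act z a) + G.c M * a) :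
    G.Lef M := by
  rcases Nat.eq_zero_or_pos (T.dim X) with hX | hX
  · refine ⟨0, zero_mem _, ?_⟩
    rw [T.act_zero]
    refine ⟨fun i _ a _ => rfl, fun i a _ => zero_mem _, ?_⟩
    intro i a ha
    rcases Nat.eq_zero_or_pos i with hi | hi
    · subst hi
      simp [hX]
    · rw [T.deg_eq_zero ha (by omega)]
      simp
  have h0 : ∀ i < 2, ∀ a ∈ T.deg X i, T.act z a = 0 := fun i hi a ha =>
    act_eq_zero T.toCohomology (R.deg hz) ha (by omega)
  have h1 : ∀ i, ∀ a ∈ T.deg X (i + 2), T.act z a ∈ T.deg X i := fun i a ha =>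
    T.act_deg (R.deg hz) (by omega) ha
  obtain ⟨t, ht, hta⟩ := exists_diagonal T (X := X) fun i => ((i : K) - T.dim X) / 2
  have key : ∀ a, T.act z (G.c M * a) - G.c M * T.act z a = T.act t a := by
    intro a
    refine Pl.prim_ind M (P := fun a => T.act z (G.c M * a) - G.c M * T.act z a = T.act t a)
      (by simp) ?_ ?_ a
    · intro i y hy j hj
      obtain ⟨hy0, hy1⟩ := two_prim (f := T.act z) hf h0 h1 hy
      have hd : G.c M ^ j * y ∈ T.deg X (2 * j + i) := T.mul_deg (G.c_pow_deg M j) hy.2.1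
      have hc : ((T.dim X - i : ℕ) : K) = (T.dim X : K) - i := by
        rw [Nat.cast_sub hy.1]
      rw [hta _ _ hd, ← mul_assoc, ← pow_succ', hy1 j, hc]
      rcases j with _ | j
      · rw [pow_zero, one_mul, hy0, mul_zero, sub_zero]
        push_cast
        module
      · rw [hy1 j, hc, mul_smul_comm, ← mul_assoc, ← pow_succ']
        push_cast
        module
    · intro a e h2 h3
      rw [mul_add, map_add, map_add, mul_add, map_add, ← h2, ← h3]
      abel
  refine ⟨((-2 : ℚ) : K) • z, R.smul (-2) hz, ?_⟩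
  have hact : ∀ a, T.act (((-2 : ℚ) : K) • z) a = (-2 : K) • T.act z a := by
    intro a
    rw [T.act_smul, LinearMap.smul_apply]
    norm_num
  refine ⟨?_, ?_, ?_⟩
  · intro i hi a ha
    rw [hact, h0 i hi a ha, smul_zero]
  · intro i a ha
    rw [hact]
    exact Submodule.smul_mem _ _ (h1 i a ha)
  · intro i a ha
    rw [hact, hact]
    have h2 := key a
    rw [hta i a ha] at h2
    have h3 : G.c M * (-2 : K) • T.act z a - (-2 : K) • T.act z (G.c M * a) =
        (2 : K) • (T.act z (G.c M * a) - G.c M * T.act z a) := by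
      rw [mul_smul_comm]
      module
    rw [h3, h2, smul_smul]
    congr 1
    ring

/-- the operator of the `sl2`-triple gives divisibility by `(ξ₁ - ξ₂)²` -/
theorem two_of_lef {X : V} (M : G.Bund X) (h : G.Lef M) : ∃ z ∈ R.A (X ⊗ X) (T.dim X - 1),
    ∀ a, T.act z (G.c M * (G.c M * a)) =
      (2 : K) • (G.c M * T.act z (G.c M * a)) - G.c M * (G.c M * T.act z a) + G.c M * a := by
  obtain ⟨y, hy, hl⟩ := h
  refine ⟨((-1 / 2 : ℚ) : K) • y, R.smul _ hy, ?_⟩
  have hact : ∀ a, T.act (((-1 / 2 : ℚ) : K) • y) a = (-1 / 2 : K) • T.act y a := by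
    intro a
    rw [T.act_smul, LinearMap.smul_apply]
    norm_num
  intro a
  refine T.hind (P := fun a => T.act (((-1 / 2 : ℚ) : K) • y) (G.c M * (G.c M * a)) =
      (2 : K) • (G.c M * T.act (((-1 / 2 : ℚ) : K) • y) (G.c M * a)) -
        G.c M * (G.c M * T.act (((-1 / 2 : ℚ) : K) • y) a) + G.c M * a) (by simp) ?_ ?_ a
  · intro i a ha
    have h1 := hl.comm i a ha
    have hca : G.c M * a ∈ T.deg X (i + 2) :=
      T.deg_of_eq (T.mul_deg (G.c_deg M) ha) (by omega)
    have h2 := hl.comm (i + 2) (G.c M * a) hca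
    have h3 : T.act y (G.c M * a) = G.c M * T.act y a - ((i : K) - T.dim X) • a := by
      rw [← h1]; abel
    have h4 : T.act y (G.c M * (G.c M * a)) = G.c M * T.act y (G.c M * a) -
        (((i + 2 : ℕ) : K) - T.dim X) • (G.c M * a) := by
      rw [← h2]; abel
    rw [hact, hact, hact, h4, h3]
    simp only [mul_sub, mul_smul_comm, smul_sub]
    push_cast
    module
  · intro a e h1 h2
    simp only [mul_add, map_add, h1, h2, smul_add]
    abel

end internal

variable {D : WeilCoh.{u, v, w, x} V K} {G : Polarization.{u, v, w, x, b} D}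

theorem two_op (h : D.IsWeil) (hP : G.IsPolarized) {X : V} (M : G.Bund X) (z : D.H (X ⊗ X)) :
    D.pb (fst X X) (G.c M) * D.diag X =
      (D.pb (fst X X) (G.c M) - D.pb (snd X X) (G.c M)) ^ 2 * z ↔
    ∀ a : D.H X, (WeilCoh.toWeil h).act z (G.c M * (G.c M * a)) =
      (2 : K) • (G.c M * (WeilCoh.toWeil h).act z (G.c M * a)) -
        G.c M * (G.c M * (WeilCoh.toWeil h).act z a) + G.c M * a := by
  let T := WeilCoh.toWeil h
  let G' := Polarization.toPl h hP
  have hc : G.c M ∈ T.deg X (2 * 1) := G'.c_deg M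
  set ξ1 : T.H (X ⊗ X) := T.pull (fst X X) (G.c M) with hξ1
  set ξ2 : T.H (X ⊗ X) := T.pull (snd X X) (G.c M) with hξ2
  have a1 : ∀ (y : T.H (X ⊗ X)) (a : T.H X), T.act (ξ1 * y) a = T.act y (G.c M * a) := by
    intro y a
    rw [hξ1, T.act_fst_mul, ← T.even_comm hc a]
  have a2 : ∀ (y : T.H (X ⊗ X)) (a : T.H X), T.act (ξ2 * y) a = G.c M * T.act y a :=
    fun y a => T.act_snd_mul hc y a
  have e1 : ∀ a : T.H X, T.act (ξ1 * T.diag X) a = G.c M * a := by
    intro a
    rw [a1, T.act_diag]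
    rfl
  have e2 : ∀ a : T.H X, T.act ((ξ1 - ξ2) ^ 2 * z) a = T.act z (G.c M * (G.c M * a)) -
      (2 : K) • (G.c M * T.act z (G.c M * a)) + G.c M * (G.c M * T.act z a) := by
    intro a
    have e3 : ∀ (y : T.H (X ⊗ X)) (a : T.H X), T.act ((ξ1 - ξ2) * y) a =
        T.act y (G.c M * a) - G.c M * T.act y a := by
      intro y a
      have e6 : ξ1 * y = (ξ1 - ξ2) * y + ξ2 * y := by rw [← add_mul, sub_add_cancel]
      rw [← a1, ← a2, e6, T.act_add, LinearMap.add_apply, add_sub_cancel_right]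
    rw [pow_two, mul_assoc, e3, e3, e3, mul_sub]
    module
  have e4 : D.pb (fst X X) (G.c M) * D.diag X = ξ1 * T.diag X := rfl
  have e5 : (D.pb (fst X X) (G.c M) - D.pb (snd X X) (G.c M)) ^ 2 * z = (ξ1 - ξ2) ^ 2 * z := rfl
  rw [e4, e5, ← T.act_injective.eq_iff, LinearMap.ext_iff]
  refine forall_congr' fun a => ?_
  rw [e1, e2]
  have key : ∀ A B C E : T.H X, A = B - (2 : K) • C + E ↔ B = (2 : K) • C - E + A := by
    intro A B C E
    constructor
    · intro h1
      rw [h1]
      module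
    · intro h1
      rw [h1]
      module
  exact key _ _ _ _

/-- `B(X)` holds if and only if `ξ₁ Δ` is divisible by `(ξ₁ - ξ₂)²`. -/
theorem conjB_iff_two [CharZero K] (h : D.IsWeil) (hP : G.IsPolarized) {X : V}
    (M : G.Bund X) : G.ConjB M ↔ G.TwiceDivisible M := by
  rw [Polarization.conjB_iff h hP]
  let G' := Polarization.toPl h hP
  constructor
  · intro hB
    obtain ⟨z, hz, h1⟩ := two_of_lef (G := G') M (G'.lef_of_lefB M hB)
    exact ⟨z, hz, (two_op h hP M z).mpr h1⟩
  · rintro ⟨z, hz, h1⟩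
    exact G'.lefB_of_lef M (lef_of_two (G := G') M hz ((two_op h hP M z).mp h1))

end Pool.Std
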