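import Pool.Agent.Work.MP_a60482_prim.Interface
import Pool.Agent.Work.MP_a60482_prim.TWO

/-!
# Assembly
-/

open CategoryTheory MonoidalCategory CartesianMonoidalCategory Polynomial

universe u v w x b

namespace Pool.Prm

open Pool.Std

variable {V : Type u} [Category.{v} V] [CartesianMonoidalCategory V]
variable {D : WeilCoh.{u, v, w, 0} V ℂ}

theorem aeval_mem {E : Type w} [AddCommGroup E] [Module ℂ E]
    {O : Subalgebra ℂ (Module.End ℂ E)} {u : Module.End ℂ E} (hu : u ∈ O) (P : ℂ[X]) :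
    aeval u P ∈ O :=
  Algebra.adjoin_le (Set.singleton_subset_iff.mpr hu) (Polynomial.aeval_mem_adjoin_singleton ℂ u)

/-- the operator of a correspondence -/
noncomputable def opn (h : D.IsWeil) {X : V} (z : D.H (X ⊗ X)) : Module.End ℂ (D.H X) :=
  (WeilCoh.toWeil h).act z

theorem opn_apply (h : D.IsWeil) {X : V} (z : D.H (X ⊗ X)) (a : D.H X) :
    opn h z a = D.act z a := WeilCoh.act_eq h z a

theorem opn_deg (h : D.IsWeil) {X : V} {z : D.H (X ⊗ X)} (hz : z ∈ D.alg (X ⊗ X) (D.dim X))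
    {i : ℕ} {a : D.H X} (ha : a ∈ D.deg X i) : opn h z a ∈ D.deg X i :=
  Cyc.Op_deg (R := WeilCoh.toCyc h) (r := D.dim X) (Cyc.act_mem_Op hz)
    (show i + 2 * D.dim X = 2 * D.dim X + i by omega) ha

/-- a property of all homogeneous elements stable under sums holds for all elements -/
theorem hom_ind (h : D.IsWeil) {X : V} {P : D.H X → Prop} (h0 : P 0)
    (h1 : ∀ i, ∀ a ∈ D.deg X i, P a) (h2 : ∀ a e, P a → P e → P (a + e)) (a : D.H X) : P a :=
  (WeilCoh.toWeil h).hind (P := P) h0 (fun i a ha => h1 i a ha) h2 a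

theorem isInternal_deg (X : V) : DirectSum.IsInternal (D.deg X) :=
  DirectSum.Decomposition.isInternal (D.deg X)

section one

variable {G : Polarization.{u, v, w, 0, b} D} {S : HodgeStr D}

/-- the algebra of algebraic operators -/
theorem mem_alg {h : D.IsWeil} {X : V} {O : Subalgebra ℂ (Module.End ℂ (D.H X))}
    (hO : ∀ f : Module.End ℂ (D.H X), f ∈ O ↔ ∃ z ∈ D.alg (X ⊗ X) (D.dim X), ∀ a,
      D.act z a = f a) {z : D.H (X ⊗ X)} (hz : z ∈ D.alg (X ⊗ X) (D.dim X)) : opn h z ∈ O :=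
  (hO _).mpr ⟨z, hz, fun a => (opn_apply h z a).symm⟩

/-- the adjoint correspondence -/
theorem exists_adj (TYP : Stmt_TYP D S) (ADJ : Stmt_ADJ D S) (h : D.IsWeil) (hS : S.IsHodge G)
    {X : V} {H : LHS (D.dim X) (D.H X)} (hd : H.deg = D.deg X) (ht : H.typ = S.hodge X)
    (hB : ∀ a b, H.B a b = D.int (a * S.bar X b)) {z : D.H (X ⊗ X)}
    (hz : z ∈ D.alg (X ⊗ X) (D.dim X)) :
    ∃ z' ∈ D.alg (X ⊗ X) (D.dim X), H.Adj (opn h z) (opn h z') := by
  obtain ⟨z', hz', h1, h2⟩ := ADJ h hS.conj X z hz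
  have hpres : ∀ y ∈ D.alg (X ⊗ X) (D.dim X), H.Pres (opn h y) := by
    intro y hy
    refine ⟨?_, ?_⟩
    · intro i a ha
      rw [hd] at ha ⊢
      exact opn_deg h hy ha
    · intro p q a ha
      rw [ht] at ha ⊢
      rw [opn_apply]
      exact TYP h hS.types X y hy p q a ha
  refine ⟨z', hz', hpres z hz, hpres z' hz', ?_, ?_⟩
  · intro a b
    rw [hB, hB, opn_apply, opn_apply, h1]
  · intro a b
    rw [hB, hB, opn_apply, opn_apply, h2]

theorem nondeg_right (h : D.IsWeil) (hS : S.IsHodge G)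
    {X : V} {H : LHS (D.dim X) (D.H X)} (hB : ∀ a b, H.B a b = D.int (a * S.bar X b))
    {c d : D.H X} (hcd : ∀ a, H.B a c = H.B a d) : c = d := by
  have h1 : S.bar X (c - d) = 0 := by
    apply h.trace.duality
    intro a
    have h2 := hcd a
    rw [hB, hB] at h2
    rw [map_sub, mul_sub]
    have h3 : D.int (a * S.bar X c - a * S.bar X d) =
        D.int (a * S.bar X c) - D.int (a * S.bar X d) := map_sub (D.tr X) _ _
    rw [h3, h2, sub_self]
  have h4 : c - d = 0 := by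
    rw [← hS.conj.invol X (c - d), h1, map_zero]
  exact sub_eq_zero.mp h4

/-- the commutation relation of the adjoint -/
theorem adj_twist (h : D.IsWeil) (hS : S.IsHodge G)
    {X : V} {H : LHS (D.dim X) (D.H X)} (hB : ∀ a b, H.B a b = D.int (a * S.bar X b))
    {f g : Module.End ℂ (D.H X)} (hfg : H.Adj f g) {q : ℂ} (hq : q ≠ 0)
    (hL : ∀ a, f (H.L a) = q • H.L (f a)) (b : D.H X) :
    g (H.L b) = (starRingEnd ℂ q)⁻¹ • H.L (g b) := by
  apply nondeg_right h hS hB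
  intro a
  rw [H.B_smul_right, ← H.B_L, ← hfg.fg, ← hfg.fg, hL, H.B_smul_left, ← H.B_L]
  rw [map_inv₀, Complex.conj_conj, ← mul_assoc, inv_mul_cancel₀ hq, one_mul]

theorem adj_der (h : D.IsWeil) (hS : S.IsHodge G)
    {X : V} {H : LHS (D.dim X) (D.H X)} (hB : ∀ a b, H.B a b = D.int (a * S.bar X b))
    {f g : Module.End ℂ (D.H X)} (hfg : H.Adj f g)
    (hL : ∀ a, f (H.L a) = H.L (f a) + H.L a) (b : D.H X) :
    g (H.L b) = H.L (g b) - H.L b := by
  apply nondeg_right h hS hB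
  intro a
  have h0 : H.L (g b) - H.L b = H.L (g b) + (-1 : ℂ) • H.L b := by
    rw [neg_one_smul, sub_eq_add_neg]
  rw [h0, H.B_add_right, H.B_smul_right, ← hfg.fg, ← H.B_L (f a), ← H.B_L a (g b), ← hfg.fg,
    hL, H.B_add_left, ← H.B_L a b]
  simp

/-- the blocks -/
structure Blocks (D : WeilCoh.{u, v, w, 0} V ℂ) (G : Polarization.{u, v, w, 0, b} D)
    (S : HodgeStr D) : Prop where
  RAY : Stmt_RAY.{w}
  DER : Stmt_DER.{w}
  SQR : Stmt_SQR.{w}
  SEP : Stmt_SEP.{w}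
  SET : Stmt_SET.{w}
  TYP : Stmt_TYP D S
  ADJ : Stmt_ADJ D S
  BLD : Stmt_BLD D G S
  DIA : Stmt_DIA D
  POL : Stmt_POL D
  TWI : Stmt_TWI D G

variable (Bl : Blocks D G S)

include Bl

/-- a set `A` of degrees whose eigenvalues for an algebraic operator `u` are different from those
on the other degrees has an algebraic projector -/
theorem proj_of_set (h : D.IsWeil) {X : V} {O : Subalgebra ℂ (Module.End ℂ (D.H X))}
    (hO : ∀ f : Module.End ℂ (D.H X), f ∈ O ↔ ∃ z ∈ D.alg (X ⊗ X) (D.dim X), ∀ a,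
      D.act z a = f a) {u : Module.End ℂ (D.H X)} (hu : u ∈ O) {A : Set ℕ}
    (hA : ∀ i ∈ A, ∀ j ∉ A, ∀ a ∈ D.deg X i, ∀ b ∈ D.deg X j, ∀ μ : ℂ, u a = μ • a →
      u b = μ • b → a = 0 ∨ b = 0) :
    ∃ z ∈ D.alg (X ⊗ X) (D.dim X), (∀ i ∈ A, ∀ a ∈ D.deg X i, D.act z a = a) ∧
      ∀ i ∉ A, ∀ a ∈ D.deg X i, D.act z a = 0 := by
  have hdeg : ∀ i, ∀ a ∈ D.deg X i, u a ∈ D.deg X i := by
    obtain ⟨z, hz, hza⟩ := (hO u).mp hu
    intro i a ha
    rw [← hza a, ← opn_apply h]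
    exact opn_deg h hz ha
  obtain ⟨P, hP1, hP2⟩ := Bl.SET _ u (D.deg X) (isInternal_deg X) hdeg A hA
  obtain ⟨z, hz, hza⟩ := (hO _).mp (aeval_mem hu P)
  exact ⟨z, hz, fun i hi a ha => (hza a).trans (hP1 i hi a ha),
    fun i hi a ha => (hza a).trans (hP2 i hi a ha)⟩

/-- `C(X)` from an algebraic operator with different eigenvalues on different degrees -/
theorem conjC_of_sep (h : D.IsWeil) {X : V} {O : Subalgebra ℂ (Module.End ℂ (D.H X))}
    (hO : ∀ f : Module.End ℂ (D.H X), f ∈ O ↔ ∃ z ∈ D.alg (X ⊗ X) (D.dim X), ∀ a,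
      D.act z a = f a) {u : Module.End ℂ (D.H X)} (hu : u ∈ O)
    (hA : ∀ i j, i ≠ j → ∀ a ∈ D.deg X i, ∀ b ∈ D.deg X j, ∀ μ : ℂ, u a = μ • a →
      u b = μ • b → a = 0 ∨ b = 0) : D.ConjC X := by
  intro i
  obtain ⟨z, hz, h1, h2⟩ := proj_of_set Bl h hO hu (A := {i})
    (fun i' hi' j hj => hA i' j (by rintro rfl; exact hj hi'))
  exact ⟨z, hz, h1 i rfl, fun j hj => h2 j hj⟩

/-- divisibility gives `C(X)` -/
theorem conjC_of_div (h : D.IsWeil) (hF : D.CoefficientsIn ℂ) (hP : G.IsPolarized)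
    (hS : S.IsHodge G) {X : V} (M : G.Bund X) (hz : G.Divisible M) : D.ConjC X := by
  obtain ⟨z, hz, hrel⟩ := hz
  obtain ⟨H, hd, ht, hL, hB⟩ := Bl.BLD h hP hS X M
  obtain ⟨O, hO⟩ := Bl.POL h hF X
  obtain ⟨z', hz', hadj⟩ := exists_adj Bl.TYP Bl.ADJ h hS hd ht hB hz
  have h1 : ∀ a, opn h z (H.L a) = H.L (opn h z a) + H.L a := by
    intro a
    rw [hL, hL, opn_apply, opn_apply]
    exact ((Bl.TWI h hP X M z).2.1.mp hrel) a
  have h2 := adj_der h hS hB hadj h1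
  refine conjC_of_sep Bl h hO (u := opn h z - opn h z')
    (sub_mem (mem_alg hO hz) (mem_alg hO hz')) ?_
  intro i j hij a ha b hb μ hua hub
  by_contra hcon
  push Not at hcon
  rw [← hd] at ha hb
  have e1 := Bl.DER _ _ H _ _ hadj h1 h2 i a μ ha hcon.1 hua
  have e2 := Bl.DER _ _ H _ _ hadj h1 h2 j b μ hb hcon.2 hub
  apply hij
  have e3 : (i : ℝ) = j := by linarith
  exact_mod_cast e3

/-- the relations of a twisted class -/
theorem twist_rel (h : D.IsWeil) (hP : G.IsPolarized) {X : V} (M : G.Bund X)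
    {H : LHS (D.dim X) (D.H X)} (hL : ∀ a, H.L a = G.c M * a)
    {z : D.H (X ⊗ X)} {q : ℂ} (hz : G.Twisted M q z) (a : D.H X) :
    opn h z (H.L a) = q • H.L (opn h z a) := by
  rw [hL, hL, opn_apply, opn_apply]
  exact ((Bl.TWI h hP X M z).1 q).mp hz.2 a

/-- eigenvalues of `u = g f` on the unit circle -/
theorem exists_ray (h : D.IsWeil) (hP : G.IsPolarized)
    (hS : S.IsHodge G) {X : V} (M : G.Bund X) {z : D.H (X ⊗ X)} {q : ℂ} (hq : ‖q‖ = 1)
    (hz : G.Twisted M q z) {O : Subalgebra ℂ (Module.End ℂ (D.H X))}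
    (hO : ∀ f : Module.End ℂ (D.H X), f ∈ O ↔ ∃ z ∈ D.alg (X ⊗ X) (D.dim X), ∀ a,
      D.act z a = f a) :
    ∃ u ∈ O, ∀ (i : ℕ) (v : D.H X) (μ : ℂ), v ∈ D.deg X i → v ≠ 0 → u v = μ • v →
      ∃ t : ℝ, 0 ≤ t ∧ μ * q ^ D.dim X = t * q ^ i ∧
        (t = 0 → (∃ a, a ≠ 0 ∧ D.act z a = 0) ∧
          (i = D.dim X → ∃ a ∈ D.deg X (D.dim X), a ≠ 0 ∧ D.act z a = 0)) := by
  obtain ⟨H, hd, ht, hL, hB⟩ := Bl.BLD h hP hS X M
  obtain ⟨z', hz', hadj⟩ := exists_adj Bl.TYP Bl.ADJ h hS hd ht hB hz.1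
  have hq0 : q ≠ 0 := by
    rintro rfl
    simp at hq
  have h1 := twist_rel Bl h hP M hL hz
  have h2 : ∀ a, opn h z' (H.L a) = q • H.L (opn h z' a) := by
    intro a
    rw [adj_twist h hS hB hadj hq0 h1 a]
    congr 1
    rw [inv_eq_iff_eq_inv, Complex.inv_def, Complex.normSq_eq_norm_sq, hq]
    simp
  refine ⟨opn h z' * opn h z, mul_mem (mem_alg hO hz') (mem_alg hO hz.1), ?_⟩
  intro i v μ hv hv0 huv
  rw [← hd] at hv
  obtain ⟨t, ht0, ht1, ht2⟩ := Bl.RAY _ _ H _ _ q hadj hq h1 h2 i v μ hv hv0 huv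
  refine ⟨t, ht0, ht1, fun h3 => ?_⟩
  obtain ⟨⟨a, ha0, ha⟩, h4⟩ := ht2 h3
  refine ⟨⟨a, ha0, (opn_apply h z a).symm.trans ha⟩, fun h5 => ?_⟩
  obtain ⟨a, ha, ha0, ha1⟩ := h4 h5
  rw [hd] at ha
  exact ⟨a, ha, ha0, (opn_apply h z a).symm.trans ha1⟩

/-- a nondegenerate twisted class separates the degrees `i`, `j` with `q^i ≠ q^j` -/
theorem ray_ne (h : D.IsWeil) (hP : G.IsPolarized)
    (hS : S.IsHodge G) {X : V} (M : G.Bund X) {z : D.H (X ⊗ X)} {q : ℂ} (hq : ‖q‖ = 1)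
    (hz : G.Twisted M q z) (hn : D.Nondegenerate z) {O : Subalgebra ℂ (Module.End ℂ (D.H X))}
    (hO : ∀ f : Module.End ℂ (D.H X), f ∈ O ↔ ∃ z ∈ D.alg (X ⊗ X) (D.dim X), ∀ a,
      D.act z a = f a) :
    ∃ u ∈ O, ∀ i j : ℕ, q ^ i ≠ q ^ j → ∀ a ∈ D.deg X i, ∀ b ∈ D.deg X j, ∀ μ : ℂ,
      u a = μ • a → u b = μ • b → a = 0 ∨ b = 0 := by
  obtain ⟨u, hu, h1⟩ := exists_ray Bl h hP hS M hq hz hO
  refine ⟨u, hu, ?_⟩
  intro i j hij a ha b hb μ hua hub
  by_contra hcon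
  push Not at hcon
  obtain ⟨t, ht0, ht1, ht2⟩ := h1 i a μ ha hcon.1 hua
  obtain ⟨t', ht0', ht1', ht2'⟩ := h1 j b μ hb hcon.2 hub
  have hpos : t ≠ 0 := by
    intro h3
    obtain ⟨⟨c, hc0, hc⟩, -⟩ := ht2 h3
    exact hc0 (hn c hc)
  have h4 : (t : ℂ) * q ^ i = t' * q ^ j := by rw [← ht1, ← ht1']
  have h5 : ‖(t : ℂ) * q ^ i‖ = ‖(t' : ℂ) * q ^ j‖ := by rw [h4]
  rw [norm_mul, norm_mul, norm_pow, norm_pow, hq, one_pow, one_pow, mul_one, mul_one,
    Complex.norm_real, Complex.norm_real, Real.norm_of_nonneg ht0, Real.norm_of_nonneg ht0'] at h5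
  subst h5
  exact hij (mul_left_cancel₀ (by exact_mod_cast hpos) h4)

/-- a nondegenerate twisted class with `|q| ≠ 1` separates all degrees -/
theorem abs_ne (h : D.IsWeil) (hP : G.IsPolarized)
    (hS : S.IsHodge G) {X : V} (M : G.Bund X) {z : D.H (X ⊗ X)} {q : ℂ} (hq0 : q ≠ 0)
    (hq : ‖q‖ ≠ 1)
    (hz : G.Twisted M q z) (hn : D.Nondegenerate z) {O : Subalgebra ℂ (Module.End ℂ (D.H X))}
    (hO : ∀ f : Module.End ℂ (D.H X), f ∈ O ↔ ∃ z ∈ D.alg (X ⊗ X) (D.dim X), ∀ a,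
      D.act z a = f a) :
    ∃ u ∈ O, ∀ i j : ℕ, i ≠ j → ∀ a ∈ D.deg X i, ∀ b ∈ D.deg X j, ∀ μ : ℂ,
      u a = μ • a → u b = μ • b → a = 0 ∨ b = 0 := by
  obtain ⟨H, hd, ht, hL, hB⟩ := Bl.BLD h hP hS X M
  obtain ⟨z', hz', hadj⟩ := exists_adj Bl.TYP Bl.ADJ h hS hd ht hB hz.1
  have h1 := twist_rel Bl h hP M hL hz
  have h2 := adj_twist h hS hB hadj hq0 h1
  set f := opn h z with hf
  set g := opn h z' with hg
  have hfO : f ∈ O := mem_alg hO hz.1
  have hgO : g ∈ O := mem_alg hO hz'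
  -- `g` is invertible in `O`
  have hfinj : Function.Injective f := by
    rw [injective_iff_map_eq_zero]
    intro a ha
    exact hn a ((opn_apply h z a).symm.trans ha)
  have hfsurj : Function.Surjective f := LinearMap.injective_iff_surjective.mp hfinj
  have hginj : ∀ a, g a = 0 → a = 0 := by
    intro a ha
    apply nondeg_right h hS hB
    intro c
    obtain ⟨c, rfl⟩ := hfsurj c
    rw [hadj.fg, hadj.fg, ha, map_zero]
  obtain ⟨g', hg'O, hg'⟩ : ∃ g' ∈ O, g * g' = 1 := by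
    let T : O →ₗ[ℂ] O := LinearMap.mulLeft ℂ (⟨g, hgO⟩ : O)
    have hTinj : Function.Injective T := by
      rw [injective_iff_map_eq_zero]
      intro c hc
      have h3 : g * (c : Module.End ℂ (D.H X)) = 0 := congrArg Subtype.val hc
      apply Subtype.ext
      apply LinearMap.ext
      intro a
      exact hginj _ (LinearMap.congr_fun h3 a)
    obtain ⟨c, hc⟩ := (LinearMap.injective_iff_surjective (f := T)).mp hTinj (1 : O)
    exact ⟨c, c.2, congrArg Subtype.val hc⟩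
  have hg'' : g' * g = 1 := _root_.mul_eq_one_comm.mp hg'
  have h3 : ∀ a, g' (H.L a) = starRingEnd ℂ q • H.L (g' a) := by
    intro a
    have e1 : g (g' a) = a := LinearMap.congr_fun hg' a
    have e2 : ∀ c, g' (g c) = c := fun c => LinearMap.congr_fun hg'' c
    have e3 := h2 (g' a)
    rw [e1] at e3
    have e4 : starRingEnd ℂ q ≠ 0 := (_root_.map_ne_zero _).mpr hq0
    have e5 : H.L a = starRingEnd ℂ q • g (H.L (g' a)) := by
      rw [e3, smul_smul, mul_inv_cancel₀ e4, one_smul]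
    rw [e5, map_smul, e2]
  have hf1O : f * g' ∈ O := mul_mem hfO hg'O
  obtain ⟨z1, hz1, hz1a⟩ := (hO _).mp hf1O
  have ef1 : opn h z1 = f * g' := LinearMap.ext fun a => (opn_apply h z1 a).trans (hz1a a)
  obtain ⟨z1', hz1', hadj1⟩ := exists_adj Bl.TYP Bl.ADJ h hS hd ht hB hz1
  rw [ef1] at hadj1
  set g1 := opn h z1' with hg1
  have hg1O : g1 ∈ O := mem_alg hO hz1'
  set r : ℝ := ‖q‖ ^ 2 with hr
  have hr0 : 0 < r := by
    have := norm_pos_iff.mpr hq0
    positivity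
  have hr1 : r ≠ 1 := by
    intro e1
    apply hq
    have e2 : ‖q‖ ^ 2 = 1 ^ 2 := by rw [one_pow]; exact e1
    exact (pow_left_inj₀ (norm_nonneg q) zero_le_one two_ne_zero).mp e2
  have hrc : starRingEnd ℂ q * q = (r : ℂ) := by
    rw [Complex.conj_mul', hr]
    push_cast
    rfl
  have h4 : ∀ a, (f * g') (H.L a) = (r : ℂ) • H.L ((f * g') a) := by
    intro a
    rw [Module.End.mul_apply, Module.End.mul_apply, h3, map_smul, h1, smul_smul, hrc]
  have h5 : ∀ a, g1 (H.L a) = ((r : ℂ)⁻¹) • H.L (g1 a) := by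
    intro a
    have e1 := adj_twist h hS hB hadj1 (q := (r : ℂ)) (by exact_mod_cast hr0.ne') h4 a
    rw [e1, Complex.conj_ofReal]
  have h6 : ∀ a, (f * g') a = 0 → a = 0 := by
    intro a ha
    rw [Module.End.mul_apply] at ha
    have e1 : g' a = 0 := hfinj (ha.trans (map_zero f).symm)
    have e2 : g (g' a) = a := LinearMap.congr_fun hg' a
    rw [← e2, e1, map_zero]
  obtain ⟨P, hPP⟩ := Bl.SQR _ _ H (f * g') g1 r hadj1 hr0 h4 h5 h6
  refine ⟨f * g' * aeval (g1 * (f * g')) P, mul_mem hf1O (aeval_mem (mul_mem hg1O hf1O) P), ?_⟩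
  intro i j hij a ha b hb μ hua hub
  by_contra hcon
  push Not at hcon
  rw [← hd] at ha hb
  have e1 := hPP i a μ ha hcon.1 hua
  have e2 := hPP j b μ hb hcon.2 hub
  exact hij (pow_right_injective₀ hr0 hr1 (e1.symm.trans e2))

/-- one nondegenerate twisted class gives `C(X)`, if `q` is not a root of unity -/
theorem conjC_of_twist (h : D.IsWeil) (hF : D.CoefficientsIn ℂ) (hP : G.IsPolarized)
    (hS : S.IsHodge G) {X : V} (M : G.Bund X) {q : ℂ} (hq0 : q ≠ 0) (hq : ∀ m > 0, q ^ m ≠ 1)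
    {z : D.H (X ⊗ X)} (hz : G.Twisted M q z) (hn : D.Nondegenerate z) : D.ConjC X := by
  obtain ⟨O, hO⟩ := Bl.POL h hF X
  by_cases h1 : ‖q‖ = 1
  · obtain ⟨u, hu, hu1⟩ := ray_ne Bl h hP hS M h1 hz hn hO
    refine conjC_of_sep Bl h hO hu fun i j hij => hu1 i j ?_
    intro h2
    have key : ∀ i j : ℕ, i < j → q ^ i = q ^ j → False := by
      intro i j hlt h3
      obtain ⟨m, rfl⟩ : ∃ m, j = i + m := ⟨j - i, by omega⟩
      rw [pow_add] at h3
      exact hq m (by omega) (mul_left_cancel₀ (pow_ne_zero i hq0)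
        (h3.symm.trans (mul_one _).symm))
    rcases lt_or_gt_of_ne hij with h3 | h3
    · exact key i j h3 h2
    · exact key j i h3 h2.symm
  · obtain ⟨u, hu, hu1⟩ := abs_ne Bl h hP hS M hq0 h1 hz hn hO
    exact conjC_of_sep Bl h hO hu hu1

/-- the projectors modulo `N` -/
theorem mod_of_twist (h : D.IsWeil) (hF : D.CoefficientsIn ℂ) (hP : G.IsPolarized)
    (hS : S.IsHodge G) {X : V} (M : G.Bund X) {N : ℕ} (hN : N ≠ 0) {q : ℂ}
    (hq : IsPrimitiveRoot q N)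
    {z : D.H (X ⊗ X)} (hz : G.Twisted M q z) (hn : D.Nondegenerate z) (r : ℕ) :
    D.ModConj N r X := by
  obtain ⟨O, hO⟩ := Bl.POL h hF X
  have h1 : ‖q‖ = 1 := Complex.norm_eq_one_of_pow_eq_one hq.pow_eq_one hN
  obtain ⟨u, hu, hu1⟩ := ray_ne Bl h hP hS M h1 hz hn hO
  obtain ⟨y, hy, hy1, hy2⟩ := proj_of_set Bl h hO hu (A := {i | i ≡ r [MOD N]}) (by
    intro i hi j hj
    refine hu1 i j ?_
    intro h2
    apply hj
    have key : ∀ i j : ℕ, i ≤ j → q ^ i = q ^ j → i ≡ j [MOD N] := by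
      intro i j hle h3
      obtain ⟨m, rfl⟩ : ∃ m, j = i + m := ⟨j - i, by omega⟩
      rw [pow_add] at h3
      have h4 : q ^ m = 1 := mul_left_cancel₀ (pow_ne_zero i (hq.ne_zero hN))
        (h3.symm.trans (mul_one _).symm)
      have h5 := (hq.pow_eq_one_iff_dvd m).mp h4
      exact (Nat.modEq_iff_dvd' (by omega)).mpr (by simpa using h5)
    have h3 : i ≡ j [MOD N] := by
      rcases le_total i j with h3 | h3
      · exact key i j h3 h2
      · exact (key j i h3 h2.symm).symm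
    exact h3.symm.trans hi)
  refine ⟨y, hy, ?_⟩
  intro i a ha
  by_cases hi : i ≡ r [MOD N]
  · rw [if_pos hi]
    exact hy1 i hi a ha
  · rw [if_neg hi]
    exact hy2 i hi a ha

/-- primitive classes are the twisted classes for `q = -1` -/
theorem primitive_iff (h : D.IsWeil) (hP : G.IsPolarized) {X : V} (M : G.Bund X)
    (z : D.H (X ⊗ X)) : G.PrimitiveClass M z ↔ G.Twisted M (-1) z := by
  constructor
  · rintro ⟨hz, h1⟩
    exact ⟨hz, ((Bl.TWI h hP X M z).1 (-1)).mpr (((Bl.TWI h hP X M z).2.2 hz).mp h1)⟩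
  · rintro ⟨hz, h1⟩
    exact ⟨hz, ((Bl.TWI h hP X M z).2.2 hz).mpr (((Bl.TWI h hP X M z).1 (-1)).mp h1)⟩

/-- the sign conjecture from a nondegenerate primitive class -/
theorem sign_of_primitive (h : D.IsWeil) (hF : D.CoefficientsIn ℂ) (hP : G.IsPolarized)
    (hS : S.IsHodge G) {X : V} (M : G.Bund X) {z : D.H (X ⊗ X)} (hz : G.PrimitiveClass M z)
    (hn : D.Nondegenerate z) : D.SignConj X := by
  have hq : IsPrimitiveRoot (-1 : ℂ) 2 := IsPrimitiveRoot.neg_one 0 (by norm_num)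
  obtain ⟨y, hy, hy1⟩ := mod_of_twist Bl h hF hP hS M two_ne_zero hq
    ((primitive_iff Bl h hP M z).mp hz) hn 0
  refine ⟨y, hy, ?_, ?_⟩
  · intro i a ha
    rw [hy1 _ a ha, if_pos]
    exact (Nat.modEq_zero_iff_dvd).mpr ⟨i, rfl⟩
  · intro i a ha
    rw [hy1 _ a ha, if_neg]
    intro h1
    have h2 := (Nat.modEq_zero_iff_dvd).mp h1
    omega

/-- classes of operators which are scalars on the `H^i(X)` -/
theorem exists_scalar (h : D.IsWeil) (hF : D.CoefficientsIn ℂ) {X : V} (hC : D.ConjC X)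
    {c : ℕ → ℂ} (hc : ∀ i, c i ≠ 0) : ∃ z ∈ D.alg (X ⊗ X) (D.dim X), D.Nondegenerate z ∧
      ∀ i : ℕ, ∀ a ∈ D.deg X i, D.act z a = c i • a := by
  obtain ⟨z, hz, hz1⟩ := Bl.DIA h hF X hC c
  obtain ⟨y, hy, hy1⟩ := Bl.DIA h hF X hC fun i => (c i)⁻¹
  refine ⟨z, hz, ?_, hz1⟩
  have key : ∀ a : D.H X, opn h y (opn h z a) = a := by
    refine hom_ind h ?_ ?_ ?_
    · rw [map_zero, map_zero]
    · intro i a ha
      rw [opn_apply h z, hz1 i a ha, map_smul, opn_apply, hy1 i a ha, smul_smul,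
        mul_inv_cancel₀ (hc i), one_smul]
    · intro a e h1 h2
      rw [map_add, map_add, h1, h2]
  intro a ha
  rw [← key a, opn_apply h z, ha, map_zero]

/-- twisted classes from `C(X)` -/
theorem exists_twist (h : D.IsWeil) (hF : D.CoefficientsIn ℂ) (hP : G.IsPolarized) {X : V}
    (M : G.Bund X) (hC : D.ConjC X) {q : ℂ} (hq : q ≠ 0) :
    ∃ z, G.Twisted M q z ∧ D.Nondegenerate z := by
  obtain ⟨ζ, hζ⟩ := IsAlgClosed.exists_pow_nat_eq q two_pos
  have hζ0 : ζ ≠ 0 := by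
    rintro rfl
    rw [zero_pow two_ne_zero] at hζ
    exact hq hζ.symm
  obtain ⟨z, hz, hn, hz1⟩ := exists_scalar Bl h hF hC (c := fun i => ζ ^ i)
    fun i => pow_ne_zero i hζ0
  refine ⟨z, ⟨hz, ((Bl.TWI h hP X M z).1 q).mpr ?_⟩, hn⟩
  intro a
  rw [← opn_apply h, ← opn_apply h]
  refine hom_ind h (P := fun a => opn h z (G.c M * a) = q • (G.c M * opn h z a)) ?_ ?_ ?_ a
  · rw [mul_zero, map_zero, mul_zero, smul_zero]
  · intro i a ha
    have h1 : G.c M * a ∈ D.deg X (2 * 1 + i) :=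
      SetLike.mul_mem_graded (h.cycle.deg X 1 _ (hP.chern_mem X M)) ha
    rw [opn_apply, opn_apply, hz1 _ _ h1, hz1 i a ha, mul_smul_comm, smul_smul, pow_add,
      show 2 * 1 = 2 from rfl, hζ]
  · intro a e h1 h2
    rw [mul_add, map_add, map_add, mul_add, smul_add, h1, h2]

/-- divisibility from `C(X)` -/
theorem exists_div (h : D.IsWeil) (hF : D.CoefficientsIn ℂ) (hP : G.IsPolarized) {X : V}
    (M : G.Bund X) (hC : D.ConjC X) : G.Divisible M := by
  obtain ⟨z, hz, hz1⟩ := Bl.DIA h hF X hC fun i => (i : ℂ) / 2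
  refine ⟨z, hz, (Bl.TWI h hP X M z).2.1.mpr ?_⟩
  intro a
  rw [← opn_apply h, ← opn_apply h]
  refine hom_ind h (P := fun a => opn h z (G.c M * a) = G.c M * opn h z a + G.c M * a)
    ?_ ?_ ?_ a
  · rw [mul_zero, map_zero, mul_zero, add_zero]
  · intro i a ha
    have h1 : G.c M * a ∈ D.deg X (2 * 1 + i) :=
      SetLike.mul_mem_graded (h.cycle.deg X 1 _ (hP.chern_mem X M)) ha
    rw [opn_apply, opn_apply, hz1 _ _ h1, hz1 i a ha, mul_smul_comm]
    have h2 : (((2 * 1 + i : ℕ) : ℂ) / 2) = (i : ℂ) / 2 + 1 := by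
      push_cast
      ring
    rw [h2, add_smul, one_smul]
  · intro a e h1 h2
    rw [mul_add, map_add, map_add, mul_add, h1, h2]
    abel

/-- **One variety.** -/
theorem one_tfae (h : D.IsWeil) (hF : D.CoefficientsIn ℂ) (hP : G.IsPolarized)
    (hS : S.IsHodge G) (X : V) (M : G.Bund X) :
    [D.ConjC X, G.Divisible M,
      ∃ q : ℂ, q ≠ 0 ∧ (∀ m > 0, q ^ m ≠ 1) ∧ ∃ z, G.Twisted M q z ∧ D.Nondegenerate z,
      ∀ q : ℂ, q ≠ 0 → ∃ z, G.Twisted M q z ∧ D.Nondegenerate z].TFAE := by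
  tfae_have 1 → 2 := exists_div Bl h hF hP M
  tfae_have 2 → 1 := conjC_of_div Bl h hF hP hS M
  tfae_have 1 → 4 := fun hC q hq => exists_twist Bl h hF hP M hC hq
  tfae_have 4 → 3 := by
    intro h1
    refine ⟨2, two_ne_zero, ?_, h1 2 two_ne_zero⟩
    intro m hm h2
    have h3 : (2 : ℕ) ^ m = 1 := by exact_mod_cast h2
    have h4 := Nat.one_lt_two_pow (n := m) (by omega)
    omega
  tfae_have 3 → 1 := by
    rintro ⟨q, hq0, hq, z, hz, hn⟩
    exact conjC_of_twist Bl h hF hP hS M hq0 hq hz hn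
  tfae_finish

/-- **`B(X)` and primitive classes.** -/
theorem local_iff (h : D.IsWeil) (hF : D.CoefficientsIn ℂ) (hP : G.IsPolarized)
    (hS : S.IsHodge G) (X : V) (M : G.Bund X)
    (Z : V) (j : Z ⟶ (G.P1 ⊗ (G.P1 ⊗ X)) ⊗ (G.P1 ⊗ (G.P1 ⊗ X)))
    (hZ : G.VeryGeneral (G.ambient M) j) (N : G.Bund Z) :
    G.ConjB M ↔ ∃ z, G.PrimitiveClass N z ∧ D.Nondegenerate z := by
  constructor
  · intro hB
    obtain ⟨z, hz, hn⟩ := exists_twist Bl h hF hP N (Polarization.conjC_of_conjB h hP M hB hZ)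
      (q := -1) (neg_ne_zero.mpr one_ne_zero)
    exact ⟨z, (primitive_iff Bl h hP N z).mpr hz, hn⟩
  · rintro ⟨z, hz, hn⟩
    exact Polarization.conjB_of_sign h hP M hZ (sign_of_primitive Bl h hF hP hS N hz hn)

/-- a primitive class which is injective on the middle cohomology separates it from the
previous degree -/
theorem separated_of_primitive (h : D.IsWeil) (hF : D.CoefficientsIn ℂ) (hP : G.IsPolarized)
    (hS : S.IsHodge G) {X : V} (M : G.Bund X) {z : D.H (X ⊗ X)} (hz : G.PrimitiveClass M z)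
    (hn : ∀ a ∈ D.deg X (D.dim X), D.act z a = 0 → a = 0) {i : ℕ} (hi : i + 1 = D.dim X) :
    D.Separated X i (D.dim X) := by
  obtain ⟨O, hO⟩ := Bl.POL h hF X
  have hz' := (primitive_iff Bl h hP M z).mp hz
  obtain ⟨u, hu, h1⟩ := exists_ray Bl h hP hS M (q := -1) (by simp) hz' hO
  have hdeg : ∀ i, ∀ a ∈ D.deg X i, u a ∈ D.deg X i := by
    obtain ⟨y, hy, hya⟩ := (hO u).mp hu
    intro i a ha
    rw [← hya a, ← opn_apply h]
    exact opn_deg h hy ha
  obtain ⟨P, hP1, hP2⟩ := Bl.SEP _ u (D.deg X i) (D.deg X (D.dim X)) (hdeg i) (hdeg _) (by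
    intro a ha b hb μ hua hub
    by_contra hcon
    push Not at hcon
    obtain ⟨t, ht0, ht1, -⟩ := h1 i a μ ha hcon.1 hua
    obtain ⟨t', ht0', ht1', ht2'⟩ := h1 _ b μ hb hcon.2 hub
    have hpos : t' ≠ 0 := by
      intro h3
      obtain ⟨-, h4⟩ := ht2' h3
      obtain ⟨c, hc, hc0, hc1⟩ := h4 rfl
      exact hc0 (hn c hc hc1)
    have h5 : (t : ℂ) * (-1) ^ i = t' * (-1) ^ D.dim X := by rw [← ht1, ← ht1']
    rw [← hi, pow_succ, ← mul_assoc, mul_comm ((t' : ℂ) * (-1) ^ i) (-1), ← mul_assoc] at h5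
    have h6 : (t : ℂ) = -1 * t' := mul_right_cancel₀ (pow_ne_zero i (by norm_num)) h5
    have h7 : t = -1 * t' := by exact_mod_cast h6
    have h8 : 0 < t' := lt_of_le_of_ne ht0' (Ne.symm hpos)
    linarith)
  obtain ⟨y, hy, hya⟩ := (hO _).mp (aeval_mem hu P)
  exact ⟨y, hy, fun a ha => (hya a).trans (hP1 a ha), fun a ha => (hya a).trans (hP2 a ha)⟩

/-- **All varieties.** -/
theorem all_tfae (h : D.IsWeil) (hF : D.CoefficientsIn ℂ) (hc : D.Connected)
    (hP : G.IsPolarized) (hS : S.IsHodge G) (hH : G.HasHypersurfaces) (hG : G.HasSections) :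
    [∀ (X : V) (M : G.Bund X), G.ConjB M,
      ∀ (X : V) (M : G.Bund X), ∃ z, G.PrimitiveClass M z ∧ D.Nondegenerate z,
      ∀ X : V, ∃ (M : G.Bund X) (z : D.H (X ⊗ X)), G.PrimitiveClass M z ∧
        ∀ a ∈ D.deg X (D.dim X), D.act z a = 0 → a = 0,
      ∀ (X : V) (M : G.Bund X), G.TwiceDivisible M,
      ∀ (X : V) (M : G.Bund X), G.Divisible M,
      ∀ X : V, ∃ M : G.Bund X, G.Divisible M].TFAE := by
  have hall := Polarization.tfae_all h hF hc hP hH hG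
  have h12 : (∀ (X : V) (M : G.Bund X), G.ConjB M) ↔ ∀ X : V, D.ConjC X := hall.out 0 1
  have h15 : (∀ (X : V) (M : G.Bund X), G.ConjB M) ↔ ∀ n₀ : ℕ, ∃ n ≥ n₀, ∀ Y : V,
      D.dim Y + 1 = 2 * n → D.Separated Y (2 * n - 2) (2 * n - 1) := hall.out 0 4
  tfae_have 1 → 2 := by
    intro hB X M
    obtain ⟨z, hz, hn⟩ := exists_twist Bl h hF hP M (h12.mp hB X)
      (q := -1) (neg_ne_zero.mpr one_ne_zero)
    exact ⟨z, (primitive_iff Bl h hP M z).mpr hz, hn⟩
  tfae_have 2 → 3 := by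
    intro h1 X
    obtain ⟨M⟩ := hP.exists_bundle X
    obtain ⟨z, hz, hn⟩ := h1 X M
    exact ⟨M, z, hz, fun a _ => hn a⟩
  tfae_have 3 → 1 := by
    intro h1
    rw [h15]
    intro n₀
    refine ⟨n₀ + 1, by omega, fun Y hY => ?_⟩
    obtain ⟨M, z, hz, hn⟩ := h1 Y
    have h2 : 2 * (n₀ + 1) - 1 = D.dim Y := by omega
    rw [h2]
    exact separated_of_primitive Bl h hF hP hS M hz hn (by omega)
  tfae_have 1 ↔ 4 := forall_congr' fun X => forall_congr' fun M => conjB_iff_two h hP M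
  tfae_have 1 → 5 := fun hB X M => exists_div Bl h hF hP M (h12.mp hB X)
  tfae_have 5 → 6 := by
    intro h1 X
    obtain ⟨M⟩ := hP.exists_bundle X
    exact ⟨M, h1 X M⟩
  tfae_have 6 → 1 := by
    intro h1
    rw [h12]
    intro X
    obtain ⟨M, hM⟩ := h1 X
    exact conjC_of_div Bl h hF hP hS M hM
  tfae_finish

/-- **Dimension at most `n`.** -/
theorem dim_tfae (h : D.IsWeil) (hF : D.CoefficientsIn ℂ) (hc : D.Connected)
    (hP : G.IsPolarized) (hS : S.IsHodge G) (hH : G.HasHypersurfaces) (hG : G.HasSections)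
    {n : ℕ} (hn : 1 ≤ n) :
    [∀ (X : V) (M : G.Bund X), D.dim X ≤ n → G.ConjB M,
      G.ForSections n fun Y => ∀ N : G.Bund Y, ∃ z, G.PrimitiveClass N z ∧ D.Nondegenerate z,
      G.ForSections n fun Y => ∃ (N : G.Bund Y) (z : D.H (Y ⊗ Y)), G.PrimitiveClass N z ∧
        ∀ a ∈ D.deg Y (D.dim Y), D.act z a = 0 → a = 0,
      G.ForSections n fun Y => ∃ N : G.Bund Y, G.Divisible N].TFAE := by
  have hall := Polarization.tfae_dim h hF hc hP hH hG hn
  have h12 : (∀ (X : V) (M : G.Bund X), D.dim X ≤ n → G.ConjB M) ↔ G.ForSections n D.ConjC :=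
    hall.out 0 1
  have h14 : (∀ (X : V) (M : G.Bund X), D.dim X ≤ n → G.ConjB M) ↔
      G.ForSections n fun Y => D.Separated Y (2 * n - 2) (2 * n - 1) := hall.out 0 3
  tfae_have 1 → 2 := by
    intro hB A B N M Y i hA hB' hY L
    obtain ⟨z, hz, hn⟩ := exists_twist Bl h hF hP L (h12.mp hB A B N M Y i hA hB' hY)
      (q := -1) (neg_ne_zero.mpr one_ne_zero)
    exact ⟨z, (primitive_iff Bl h hP L z).mpr hz, hn⟩
  tfae_have 2 → 3 := by
    intro h1 A B N M Y i hA hB hY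
    obtain ⟨L⟩ := hP.exists_bundle Y
    obtain ⟨z, hz, hn⟩ := h1 A B N M Y i hA hB hY L
    exact ⟨L, z, hz, fun a _ => hn a⟩
  tfae_have 3 → 1 := by
    intro h1
    rw [h14]
    intro A B N M Y i hA hB hY
    obtain ⟨L, z, hz, hn⟩ := h1 A B N M Y i hA hB hY
    have h2 := Polarization.dim_section h hA hB hY
    have h3 : 2 * n - 1 = D.dim Y := by omega
    rw [h3]
    exact separated_of_primitive Bl h hF hP hS L hz hn (by omega)
  tfae_have 1 → 4 := by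
    intro hB A B N M Y i hA hB' hY
    obtain ⟨L⟩ := hP.exists_bundle Y
    exact ⟨L, exists_div Bl h hF hP L (h12.mp hB A B N M Y i hA hB' hY)⟩
  tfae_have 4 → 1 := by
    intro h1
    rw [h12]
    intro A B N M Y i hA hB hY
    obtain ⟨L, hL⟩ := h1 A B N M Y i hA hB hY
    exact conjC_of_div Bl h hF hP hS L hL
  tfae_finish

end one

end Pool.Prm
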