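import Pool.Agent.Work.MP_a60482_prim.Api
import Pool.Agent.Work.MP_a60482_prim.Core
import Pool.Agent.Work.StdConj01.Final

/-!
# MP_a60482_ag, primitive classes: statements of the blocks (table `prm_blocks`)

`Core.lean`: `LHS n W` (pure linear algebra, only Mathlib).  `Api.lean`: the axioms.
Internal theory: `T := WeilCoh.toWeil h`, `R := WeilCoh.toCyc h`, `WeilCoh.act_eq h z a :
(toWeil h).act z a = D.act z a`, all in `Work/StdConj/Conv.lean`; `T.tr X`, `T.act`, `T.pull`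
are definitionally `D.int`, .., `D.pb`.
-/

open CategoryTheory MonoidalCategory CartesianMonoidalCategory Polynomial

universe u v w x b

namespace Pool.Prm

/-! ### Linear algebra -/

/-- EXT.  From an eigenvector of `u` to a primitive eigenvector of pure type.
PROOF. Let `s` be maximal with `L^s v ≠ 0`, `x = L^s v`, of degree `i + 2 s`, `L x = 0`; by
`hard_inj` `i + 2 s ≥ n`, put `k = i + 2 s - n`; `x = L^k y`, `y` of degree `n - k`,
`L^(k+1) y = 0`; compute `u x` in two ways and use `hard_inj`: `u y = μ' y`.  `s ≤ k`: otherwise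
`y = L^(s-k) v` and `L^(2s-k) v = 0` contradicts `hard_inj`.  The components of `y` of type
`(p, q)` have the same properties. -/
def Stmt_EXT : Prop :=
  ∀ (n : ℕ) (W : Type w) [AddCommGroup W] [Module ℂ W] (S : LHS n W) (u : Module.End ℂ W)
    (κ β : ℕ → ℂ), S.Pres u → (∀ k, κ k ≠ 0) →
    (∀ k a, u ((S.L ^ k) a) = κ k • (S.L ^ k) (u a) + β k • (S.L ^ k) a) →
    ∀ (i : ℕ) (v : W) (μ : ℂ), v ∈ S.deg i → v ≠ 0 → u v = μ • v →
    ∃ (s k p q : ℕ) (y : W) (μ' : ℂ), i + 2 * s = n + k ∧ s ≤ k ∧ p + q + k = n ∧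
      y ∈ S.typ p q ∧ y ≠ 0 ∧ (S.L ^ (k + 1)) y = 0 ∧ u y = μ' • y ∧
      κ k * μ' + β k = κ s * μ + β s

/-- RAY (deps EXT).  PROOF. `u = g f` has `u L = q² L u`; EXT with `κ k = q^(2k)`, `β = 0`:
`q^(2k) μ' = q^(2s) μ`.  `f L^k = q^k L^k f`, so `B(L^k f y, f y) = q^(-k) B(L^k y, u y) =
q^(-k) conj(μ') B(L^k y, y)`; `f y` is of type `(p, q)`, killed by `L^(k+1)`.  By `riemann`
`conj μ' = q^k t`, `t ≥ 0`, `t = 0` iff `f y = 0`; so `μ q^n = t q^i`.  If `t = 0`: `f y = 0`,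
and if `i = n`, then `k = 2 s` and `f (L^s y) = 0`, `L^s y ≠ 0`. -/
def Stmt_RAY : Prop :=
  ∀ (n : ℕ) (W : Type w) [AddCommGroup W] [Module ℂ W] (S : LHS n W) (f g : Module.End ℂ W)
    (q : ℂ), S.Adj f g → ‖q‖ = 1 → (∀ a, f (S.L a) = q • S.L (f a)) →
    (∀ a, g (S.L a) = q • S.L (g a)) →
    ∀ (i : ℕ) (v : W) (μ : ℂ), v ∈ S.deg i → v ≠ 0 → (g * f) v = μ • v →
    ∃ t : ℝ, 0 ≤ t ∧ μ * q ^ n = t * q ^ i ∧
      (t = 0 → (∃ a, a ≠ 0 ∧ f a = 0) ∧ (i = n → ∃ a ∈ S.deg n, a ≠ 0 ∧ f a = 0))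

/-- DER (deps EXT).  PROOF. `u = f - g` has `u L = L u + 2 L`; EXT with `κ = 1`, `β k = 2 k`:
`μ' + 2 k = μ + 2 s`.  `B(u L^k y, y) = - B(L^k y, u y)` gives `μ' + 2 k = - conj μ'`. -/
def Stmt_DER : Prop :=
  ∀ (n : ℕ) (W : Type w) [AddCommGroup W] [Module ℂ W] (S : LHS n W) (f g : Module.End ℂ W),
    S.Adj f g → (∀ a, f (S.L a) = S.L (f a) + S.L a) →
    (∀ a, g (S.L a) = S.L (g a) - S.L a) →
    ∀ (i : ℕ) (v : W) (μ : ℂ), v ∈ S.deg i → v ≠ 0 → (f - g) v = μ • v →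
    μ.re = (i : ℝ) - n

/-- PSD (deps EXT).  `u = g f` is diagonalizable with positive eigenvalues.
PROOF. `u` commutes with `L`, and `B(u a, b) = B(a, u b)`.  (1) eigenvalues: EXT with `κ = 1`,
`β = 0`: `μ' = μ`, and `B(L^k f y, f y) = q^(-k) B(f L^k y, f y) = q^(-k) conj(μ) B(L^k y, y)`,
so `μ > 0` by `riemann` (`f y ≠ 0`, of type `(p, q)`, killed by `L^(k+1)`).  (2) Let
`P = {y ∈ typ p q : L^(k+1) y = 0}`, `p + q + k = n`, stable under `u`.  If `(u - μ)² y = 0`,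
`y ∈ P`, put `x = (u - μ) y`; if `x ≠ 0`, `x` is an eigenvector, `μ` is real, and
`B(L^k x, x) = B(L^k (u - μ) x, y) = 0`, contradicting `riemann`.  So on `P` the generalized
eigenspaces are eigenspaces (`Module.End.iSup_maxGenEigenspace_eq_top` for the restriction of
`u` to `P`) and `P` is contained in the span of the eigenvectors; hence so is `L^j P`; and these
span `W`: by `hard_surj`, `hard_inj` every element of `deg i` is a sum of `L^j y`, `y` in
`deg (i - 2 j)`, `L^(n-i+2j+1) y = 0`, (compare `Pl.prim_ind` in `Work/StdConj/Prim.lean`), and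
the components of `y` of type `(p, q)` are in the `P`s. -/
def Stmt_PSD : Prop :=
  ∀ (n : ℕ) (W : Type w) [AddCommGroup W] [Module ℂ W] [FiniteDimensional ℂ W] (S : LHS n W)
    (f g : Module.End ℂ W) (q : ℝ), S.Adj f g → 0 < q →
    (∀ a, f (S.L a) = (q : ℂ) • S.L (f a)) → (∀ a, g (S.L a) = (q⁻¹ : ℂ) • S.L (g a)) →
    (∀ a, f a = 0 → a = 0) →
    (∀ (v : W) (μ : ℂ), v ≠ 0 → (g * f) v = μ • v → ∃ t : ℝ, 0 < t ∧ μ = t) ∧
    ⨆ μ : ℂ, Module.End.eigenspace (g * f) μ = ⊤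

/-- SQR (deps EXT, PSD).  PROOF. Let `E` be the finite set of eigenvalues of `u = g f`, `P` the
Lagrange interpolation polynomial with `P(μ) = μ^(-1/2)` for `μ ∈ E` (all `μ` and values real,
so `conj P(μ) = P(μ)`), `A = P(u)`.  `u A² = 1` and `B(A a, b) = B(a, A b)` (check on
eigenvectors; eigenvectors for different eigenvalues are `B`-orthogonal, as `B(u a, b) =
B(a, u b)`, or: write `P` with real coefficients).  `ψ = f A` satisfies `ψ L = q L ψ`,
`B(ψ a, ψ b) = B(a, A u A b) = B(a, b)`.  EXT for `ψ`, `κ k = q^k`, `β = 0`: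
`q^k μ' = q^s μ`, and `|μ'|² B(L^k y, y) = B(L^k ψ y, ψ y) = q^(-k) B(ψ L^k y, ψ y) =
q^(-k) B(L^k y, y)`. So `|μ|² = q^(2k - 2s - k) = q^(i - n)`. -/
def Stmt_SQR : Prop :=
  ∀ (n : ℕ) (W : Type w) [AddCommGroup W] [Module ℂ W] [FiniteDimensional ℂ W] (S : LHS n W)
    (f g : Module.End ℂ W) (q : ℝ), S.Adj f g → 0 < q →
    (∀ a, f (S.L a) = (q : ℂ) • S.L (f a)) → (∀ a, g (S.L a) = (q⁻¹ : ℂ) • S.L (g a)) →
    (∀ a, f a = 0 → a = 0) →
    ∃ P : ℂ[X], ∀ (i : ℕ) (v : W) (μ : ℂ), v ∈ S.deg i → v ≠ 0 →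
      (f * aeval (g * f) P) v = μ • v → ‖μ‖ ^ 2 * q ^ n = q ^ i

/-- SEP.  If `u` has no common eigenvalue on the stable subspaces `A`, `B`, then some polynomial
in `u` is the identity on `A` and zero on `B`.
PROOF. The minimal polynomials of the restrictions are coprime (a common root is a common
eigenvalue), Bezout. -/
def Stmt_SEP : Prop :=
  ∀ (W : Type w) [AddCommGroup W] [Module ℂ W] [FiniteDimensional ℂ W] (u : Module.End ℂ W)
    (A B : Submodule ℂ W), (∀ a ∈ A, u a ∈ A) → (∀ a ∈ B, u a ∈ B) →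
    (∀ a ∈ A, ∀ b ∈ B, ∀ μ : ℂ, u a = μ • a → u b = μ • b → a = 0 ∨ b = 0) →
    ∃ P : ℂ[X], (∀ a ∈ A, aeval u P a = a) ∧ ∀ b ∈ B, aeval u P b = 0

/-- SET (deps SEP).  The same for sums of graded pieces.
PROOF. `A` the sum of the `deg i`, `i ∈ S`, `B` the sum of the others; components of
eigenvectors are eigenvectors. -/
def Stmt_SET : Prop :=
  ∀ (W : Type w) [AddCommGroup W] [Module ℂ W] [FiniteDimensional ℂ W] (u : Module.End ℂ W)
    (deg : ℕ → Submodule ℂ W), DirectSum.IsInternal deg → (∀ i, ∀ a ∈ deg i, u a ∈ deg i) →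
    ∀ S : Set ℕ, (∀ i ∈ S, ∀ j ∉ S, ∀ a ∈ deg i, ∀ b ∈ deg j, ∀ μ : ℂ, u a = μ • a →
      u b = μ • b → a = 0 ∨ b = 0) →
    ∃ P : ℂ[X], (∀ i ∈ S, ∀ a ∈ deg i, aeval u P a = a) ∧
      ∀ i ∉ S, ∀ a ∈ deg i, aeval u P a = 0

/-! ### Geometry -/

open Pool.Std

variable {V : Type u} [Category.{v} V] [CartesianMonoidalCategory V]
variable {D : WeilCoh.{u, v, w, 0} V ℂ}

/-- TYP.  Algebraic self-correspondences of degree `0` preserve the types.
PROOF. `z ∈ hodge (X ⊗ X) n n`, `n = dim X`.  For `a ∈ hodge X p q` the class `pb fst a * z` is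
of type `(p + n, q + n)`; for `c ∈ hodge X p' q'`, `int (act z a * c) = int (pb fst a * z *
pb snd c)` (`T.tr_act`) is `0` unless `(p + n + p', q + n + q') = (2 n, 2 n)` (`TypeAxioms.int`
and `TraceAxioms.deg`).  Let `c'` be the component of `act z a` of type `(p', q') ≠ (p, q)`:
`int (c' * c) = 0` for all `c` of pure type, hence `c' = 0` by duality. -/
def Stmt_TYP (D : WeilCoh.{u, v, w, 0} V ℂ) (S : HodgeStr D) : Prop :=
  D.IsWeil → S.TypeAxioms → ∀ (X : V), ∀ z ∈ D.alg (X ⊗ X) (D.dim X), ∀ (p q : ℕ),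
    ∀ a ∈ S.hodge X p q, D.act z a ∈ S.hodge X p q

/-- ADJ.  The adjoint of an algebraic self-correspondence of degree `0` is algebraic.
PROOF. `z' = bar (swap^* z)`.  Transpose: `Pool.Std.tr_act_swap` in `Work/StdConj01/Split.lean`
(signs cancel since `act z` preserves degrees); `bar (act z a) = act (bar z) (bar a)`: by
`push` in `KunnethAxioms` and `span`, or by duality and the formula for `int (act z a * c)`. -/
def Stmt_ADJ (D : WeilCoh.{u, v, w, 0} V ℂ) (S : HodgeStr D) : Prop :=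
  D.IsWeil → S.ConjAxioms → ∀ (X : V), ∀ z ∈ D.alg (X ⊗ X) (D.dim X),
    ∃ z' ∈ D.alg (X ⊗ X) (D.dim X),
      (∀ a b : D.H X, D.int (D.act z a * S.bar X b) = D.int (a * S.bar X (D.act z' b))) ∧
      ∀ a b : D.H X, D.int (D.act z' a * S.bar X b) = D.int (a * S.bar X (D.act z b))

/-- BLD.  `H(X)` is a Lefschetz module with Hodge decomposition and Hodge-Riemann form. -/
def Stmt_BLD (D : WeilCoh.{u, v, w, 0} V ℂ) (G : Polarization.{u, v, w, 0, b} D)
    (S : HodgeStr D) : Prop :=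
  D.IsWeil → G.IsPolarized → S.IsHodge G → ∀ (X : V) (M : G.Bund X),
    ∃ H : LHS (D.dim X) (D.H X), H.deg = D.deg X ∧ H.typ = S.hodge X ∧
      (∀ a, H.L a = G.c M * a) ∧ ∀ a b, H.B a b = D.int (a * S.bar X b)

/-- DIA.  `C(X)` gives an algebraic class acting on `H^i(X)` as `c i`, for all `c`. -/
def Stmt_DIA (D : WeilCoh.{u, v, w, 0} V ℂ) : Prop :=
  D.IsWeil → D.CoefficientsIn ℂ → ∀ X : V, D.ConjC X → ∀ c : ℕ → ℂ,
    ∃ z ∈ D.alg (X ⊗ X) (D.dim X), ∀ i : ℕ, ∀ a ∈ D.deg X i, D.act z a = c i • a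

/-- POL.  Polynomials in, and products of, algebraic self-correspondences of degree `0`, as
operators on `H(X)`, are algebraic.  (`Cyc.ops` in `Work/StdConj/Cyc.lean`.) -/
def Stmt_POL (D : WeilCoh.{u, v, w, 0} V ℂ) : Prop :=
  D.IsWeil → D.CoefficientsIn ℂ → ∀ X : V, ∃ O : Subalgebra ℂ (Module.End ℂ (D.H X)),
    ∀ f : Module.End ℂ (D.H X), f ∈ O ↔ ∃ z ∈ D.alg (X ⊗ X) (D.dim X), ∀ a, D.act z a = f a

/-- TWI.  `ξ₁ z = q ξ₂ z` in terms of operators; divisibility in terms of operators.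
(`T.act_fst_mul`, `T.act_snd_mul` in `Work/MP_298761_vhc/Ops.lean`, `T.act_injective`,
`T.act_diag`.) -/
def Stmt_TWI (D : WeilCoh.{u, v, w, 0} V ℂ) (G : Polarization.{u, v, w, 0, b} D) : Prop :=
  D.IsWeil → G.IsPolarized → ∀ (X : V) (M : G.Bund X) (z : D.H (X ⊗ X)),
    (∀ q : ℂ, D.pb (fst X X) (G.c M) * z = q • (D.pb (snd X X) (G.c M) * z) ↔
      ∀ a, D.act z (G.c M * a) = q • (G.c M * D.act z a)) ∧
    (D.pb (fst X X) (G.c M) * D.diag X =
        (D.pb (fst X X) (G.c M) - D.pb (snd X X) (G.c M)) * z ↔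
      ∀ a, D.act z (G.c M * a) = G.c M * D.act z a + G.c M * a) ∧
    (z ∈ D.alg (X ⊗ X) (D.dim X) → (G.Primitive (G.box M M) (2 * D.dim X) z ↔
      ∀ a, D.act z (G.c M * a) = (-1 : ℂ) • (G.c M * D.act z a)))

end Pool.Prm
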