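import Pool.Agent.Work.MP_a60482_prim.Interface

/-!
# MP_a60482_ag, primitive classes: block POL
-/

open CategoryTheory MonoidalCategory CartesianMonoidalCategory Polynomial

universe u v w x b

namespace Pool.Prm

open Pool.Std Pool.KC

variable {V : Type u} [Category.{v} V] [CartesianMonoidalCategory V]

theorem POL.act_smul (D : WeilCoh.{u, v, w, 0} V ℂ) {X : V} (c : ℂ) (z : D.H (X ⊗ X))
    (a : D.H X) : D.act (c • z) a = c • D.act z a := by
  unfold WeilCoh.act WeilCoh.pf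
  rw [mul_smul_comm, map_smul]

theorem blk_POL (D : WeilCoh.{u, v, w, 0} V ℂ) : Stmt_POL D := by
  intro h hF X
  have key : ∀ f : Module.End ℂ (D.H X), f ∈ (WeilCoh.toCyc h).ops X ↔
      ∃ z ∈ D.alg (X ⊗ X) (D.dim X), ∀ a, D.act z a = f a := by
    intro f
    constructor
    · rintro ⟨z, hz, rfl⟩
      exact ⟨z, hz, fun a => (WeilCoh.act_eq h z a).symm⟩
    · rintro ⟨z, hz, h1⟩
      exact ⟨z, hz, LinearMap.ext fun a => (WeilCoh.act_eq h z a).trans (h1 a)⟩
  have hsm : ∀ (c : ℂ) (f : Module.End ℂ (D.H X)), f ∈ (WeilCoh.toCyc h).ops X →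
      c • f ∈ (WeilCoh.toCyc h).ops X := by
    intro c f hf
    obtain ⟨z, hz, h1⟩ := (key f).mp hf
    refine (key _).mpr ⟨c • z, hF.smul (X ⊗ X) (D.dim X) c z hz, fun a => ?_⟩
    rw [POL.act_smul, h1]
    rfl
  refine ⟨{ (WeilCoh.toCyc h).ops X with
    algebraMap_mem' := fun c => ?_ }, fun f => key f⟩
  have h1 := hsm c 1 (one_mem _)
  rw [← Algebra.algebraMap_eq_smul_one] at h1
  exact h1

end Pool.Prm
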