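import Pool.Agent.Work.MP_a60482_prim.EXT

/-!
# MP_a60482_ag, block PSD

`u = g f` is diagonalizable with positive eigenvalues.
-/

universe w

namespace Pool.Prm.PSDb

variable {n : ℕ} {W : Type w} [AddCommGroup W] [Module ℂ W]

theorem pow_comm (f L : Module.End ℂ W) (q : ℂ) (h : ∀ a, f (L a) = q • L (f a)) (k : ℕ) (a : W) :
    f ((L ^ k) a) = q ^ k • (L ^ k) (f a) := by
  induction k with
  | zero => simp
  | succ k ih =>
    rw [pow_succ' L, Module.End.mul_apply, h, ih, map_smul, smul_smul, Module.End.mul_apply,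
      ← pow_succ']

theorem B_zero_left (S : LHS n W) (b : W) : S.B 0 b = 0 := by
  have := S.B_smul_left 0 0 b
  simpa using this

theorem B_sub_right (S : LHS n W) (a b c : W) : S.B a (b - c) = S.B a b - S.B a c := by
  have h : S.B a (b - c + c) = S.B a (b - c) + S.B a c := S.B_add_right _ _ _
  rw [sub_add_cancel] at h
  rw [h, add_sub_cancel_right]

/-- an element of `deg j` is the sum of its components of type `(p, q)`, `p + q = j` -/
theorem mem_of_typ {deg : ℕ → Submodule ℂ W} {typ : ℕ → ℕ → Submodule ℂ W}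
    [DirectSum.Decomposition deg] [DirectSum.Decomposition fun pq : ℕ × ℕ => typ pq.1 pq.2]
    (hle : ∀ p q, typ p q ≤ deg (p + q)) {j : ℕ} {y : W} (hy : y ∈ deg j) (E : Submodule ℂ W)
    (hE : ∀ p q, p + q = j →
      (DirectSum.decompose (fun pq : ℕ × ℕ => typ pq.1 pq.2) y (p, q) : W) ∈ E) : y ∈ E := by
  classical
  rw [← DirectSum.decompose_of_mem_same deg hy]
  have h1 : ∀ z : W, (∀ p q, p + q = j →
      (DirectSum.decompose (fun pq : ℕ × ℕ => typ pq.1 pq.2) z (p, q) : W) ∈ E) →
      (DirectSum.decompose deg z j : W) ∈ E := by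
    intro z hz
    rw [← DirectSum.sum_support_decompose (fun pq : ℕ × ℕ => typ pq.1 pq.2) z,
      DirectSum.decompose_sum]
    have e : ((∑ i ∈ DFinsupp.support (DirectSum.decompose (fun pq : ℕ × ℕ => typ pq.1 pq.2) z),
        DirectSum.decompose deg
          ((DirectSum.decompose (fun pq : ℕ × ℕ => typ pq.1 pq.2) z i : W))) j : W) =
        ∑ i ∈ DFinsupp.support (DirectSum.decompose (fun pq : ℕ × ℕ => typ pq.1 pq.2) z),
        (DirectSum.decompose deg
          ((DirectSum.decompose (fun pq : ℕ × ℕ => typ pq.1 pq.2) z i : W)) j : W) := by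
      rw [DFinsupp.finsetSum_apply, AddSubmonoidClass.coe_finsetSum]
    rw [e]
    refine Submodule.sum_mem _ fun pq _ => ?_
    obtain ⟨p, q⟩ := pq
    have hm : (DirectSum.decompose (fun pq : ℕ × ℕ => typ pq.1 pq.2) z (p, q) : W) ∈ deg (p + q) :=
      hle p q (Submodule.coe_mem _)
    by_cases hpq : p + q = j
    · have hm' := hm
      rw [hpq] at hm'
      rw [DirectSum.decompose_of_mem_same deg hm']
      exact hz p q hpq
    · rw [DirectSum.decompose_of_mem_ne deg hm hpq]
      exact Submodule.zero_mem _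
  exact h1 y hE

/-- an endomorphism of a finite dimensional space all whose `N = u - μ` have
`ker N² = ker N` is diagonalizable -/
theorem diag_of_sq {V : Type w} [AddCommGroup V] [Module ℂ V] [FiniteDimensional ℂ V]
    (u : Module.End ℂ V)
    (h : ∀ (μ : ℂ) (y : V), u (u y - μ • y) = μ • (u y - μ • y) → u y = μ • y) :
    ⨆ μ : ℂ, Module.End.eigenspace u μ = ⊤ := by
  rw [eq_top_iff, ← Module.End.iSup_maxGenEigenspace_eq_top u]
  refine iSup_mono fun μ => ?_
  intro y hy
  obtain ⟨m, hm⟩ := (Module.End.mem_maxGenEigenspace u μ y).1 hy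
  rw [Module.End.mem_eigenspace_iff]
  set N : Module.End ℂ V := u - μ • (1 : Module.End ℂ V) with hN
  have hNa : ∀ x, N x = u x - μ • x := by
    intro x
    rw [hN, LinearMap.sub_apply, LinearMap.smul_apply, Module.End.one_apply]
  have h2 : ∀ x, N (N x) = 0 → N x = 0 := by
    intro x hx
    rw [hNa (N x), hNa x, sub_eq_zero] at hx
    rw [hNa, sub_eq_zero]
    exact h μ x hx
  have h3 : ∀ m : ℕ, (N ^ m) y = 0 → N y = 0 := by
    intro m
    induction m with
    | zero =>
      intro h0
      rw [pow_zero, Module.End.one_apply] at h0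
      rw [h0, map_zero]
    | succ m ih =>
      intro h0
      rcases m with _ | m
      · simpa using h0
      · apply ih
        rw [pow_succ', Module.End.mul_apply]
        apply h2
        rw [← Module.End.mul_apply, ← Module.End.mul_apply, ← pow_two, ← pow_add, add_comm 2 m]
        exact h0
  have h4 := h3 m hm
  rw [hNa, sub_eq_zero] at h4
  exact h4

end Pool.Prm.PSDb

namespace Pool.Prm

open PSDb EXTb

theorem blk_PSD (EXT : Stmt_EXT.{w}) : Stmt_PSD.{w} := by
  classical
  intro n W _ _ _ S f g q hA hq hf hg hinj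
  have hq0 : (q : ℂ) ≠ 0 := by exact_mod_cast hq.ne'
  obtain ⟨u, hu⟩ : ∃ u : Module.End ℂ W, u = g * f := ⟨_, rfl⟩
  rw [← hu]
  have hua : ∀ a, u a = g (f a) := by
    intro a
    rw [hu, Module.End.mul_apply]
  have huPres : S.Pres u := by
    constructor
    · intro j a ha
      rw [hua]
      exact hA.right.deg j _ (hA.left.deg j a ha)
    · intro p r a ha
      rw [hua]
      exact hA.right.typ p r _ (hA.left.typ p r a ha)
  have huL : ∀ a, u (S.L a) = S.L (u a) := by
    intro a
    rw [hua, hf, map_smul, hg, smul_smul, mul_inv_cancel₀ hq0, one_smul, hua]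
  have huLk : ∀ k a, u ((S.L ^ k) a) = (S.L ^ k) (u a) := by
    intro k a
    have := pow_comm u S.L 1 (fun a => by rw [huL, one_smul]) k a
    rwa [one_pow, one_smul] at this
  have hsym : ∀ a b, S.B (u a) b = S.B a (u b) := by
    intro a b
    rw [hua, hua, hA.gf, hA.fg]
  have hfLk : ∀ k a, f ((S.L ^ k) a) = (q : ℂ) ^ k • (S.L ^ k) (f a) :=
    fun k a => pow_comm f S.L q hf k a
  -- (1)
  have part1 : ∀ (v : W) (μ : ℂ), v ≠ 0 → u v = μ • v → ∃ t : ℝ, 0 < t ∧ μ = t := by
    have key : ∀ (i : ℕ) (v : W) (μ : ℂ), v ∈ S.deg i → v ≠ 0 → u v = μ • v →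
        ∃ t : ℝ, 0 < t ∧ μ = t := by
      intro i v μ hv hv0 huv
      obtain ⟨s, k, p, r, y, μ', -, -, h3, hy, hy0, hyk, huy, hμ⟩ :=
        EXT n W S u (fun _ => 1) (fun _ => 0) huPres (fun _ => one_ne_zero)
          (fun k a => by rw [huLk, one_smul, zero_smul, add_zero]) i v μ hv hv0 huv
      simp only [add_zero, one_mul] at hμ
      subst hμ
      obtain ⟨ε, hε⟩ := S.riemann p r k h3
      obtain ⟨t1, ht1, e1⟩ := hε y hy hy0 hyk
      have hfk : (S.L ^ (k + 1)) (f y) = 0 := by
        have h := hfLk (k + 1) y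
        rw [hyk, map_zero] at h
        rcases smul_eq_zero.1 h.symm with h' | h'
        · exact absurd h' (pow_ne_zero _ hq0)
        · exact h'
      obtain ⟨t2, ht2, e2⟩ := hε (f y) (hA.left.typ p r y hy) (fun h => hy0 (hinj y h)) hfk
      have e3 : (q : ℂ) ^ k * S.B ((S.L ^ k) (f y)) (f y) =
          starRingEnd ℂ μ' * S.B ((S.L ^ k) y) y := by
        rw [← S.B_smul_left, ← hfLk, hA.fg, ← hua, huy, S.B_smul_right]
      have e4 : (q : ℂ) ^ k * (t2 : ℂ) = starRingEnd ℂ μ' * t1 := by
        rw [← e1, ← e2]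
        linear_combination ε * e3
      have ht1' : (t1 : ℂ) ≠ 0 := by exact_mod_cast ht1.ne'
      have e5 : starRingEnd ℂ μ' = ((q ^ k * t2 / t1 : ℝ) : ℂ) := by
        push_cast
        rw [e4, mul_div_cancel_right₀ _ ht1']
      refine ⟨q ^ k * t2 / t1, by positivity, ?_⟩
      have e6 := congrArg (starRingEnd ℂ) e5
      rwa [Complex.conj_conj, Complex.conj_ofReal] at e6
    intro v μ hv huv
    let _ := S.int_deg.chooseDecomposition
    have hex : ∃ i, (DirectSum.decompose S.deg v i : W) ≠ 0 := by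
      by_contra hcon
      push Not at hcon
      apply hv
      rw [← DirectSum.sum_support_decompose S.deg v]
      exact Finset.sum_eq_zero fun i _ => hcon i
    obtain ⟨i, hi⟩ := hex
    refine key i _ μ (Submodule.coe_mem _) hi ?_
    have h3 := comp_map S.deg u id Function.injective_id
      (fun i a ha => huPres.deg i a ha) v i
    rw [← h3, huv, DirectSum.decompose_smul]
    rfl
  refine ⟨part1, ?_⟩
  -- (2)
  obtain ⟨E, hE⟩ : ∃ E : Submodule ℂ W, E = ⨆ μ : ℂ, Module.End.eigenspace u μ := ⟨_, rfl⟩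
  rw [← hE]
  have hEL : ∀ a ∈ E, S.L a ∈ E := by
    intro a ha
    rw [hE] at ha
    refine Submodule.iSup_induction (fun μ : ℂ => Module.End.eigenspace u μ)
      (motive := fun a => S.L a ∈ E) ha ?_ ?_ ?_
    · intro μ x hx
      rw [Module.End.mem_eigenspace_iff] at hx
      rw [hE]
      refine Submodule.mem_iSup_of_mem μ ?_
      rw [Module.End.mem_eigenspace_iff, huL, hx, map_smul]
    · rw [map_zero]
      exact E.zero_mem
    · intro x y hx hy
      rw [map_add]
      exact E.add_mem hx hy
  have hELk : ∀ k, ∀ a ∈ E, (S.L ^ k) a ∈ E := by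
    intro k
    induction k with
    | zero =>
      intro a ha
      simpa using ha
    | succ k ih =>
      intro a ha
      rw [pow_succ', Module.End.mul_apply]
      exact hEL _ (ih a ha)
  -- primitive elements of pure type
  have hprim : ∀ p r k, p + r + k = n → ∀ y ∈ S.typ p r, (S.L ^ (k + 1)) y = 0 → y ∈ E := by
    intro p r k hk
    obtain ⟨ε, hε⟩ := S.riemann p r k hk
    obtain ⟨P, hP⟩ : ∃ P : Submodule ℂ W, P = S.typ p r ⊓ LinearMap.ker (S.L ^ (k + 1)) :=
      ⟨_, rfl⟩
    have hmem : ∀ y, y ∈ P ↔ y ∈ S.typ p r ∧ (S.L ^ (k + 1)) y = 0 := by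
      intro y
      rw [hP, Submodule.mem_inf, LinearMap.mem_ker]
    have hst : ∀ y ∈ P, u y ∈ P := by
      intro y hy
      rw [hmem] at hy ⊢
      refine ⟨huPres.typ p r y hy.1, ?_⟩
      rw [← huLk, hy.2, map_zero]
    have htop : ⨆ μ : ℂ, Module.End.eigenspace (u.restrict hst) μ = ⊤ := by
      apply diag_of_sq
      intro μ y hy
      have hy' := congrArg (Subtype.val) hy
      have hyP := (hmem _).1 y.2
      have e0 : u (u y - μ • (y : W)) = μ • (u (y : W) - μ • (y : W)) := by
        simpa only [LinearMap.restrict_apply, Submodule.coe_sub, Submodule.coe_smul,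
          LinearMap.coe_restrict_apply] using hy'
      have hxP : u (y : W) - μ • (y : W) ∈ P :=
        P.sub_mem (hst _ y.2) (P.smul_mem _ y.2)
      obtain ⟨x, hx⟩ : ∃ x : W, x = u (y : W) - μ • (y : W) := ⟨_, rfl⟩
      rw [← hx] at e0 hxP
      have hx0 : x = 0 := by
        by_contra hne
        obtain ⟨t, ht, hμt⟩ := part1 x μ hne e0
        obtain ⟨t1, ht1, e1⟩ := hε x ((hmem _).1 hxP).1 hne ((hmem _).1 hxP).2
        have e2 : S.B ((S.L ^ k) x) x = 0 := by
          have e3 : S.B ((S.L ^ k) x) x = S.B ((S.L ^ k) x) (u (y : W) - μ • (y : W)) := by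
            rw [← hx]
          rw [e3, B_sub_right, S.B_smul_right, ← hsym, huLk, e0, map_smul, S.B_smul_left, hμt,
            Complex.conj_ofReal, sub_self]
        rw [e2, mul_zero] at e1
        have : t1 = 0 := by exact_mod_cast e1.symm
        exact ht1.ne' this
      rw [hx0] at hx
      apply Subtype.ext
      rw [LinearMap.coe_restrict_apply, Submodule.coe_smul]
      exact sub_eq_zero.1 hx.symm
    intro y hy hyk
    have hyP : y ∈ P := (hmem y).2 ⟨hy, hyk⟩
    have hyt : (⟨y, hyP⟩ : P) ∈ ⨆ μ : ℂ, Module.End.eigenspace (u.restrict hst) μ := by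
      rw [htop]
      trivial
    refine Submodule.iSup_induction (fun μ : ℂ => Module.End.eigenspace (u.restrict hst) μ)
      (motive := fun a : P => (a : W) ∈ E) hyt ?_ ?_ ?_
    · intro μ x hx
      rw [Module.End.mem_eigenspace_iff] at hx
      have hx' := congrArg (Subtype.val) hx
      rw [LinearMap.coe_restrict_apply, Submodule.coe_smul] at hx'
      rw [hE]
      refine Submodule.mem_iSup_of_mem μ ?_
      rw [Module.End.mem_eigenspace_iff, hx']
    · exact E.zero_mem
    · intro x y hx hy
      exact E.add_mem hx hy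
  let _ := S.int_deg.chooseDecomposition
  let _ := S.int_typ.chooseDecomposition
  have hLt : ∀ j (pq : ℕ × ℕ), ∀ a ∈ S.typ pq.1 pq.2, (S.L ^ j) a ∈ S.typ (pq.1 + j) (pq.2 + j) := by
    intro j pq a ha
    induction j with
    | zero => simpa using ha
    | succ j ih =>
      rw [pow_succ', Module.End.mul_apply, ← add_assoc, ← add_assoc]
      exact S.L_typ _ _ _ ih
  -- primitive elements
  have hprim' : ∀ i k, i + k = n → ∀ y ∈ S.deg i, (S.L ^ (k + 1)) y = 0 → y ∈ E := by
    intro i k hik y hy hyk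
    refine mem_of_typ (deg := S.deg) (typ := S.typ) S.typ_le hy E ?_
    intro p r hpr
    refine hprim p r k (by omega) _ (Submodule.coe_mem _) ?_
    have h3 := comp_map (fun pq : ℕ × ℕ => S.typ pq.1 pq.2) (S.L ^ (k + 1))
      (fun pq => (pq.1 + (k + 1), pq.2 + (k + 1))) (by
        rintro ⟨a, b⟩ ⟨a', b'⟩ h
        simp only [Prod.mk.injEq] at h ⊢
        omega) (fun pq a ha => hLt (k + 1) pq a ha) y (p, r)
    rw [hyk, DirectSum.decompose_zero] at h3
    rw [← h3]
    rfl
  have hLd : ∀ i j a, a ∈ S.deg i → (S.L ^ j) a ∈ S.deg (i + 2 * j) := by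
    intro i j a ha
    induction j with
    | zero => simpa using ha
    | succ j ih =>
      rw [pow_succ', Module.End.mul_apply]
      have := S.L_deg _ _ ih
      rwa [show i + 2 * (j + 1) = i + 2 * j + 2 by ring]
  -- all homogeneous elements
  have hdeg : ∀ i, ∀ a ∈ S.deg i, a ∈ E := by
    intro i
    induction i using Nat.strong_induction_on with
    | _ i ih =>
      intro a ha
      rcases Nat.lt_or_ge n i with hni | hin
      · rcases Nat.lt_or_ge (2 * n) i with h2 | h2
        · rw [S.top i h2 a ha]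
          exact E.zero_mem
        · obtain ⟨k, hk⟩ : ∃ k, i = n + k := ⟨i - n, by omega⟩
          obtain ⟨d, hd⟩ : ∃ d, d + k = n := ⟨n - k, by omega⟩
          obtain ⟨e, he, hea⟩ := S.hard_surj d k hd a (by
            rw [show d + 2 * k = i by omega]
            exact ha)
          rw [← hea]
          exact hELk k e (ih d (by omega) e he)
      · obtain ⟨k, hk⟩ : ∃ k, i + k = n := ⟨n - i, by omega⟩
        rcases Nat.lt_or_ge i 2 with hi2 | hi2
        · refine hprim' i k hk a ha ?_
          exact S.top (i + 2 * (k + 1)) (by omega) _ (hLd i (k + 1) a ha)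
        · obtain ⟨d, hd⟩ : ∃ d, i = d + 2 := ⟨i - 2, by omega⟩
          obtain ⟨e, he, hea⟩ := S.hard_surj d (k + 2) (by omega) ((S.L ^ (k + 1)) a) (by
            rw [show d + 2 * (k + 2) = i + 2 * (k + 1) by omega]
            exact hLd i (k + 1) a ha)
          have h1 : S.L e ∈ E := hEL e (ih d (by omega) e he)
          have h2 : a - S.L e ∈ E := by
            refine hprim' i k hk _ (Submodule.sub_mem _ ha ?_) ?_
            · rw [hd]
              exact S.L_deg d e he
            · rw [map_sub, ← Module.End.mul_apply, ← pow_succ, show k + 1 + 1 = k + 2 by ring,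
                hea, sub_self]
          have h3 := E.add_mem h2 h1
          rwa [sub_add_cancel] at h3
  rw [eq_top_iff]
  intro a _
  rw [← DirectSum.sum_support_decompose S.deg a]
  exact Submodule.sum_mem _ fun i _ => hdeg i _ (Submodule.coe_mem _)

end Pool.Prm
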