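import Pool.Agent.Work.MP_a60482_prim.Interface

/-!
# MP_a60482_ag, block RAY
-/

universe w

namespace Pool.Prm.RAYb

variable {W : Type w} [AddCommGroup W] [Module ℂ W]

theorem pow_comm (f L : Module.End ℂ W) (q : ℂ) (h : ∀ a, f (L a) = q • L (f a)) (k : ℕ) (a : W) :
    f ((L ^ k) a) = q ^ k • (L ^ k) (f a) := by
  induction k with
  | zero => simp
  | succ k ih =>
    rw [pow_succ' L, Module.End.mul_apply, h, ih, map_smul, smul_smul, Module.End.mul_apply,
      ← pow_succ']

end Pool.Prm.RAYb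

namespace Pool.Prm

open RAYb

theorem blk_RAY (EXT : Stmt_EXT.{w}) : Stmt_RAY.{w} := by
  intro n W _ _ S f g q hA hq hf hg i v μ hv hv0 huv
  have hq0 : q ≠ 0 := by
    rintro rfl
    rw [norm_zero] at hq
    exact zero_ne_one hq
  have hqc : starRingEnd ℂ q = q⁻¹ := by
    rw [Complex.inv_def, Complex.normSq_eq_norm_sq, hq]
    simp
  have hPres : S.Pres (g * f) := by
    constructor
    · intro j a ha
      exact hA.right.deg j _ (hA.left.deg j a ha)
    · intro p r a ha
      exact hA.right.typ p r _ (hA.left.typ p r a ha)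
  have hcomm : ∀ k a, (g * f) ((S.L ^ k) a) =
      (fun k => q ^ (2 * k)) k • (S.L ^ k) ((g * f) a) + (fun _ => (0 : ℂ)) k • (S.L ^ k) a := by
    intro k a
    simp only [zero_smul, add_zero, Module.End.mul_apply]
    rw [pow_comm f S.L q hf, map_smul, pow_comm g S.L q hg, smul_smul, ← pow_add, two_mul]
  obtain ⟨s, k, p, r, y, μ', h1, h2, h3, hy, hy0, hyk, huy, hμ⟩ :=
    EXT n W S (g * f) (fun k => q ^ (2 * k)) (fun _ => 0) hPres (fun k => pow_ne_zero _ hq0) hcomm
      i v μ hv hv0 huv
  simp only [add_zero] at hμ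
  obtain ⟨ε, hε⟩ := S.riemann p r k h3
  obtain ⟨t1, ht1, e1⟩ := hε y hy hy0 hyk
  have hydeg : y ∈ S.deg (p + r) := S.typ_le p r hy
  -- the value of `μ'`
  obtain ⟨t, ht, hμ', hft⟩ : ∃ t : ℝ, 0 ≤ t ∧ q ^ k * μ' = t ∧ (t = 0 → f y = 0) := by
    by_cases hfy : f y = 0
    · refine ⟨0, le_rfl, ?_, fun _ => hfy⟩
      have h0 : μ' • y = 0 := by
        rw [← huy, Module.End.mul_apply, hfy, map_zero]
      rcases smul_eq_zero.1 h0 with h | h
      · rw [h, mul_zero]
        simp
      · exact absurd h hy0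
    · have hk1 : (S.L ^ (k + 1)) (f y) = 0 := by
        have h5 := pow_comm f S.L q hf (k + 1) y
        rw [hyk, map_zero] at h5
        rcases smul_eq_zero.1 h5.symm with h | h
        · exact absurd h (pow_ne_zero _ hq0)
        · exact h
      obtain ⟨t2, ht2, e2⟩ := hε (f y) (hA.left.typ p r y hy) hfy hk1
      have e3 : S.B ((S.L ^ k) (f y)) (f y) = (q ^ k)⁻¹ * (starRingEnd ℂ μ' * S.B ((S.L ^ k) y) y) := by
        have h5 := pow_comm f S.L q hf k y
        have h6 : (S.L ^ k) (f y) = (q ^ k)⁻¹ • f ((S.L ^ k) y) := by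
          rw [h5, smul_smul, inv_mul_cancel₀ (pow_ne_zero _ hq0), one_smul]
        rw [h6, S.B_smul_left, hA.fg]
        have h7 : g (f y) = μ' • y := huy
        rw [h7, S.B_smul_right]
      rw [e3] at e2
      have e4 : (q ^ k)⁻¹ * starRingEnd ℂ μ' * (t1 : ℂ) = t2 := by
        rw [← e1, ← e2]
        ring
      have ht1c : (t1 : ℂ) ≠ 0 := by exact_mod_cast ht1.ne'
      refine ⟨t2 / t1, by positivity, ?_, fun h => ?_⟩
      · have e5 := congrArg (starRingEnd ℂ) e4
        rw [map_mul, map_mul, map_inv₀, map_pow, hqc, Complex.conj_conj, Complex.conj_ofReal,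
          Complex.conj_ofReal, inv_pow, inv_inv] at e5
        push_cast
        rw [← e5]
        field_simp
      · have : 0 < t2 / t1 := by positivity
        linarith
  refine ⟨t, ht, ?_, fun ht0 => ⟨⟨y, hy0, hft ht0⟩, fun hin => ?_⟩⟩
  · have e6 : q ^ (2 * s) * μ = t * q ^ k := by
      rw [← hμ, ← hμ']
      ring
    have e7 : q ^ i * q ^ (2 * s) = q ^ n * q ^ k := by
      rw [← pow_add, ← pow_add, h1]
    have e8 : q ^ (2 * s) * (μ * q ^ n) = q ^ (2 * s) * (t * q ^ i) := by
      linear_combination q ^ n * e6 - (t : ℂ) * e7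
    exact mul_left_cancel₀ (pow_ne_zero _ hq0) e8
  · have hk2 : k = 2 * s := by omega
    refine ⟨(S.L ^ s) y, ?_, ?_, ?_⟩
    · have hLd : ∀ j, (S.L ^ j) y ∈ S.deg (p + r + 2 * j) := by
        intro j
        induction j with
        | zero => simpa using hydeg
        | succ j ih =>
          rw [pow_succ', Module.End.mul_apply]
          have := S.L_deg _ _ ih
          rwa [show p + r + 2 * (j + 1) = p + r + 2 * j + 2 by ring]
      have := hLd s
      rwa [show p + r + 2 * s = n by omega] at this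
    · intro h0
      refine hy0 (S.hard_inj (p + r) k h3 y hydeg ?_)
      rw [show k = (k - s) + s by omega, pow_add, Module.End.mul_apply, h0, map_zero]
    · rw [pow_comm f S.L q hf, hft ht0, map_zero, smul_zero]

end Pool.Prm
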