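import Pool.Agent.Work.MP_a60482_prim.Interface

/-!
# MP_a60482_ag, primitive classes: block SEP

If `u` has no common eigenvalue on two stable subspaces, some polynomial in `u` is the identity
on the first one and zero on the second one.
-/

universe w

open Polynomial

namespace Pool.Prm

theorem sep_restrict {W : Type w} [AddCommGroup W] [Module ℂ W] (u : Module.End ℂ W)
    (A : Submodule ℂ W) (hA : ∀ a ∈ A, u a ∈ A) (P : ℂ[X]) (a : A) :
    ((aeval (LinearMap.restrict u hA) P a : A) : W) = aeval u P (a : W) := by
  induction P using Polynomial.induction_on' with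
  | add p q hp hq =>
    simp only [map_add, LinearMap.add_apply, Submodule.coe_add, hp, hq]
  | monomial m c =>
    have key : ∀ (m : ℕ), ((((LinearMap.restrict u hA) ^ m) a : A) : W) = (u ^ m) (a : W) := by
      intro m
      induction m with
      | zero => simp
      | succ m ih =>
        rw [pow_succ', pow_succ', Module.End.mul_apply, Module.End.mul_apply, ← ih]
        rfl
    rw [aeval_monomial, aeval_monomial, Module.End.mul_apply, Module.End.mul_apply,
      Module.algebraMap_end_apply, Module.algebraMap_end_apply, Submodule.coe_smul, key]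

theorem blk_SEP : Stmt_SEP.{w} := by
  intro W _ _ _ u A B hA hB hAB
  have hcop : IsCoprime (minpoly ℂ (LinearMap.restrict u hA))
      (minpoly ℂ (LinearMap.restrict u hB)) := by
    rw [Polynomial.isCoprime_iff_aeval_ne_zero_of_isAlgClosed ℂ ℂ]
    intro μ
    by_contra hcon
    push Not at hcon
    obtain ⟨h1, h2⟩ := hcon
    have e1 : Module.End.HasEigenvalue (LinearMap.restrict u hA) μ := by
      rw [Module.End.hasEigenvalue_iff_isRoot]
      simpa [Polynomial.IsRoot.def] using h1
    have e2 : Module.End.HasEigenvalue (LinearMap.restrict u hB) μ := by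
      rw [Module.End.hasEigenvalue_iff_isRoot]
      simpa [Polynomial.IsRoot.def] using h2
    obtain ⟨a, ha⟩ := e1.exists_hasEigenvector
    obtain ⟨b, hb⟩ := e2.exists_hasEigenvector
    have ha' : u (a : W) = μ • (a : W) := by
      have := congrArg (Subtype.val) ha.apply_eq_smul
      simpa using this
    have hb' : u (b : W) = μ • (b : W) := by
      have := congrArg (Subtype.val) hb.apply_eq_smul
      simpa using this
    rcases hAB a a.2 b b.2 μ ha' hb' with h | h
    · exact ha.2 (Subtype.ext h)
    · exact hb.2 (Subtype.ext h)
  obtain ⟨p, q, hpq⟩ := hcop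
  refine ⟨q * minpoly ℂ (LinearMap.restrict u hB), ?_, ?_⟩
  · intro a ha
    have h1 := sep_restrict u A hA (q * minpoly ℂ (LinearMap.restrict u hB)) ⟨a, ha⟩
    have h2 : aeval (LinearMap.restrict u hA) (q * minpoly ℂ (LinearMap.restrict u hB)) =
        (1 : Module.End ℂ A) := by
      have : q * minpoly ℂ (LinearMap.restrict u hB) =
          1 - p * minpoly ℂ (LinearMap.restrict u hA) := by rw [← hpq]; ring
      rw [this, map_sub, map_mul, minpoly.aeval, mul_zero, sub_zero, map_one]
    rw [h2] at h1
    exact h1.symm
  · intro b hb
    have h1 := sep_restrict u B hB (q * minpoly ℂ (LinearMap.restrict u hB)) ⟨b, hb⟩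
    rw [map_mul, minpoly.aeval, mul_zero] at h1
    exact h1.symm

end Pool.Prm
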