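import Pool.Agent.Work.MP_a60482_prim.Interface

/-!
# MP_a60482_ag, primitive classes: block SET

The statement SEP for sums of graded pieces.
-/

universe w

open Polynomial

namespace Pool.Prm.SETAux

variable {W : Type w} [AddCommGroup W] [Module ℂ W]

theorem comp_u (u : Module.End ℂ W) (deg : ℕ → Submodule ℂ W)
    [DirectSum.Decomposition deg] (hu : ∀ i, ∀ a ∈ deg i, u a ∈ deg i) (a : W) (i : ℕ) :
    (DirectSum.decompose deg (u a) i : W) = u (DirectSum.decompose deg a i : W) := by
  induction a using DirectSum.Decomposition.inductionOn deg with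
  | zero => simp
  | @homogeneous j m =>
    by_cases hij : j = i
    · subst hij
      rw [DirectSum.decompose_of_mem_same deg (hu j m m.2),
        DirectSum.decompose_of_mem_same deg m.2]
    · rw [DirectSum.decompose_of_mem_ne deg (hu j m m.2) hij,
        DirectSum.decompose_of_mem_ne deg m.2 hij, map_zero]
  | add a b ha hb =>
    rw [map_add, DirectSum.decompose_add, DirectSum.decompose_add, DirectSum.add_apply,
      DirectSum.add_apply, Submodule.coe_add, Submodule.coe_add, ha, hb, map_add]

theorem ne_comp (deg : ℕ → Submodule ℂ W) [DirectSum.Decomposition deg] (a : W) (ha : a ≠ 0) :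
    ∃ i, (DirectSum.decompose deg a i : W) ≠ 0 := by
  by_contra hcon
  push Not at hcon
  apply ha
  have h0 : DirectSum.decompose deg a = 0 := by
    ext i
    simpa using hcon i
  exact (DirectSum.decompose deg).injective (by rw [h0, DirectSum.decompose_zero])

/-- the elements whose components outside `S` vanish -/
def part (deg : ℕ → Submodule ℂ W) [DirectSum.Decomposition deg] (S : Set ℕ) :
    Submodule ℂ W where
  carrier := {a | ∀ j, j ∉ S → (DirectSum.decompose deg a j : W) = 0}
  zero_mem' := by
    intro j _
    simp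
  add_mem' := by
    intro a b ha hb j hj
    rw [DirectSum.decompose_add, DirectSum.add_apply, Submodule.coe_add, ha j hj, hb j hj,
      add_zero]
  smul_mem' := by
    intro c a ha j hj
    rw [DirectSum.decompose_smul, DirectSum.smul_apply, Submodule.coe_smul, ha j hj, smul_zero]

theorem mem_part (deg : ℕ → Submodule ℂ W) [DirectSum.Decomposition deg] (S : Set ℕ) (a : W) :
    a ∈ part deg S ↔ ∀ j, j ∉ S → (DirectSum.decompose deg a j : W) = 0 := Iff.rfl

theorem part_u (u : Module.End ℂ W) (deg : ℕ → Submodule ℂ W)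
    [DirectSum.Decomposition deg] (hu : ∀ i, ∀ a ∈ deg i, u a ∈ deg i) (S : Set ℕ) :
    ∀ a ∈ part deg S, u a ∈ part deg S := by
  intro a ha j hj
  rw [comp_u u deg hu, ha j hj, map_zero]

theorem deg_part (deg : ℕ → Submodule ℂ W) [DirectSum.Decomposition deg] (S : Set ℕ) (i : ℕ)
    (hi : i ∈ S) : ∀ a ∈ deg i, a ∈ part deg S := by
  intro a ha j hj
  exact DirectSum.decompose_of_mem_ne deg ha (fun h => hj (h ▸ hi))

theorem eig_comp (u : Module.End ℂ W) (deg : ℕ → Submodule ℂ W)
    [DirectSum.Decomposition deg] (hu : ∀ i, ∀ a ∈ deg i, u a ∈ deg i) (a : W) (μ : ℂ)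
    (ha : u a = μ • a) (i : ℕ) :
    u (DirectSum.decompose deg a i : W) = μ • (DirectSum.decompose deg a i : W) := by
  rw [← comp_u u deg hu, ha, DirectSum.decompose_smul, DirectSum.smul_apply, Submodule.coe_smul]

end Pool.Prm.SETAux

namespace Pool.Prm

open SETAux in
theorem blk_SET (SEP : Stmt_SEP.{w}) : Stmt_SET.{w} := by
  intro W _ _ _ u deg hint hu S h
  let _ : DirectSum.Decomposition deg := hint.chooseDecomposition
  obtain ⟨P, hP1, hP2⟩ := SEP W u (part deg S) (part deg Sᶜ) (part_u u deg hu S)
    (part_u u deg hu Sᶜ) (by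
      intro a ha b hb μ hua hub
      by_contra hcon
      push Not at hcon
      obtain ⟨i, hi⟩ := ne_comp deg a hcon.1
      obtain ⟨j, hj⟩ := ne_comp deg b hcon.2
      have hiS : i ∈ S := by
        by_contra hn
        exact hi (ha i hn)
      have hjS : j ∉ S := by
        intro hn
        exact hj (hb j (by simpa using hn))
      rcases h i hiS j hjS _ (DirectSum.decompose deg a i).2 _ (DirectSum.decompose deg b j).2 μ
        (eig_comp u deg hu a μ hua i) (eig_comp u deg hu b μ hub j) with h1 | h1
      · exact hi h1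
      · exact hj h1)
  refine ⟨P, ?_, ?_⟩
  · intro i hi a ha
    exact hP1 a (deg_part deg S i hi a ha)
  · intro i hi a ha
    exact hP2 a (deg_part deg Sᶜ i hi a ha)

end Pool.Prm
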