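import Pool.Agent.Work.MP_a60482_prim.Interface

/-!
# MP_a60482_ag, primitive classes: block SQR

If `f` multiplies the form by a positive operator `u = g f`, then `ψ = f u^(-1/2)` is unitary for
the form and scales `L` like `f`; its eigenvalues on degree `i` have absolute value
`q^((i - n)/2)`.
-/

universe w

open Polynomial

namespace Pool.Prm

theorem sqr_poly {W : Type w} [AddCommGroup W] [Module ℂ W] [FiniteDimensional ℂ W]
    (u : Module.End ℂ W) : ∃ P : ℂ[X], ∀ (v : W) (μ : ℂ), v ≠ 0 → u v = μ • v →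
      aeval u P v = (((Real.sqrt μ.re)⁻¹ : ℝ) : ℂ) • v := by
  have hfin : Set.Finite {μ : ℂ | Module.End.HasEigenvalue u μ} :=
    Module.End.finite_hasEigenvalue u
  refine ⟨Lagrange.interpolate hfin.toFinset id (fun μ => (((Real.sqrt μ.re)⁻¹ : ℝ) : ℂ)), ?_⟩
  intro v μ hv hu
  have hvec : Module.End.HasEigenvector u μ v :=
    ⟨Module.End.mem_eigenspace_iff.mpr hu, hv⟩
  have hval : Module.End.HasEigenvalue u μ := Module.End.hasEigenvalue_of_hasEigenvector hvec
  rw [Module.End.aeval_apply_of_hasEigenvector hvec]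
  congr 1
  have hmem : μ ∈ hfin.toFinset := by simpa using hval
  have := Lagrange.eval_interpolate_at_node
    (fun μ : ℂ => (((Real.sqrt μ.re)⁻¹ : ℝ) : ℂ)) (s := hfin.toFinset) (v := id)
    Function.injective_id.injOn hmem
  simpa using this

theorem sqr_span {W : Type w} [AddCommGroup W] [Module ℂ W] (u : Module.End ℂ W)
    (htop : ⨆ μ : ℂ, Module.End.eigenspace u μ = ⊤) (p : W → Prop)
    (h0 : p 0) (hadd : ∀ a b, p a → p b → p (a + b))
    (hv : ∀ (v : W) (μ : ℂ), v ≠ 0 → u v = μ • v → p v) (w : W) : p w := by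
  have hw : w ∈ ⨆ μ : ℂ, Module.End.eigenspace u μ := by rw [htop]; trivial
  refine Submodule.iSup_induction (fun μ : ℂ => Module.End.eigenspace u μ) (motive := p) hw ?_
    h0 (fun x y hx hy => hadd x y hx hy)
  intro μ x hx
  by_cases hx0 : x = 0
  · rw [hx0]; exact h0
  · exact hv x μ hx0 (Module.End.mem_eigenspace_iff.mp hx)

variable {n : ℕ} {W : Type w} [AddCommGroup W] [Module ℂ W]

theorem LHS.B_zero_left (S : LHS n W) (b : W) : S.B 0 b = 0 := by
  have := S.B_smul_left 0 0 b
  simpa using this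

theorem LHS.B_zero_right (S : LHS n W) (a : W) : S.B a 0 = 0 := by
  have := S.B_smul_right 0 a 0
  simpa using this

theorem sqr_aeval_mem (u : Module.End ℂ W) (P : ℂ[X]) (A : Submodule ℂ W)
    (hA : ∀ a ∈ A, u a ∈ A) : ∀ a ∈ A, aeval u P a ∈ A := by
  intro a ha
  induction P using Polynomial.induction_on' with
  | add p q hp hq =>
    rw [map_add, LinearMap.add_apply]
    exact A.add_mem hp hq
  | monomial m c =>
    have key : ∀ (m : ℕ), (u ^ m) a ∈ A := by
      intro m
      induction m with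
      | zero => simpa using ha
      | succ m ih =>
        rw [pow_succ', Module.End.mul_apply]
        exact hA _ ih
    rw [aeval_monomial, Module.End.mul_apply, Module.algebraMap_end_apply]
    exact A.smul_mem _ (key m)

theorem sqr_comm (u T : Module.End ℂ W) (h : Commute u T) (P : ℂ[X]) :
    Commute (aeval u P) T := by
  induction P using Polynomial.induction_on' with
  | add p q hp hq =>
    rw [map_add]
    exact hp.add_left hq
  | monomial m c =>
    rw [aeval_monomial]
    exact (Algebra.commute_algebraMap_left c T).mul_left (h.pow_left m)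

theorem blk_SQR (EXT : Stmt_EXT.{w}) (PSD : Stmt_PSD.{w}) : Stmt_SQR.{w} := by
  intro n W _ _ _ S f g q hadj hq hf hg hinj
  obtain ⟨hpos, htop⟩ := PSD n W S f g q hadj hq hf hg hinj
  obtain ⟨P, hP⟩ := sqr_poly (g * f)
  refine ⟨P, ?_⟩
  set u : Module.End ℂ W := g * f with hu
  set A : Module.End ℂ W := aeval u P with hA
  have hqc : (q : ℂ) ≠ 0 := by exact_mod_cast hq.ne'
  -- `u` is self adjoint
  have hself : ∀ a b, S.B (u a) b = S.B a (u b) := by
    intro a b
    rw [hu, Module.End.mul_apply, Module.End.mul_apply, hadj.gf, hadj.fg]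
  -- `u A A = 1`
  have hone : ∀ a, u (A (A a)) = a := by
    refine sqr_span u htop _ (by simp) (fun a b ha hb => by rw [map_add, map_add, map_add, ha, hb])
      ?_
    intro v μ hv hμ
    obtain ⟨t, ht, rfl⟩ := hpos v μ hv hμ
    rw [hP v _ hv hμ, map_smul, map_smul, hP v _ hv hμ, map_smul, hμ, smul_smul, smul_smul]
    have : (((Real.sqrt (t : ℂ).re)⁻¹ : ℝ) : ℂ) * (((Real.sqrt (t : ℂ).re)⁻¹ : ℝ) : ℂ) * (t : ℂ)
        = 1 := by
      rw [Complex.ofReal_re]
      have h1 : (Real.sqrt t)⁻¹ * (Real.sqrt t)⁻¹ * t = 1 := by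
        have h2 : Real.sqrt t * Real.sqrt t = t := Real.mul_self_sqrt ht.le
        have h3 : Real.sqrt t ≠ 0 := (Real.sqrt_pos.mpr ht).ne'
        field_simp
        nlinarith [h2]
      exact_mod_cast h1
    rw [this, one_smul]
  -- `A` is self adjoint
  have hAself : ∀ a b, S.B (A a) b = S.B a (A b) := by
    intro a
    refine sqr_span u htop _ (by rw [map_zero, S.B_zero_right, S.B_zero_right])
      (fun b c hb hc => by rw [map_add, S.B_add_right, S.B_add_right, hb, hc]) ?_
    intro b ν hb hν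
    revert a
    refine sqr_span u htop _ (by rw [map_zero, S.B_zero_left, S.B_zero_left])
      (fun a c ha hc => by rw [map_add, S.B_add_left, S.B_add_left, ha, hc]) ?_
    intro a μ ha hμ
    obtain ⟨t, ht, rfl⟩ := hpos a μ ha hμ
    obtain ⟨r, hr, rfl⟩ := hpos b ν hb hν
    rw [hP a _ ha hμ, hP b _ hb hν, S.B_smul_left, S.B_smul_right, Complex.conj_ofReal]
    by_cases htr : t = r
    · rw [htr]
    · have h1 := hself a b
      rw [hμ, hν, S.B_smul_left, S.B_smul_right, Complex.conj_ofReal] at h1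
      have h2 : ((t : ℂ) - r) * S.B a b = 0 := by rw [sub_mul, h1, sub_self]
      have h3 : ((t : ℂ) - r) ≠ 0 := by
        rw [sub_ne_zero]
        exact_mod_cast htr
      rw [(mul_eq_zero.mp h2).resolve_left h3, mul_zero, mul_zero]
  -- commutation with `L`
  have huL : ∀ a, u (S.L a) = S.L (u a) := by
    intro a
    rw [hu, Module.End.mul_apply, Module.End.mul_apply, hf, map_smul, hg, smul_smul,
      mul_inv_cancel₀ hqc, one_smul]
  have hcomm : Commute u S.L := by
    ext a
    simp only [Module.End.mul_apply]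
    exact huL a
  have hAL : ∀ a, A (S.L a) = S.L (A a) := by
    intro a
    have hc : Commute A S.L := by
      rw [hA]
      exact sqr_comm u _ hcomm P
    have := congrArg (fun T : Module.End ℂ W => T a) hc.eq
    simpa only [Module.End.mul_apply] using this
  have hAu : ∀ a, A (u a) = u (A a) := by
    intro a
    have hc : Commute A u := by
      rw [hA]
      exact sqr_comm u _ (Commute.refl u) P
    have := congrArg (fun T : Module.End ℂ W => T a) hc.eq
    simpa only [Module.End.mul_apply] using this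
  set ψ : Module.End ℂ W := f * A with hψ
  have hψL : ∀ a, ψ (S.L a) = (q : ℂ) • S.L (ψ a) := by
    intro a
    rw [hψ, Module.End.mul_apply, Module.End.mul_apply, hAL, hf]
  have hψLk : ∀ (k : ℕ) (a : W), ψ ((S.L ^ k) a) = ((q : ℂ) ^ k) • (S.L ^ k) (ψ a) := by
    intro k
    induction k with
    | zero => intro a; simp
    | succ k ih =>
      intro a
      have e1 : ∀ b, (S.L ^ (k + 1)) b = S.L ((S.L ^ k) b) := by
        intro b
        rw [pow_succ', Module.End.mul_apply]
      rw [e1, hψL, ih, map_smul, smul_smul, e1, pow_succ']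
  have hpres : S.Pres ψ := by
    constructor
    · intro i a ha
      rw [hψ, Module.End.mul_apply]
      exact hadj.left.deg i _ (sqr_aeval_mem u P _ (fun b hb =>
        hadj.right.deg i _ (hadj.left.deg i b hb)) a ha)
    · intro i j a ha
      rw [hψ, Module.End.mul_apply]
      exact hadj.left.typ i j _ (sqr_aeval_mem u P _ (fun b hb =>
        hadj.right.typ i j _ (hadj.left.typ i j b hb)) a ha)
  have hunit : ∀ a b, S.B (ψ a) (ψ b) = S.B a b := by
    intro a b
    have h1 : g (f (A b)) = u (A b) := by rw [hu, Module.End.mul_apply]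
    rw [hψ, Module.End.mul_apply, Module.End.mul_apply, hadj.fg, h1, hAself, hAu, hone]
  intro i v μ hv hv0 hμ
  obtain ⟨s, k, p, q', y, μ', e1, -, e3, hy, hy0, hLy, hyμ, hκ⟩ :=
    EXT n W S ψ (fun k => (q : ℂ) ^ k) (fun _ => 0) hpres (fun _ => pow_ne_zero _ hqc)
      (fun k a => by rw [zero_smul, add_zero]; exact hψLk k a) i v μ hv hv0 hμ
  simp only [add_zero] at hκ
  obtain ⟨ε, hε⟩ := S.riemann p q' k e3
  obtain ⟨t, ht, hB⟩ := hε y hy hy0 hLy
  have hBne : S.B ((S.L ^ k) y) y ≠ 0 := by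
    intro h0
    rw [h0, mul_zero] at hB
    exact ht.ne' (by exact_mod_cast hB.symm)
  have key1 : ((q : ℂ) ^ k * (μ' * starRingEnd ℂ μ')) * S.B ((S.L ^ k) y) y =
      S.B ((S.L ^ k) y) y := by
    have h1 := hunit ((S.L ^ k) y) y
    rw [hψLk, hyμ, map_smul, smul_smul, S.B_smul_left, S.B_smul_right] at h1
    linear_combination h1
  have key2 : (q : ℂ) ^ k * (μ' * starRingEnd ℂ μ') = 1 := by
    have : ((q : ℂ) ^ k * (μ' * starRingEnd ℂ μ')) * S.B ((S.L ^ k) y) y =
      1 * S.B ((S.L ^ k) y) y := by rw [key1, one_mul]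
    exact mul_right_cancel₀ hBne this
  have key3 : q ^ k * ‖μ'‖ ^ 2 = 1 := by
    rw [Complex.mul_conj, Complex.normSq_eq_norm_sq] at key2
    exact_mod_cast key2
  have key4 : q ^ k * ‖μ'‖ = q ^ s * ‖μ‖ := by
    have := congrArg (fun z : ℂ => ‖z‖) hκ
    simpa [norm_mul, norm_pow, abs_of_pos hq] using this
  have key5 : (‖μ‖ ^ 2 * q ^ n) * (q ^ s) ^ 2 = q ^ i * (q ^ s) ^ 2 := by
    have h1 : q ^ i * (q ^ s) ^ 2 = q ^ n * q ^ k := by
      rw [← pow_mul, ← pow_add, ← pow_add]
      congr 1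
      omega
    calc (‖μ‖ ^ 2 * q ^ n) * (q ^ s) ^ 2 = q ^ n * (q ^ s * ‖μ‖) ^ 2 := by ring
      _ = q ^ n * (q ^ k * ‖μ'‖) ^ 2 := by rw [key4]
      _ = q ^ n * q ^ k * (q ^ k * ‖μ'‖ ^ 2) := by ring
      _ = q ^ n * q ^ k := by rw [key3, mul_one]
      _ = _ := h1.symm
  exact mul_right_cancel₀ (pow_ne_zero 2 (pow_ne_zero s hq.ne')) key5

end Pool.Prm
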