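import Pool.Agent.Work.MP_a60482_prim.Interface

/-!
Twisted, divisible and primitive classes in terms of operators.
-/

open CategoryTheory MonoidalCategory CartesianMonoidalCategory

universe u v w b

namespace Pool.Prm

open Pool.Std Pool.KC

variable {V : Type u} [Category.{v} V] [CartesianMonoidalCategory V]

theorem blk_TWI (D : WeilCoh.{u, v, w, 0} V ℂ) (G : Polarization.{u, v, w, 0, b} D) :
    Stmt_TWI D G := by
  intro h hP X M z
  let T := WeilCoh.toWeil h
  let G' := Polarization.toPl h hP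
  have hact : ∀ (y : D.H (X ⊗ X)) (a : D.H X), D.act y a = T.act y a := fun y a =>
    (WeilCoh.act_eq h y a).symm
  have hc : G.c M ∈ T.deg X (2 * 1) := G'.c_deg M
  set ξ1 : T.H (X ⊗ X) := T.pull (fst X X) (G.c M) with hξ1
  set ξ2 : T.H (X ⊗ X) := T.pull (snd X X) (G.c M) with hξ2
  have a1 : ∀ (y : T.H (X ⊗ X)) (a : T.H X), T.act (ξ1 * y) a = T.act y (G.c M * a) := by
    intro y a
    rw [hξ1, T.act_fst_mul, ← T.even_comm hc a]
  have a2 : ∀ (y : T.H (X ⊗ X)) (a : T.H X), T.act (ξ2 * y) a = G.c M * T.act y a :=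
    fun y a => T.act_snd_mul hc y a
  have key : ∀ q : ℂ, D.pb (fst X X) (G.c M) * z = q • (D.pb (snd X X) (G.c M) * z) ↔
      ∀ a, D.act z (G.c M * a) = q • (G.c M * D.act z a) := by
    intro q
    have e1 : D.pb (fst X X) (G.c M) * z = ξ1 * z := rfl
    have e2 : D.pb (snd X X) (G.c M) * z = ξ2 * z := rfl
    rw [e1, e2, ← T.act_injective.eq_iff, LinearMap.ext_iff]
    refine forall_congr' fun a => ?_
    rw [a1, T.act_smul, LinearMap.smul_apply, a2, hact, hact]
  refine ⟨key, ?_, ?_⟩
  · have e1 : D.pb (fst X X) (G.c M) * D.diag X = ξ1 * T.diag X := rfl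
    have e2 : (D.pb (fst X X) (G.c M) - D.pb (snd X X) (G.c M)) * z = (ξ1 - ξ2) * z := rfl
    rw [e1, e2, ← T.act_injective.eq_iff, LinearMap.ext_iff]
    refine forall_congr' fun a => ?_
    have e3 : T.act (ξ1 * T.diag X) a = G.c M * a := by
      rw [a1, T.act_diag]
      rfl
    have e4 : T.act ((ξ1 - ξ2) * z) a = T.act z (G.c M * a) - G.c M * T.act z a := by
      have e6 : ξ1 * z = (ξ1 - ξ2) * z + ξ2 * z := by rw [← add_mul, sub_add_cancel]
      rw [← a1, ← a2, e6, T.act_add, LinearMap.add_apply, add_sub_cancel_right]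
    rw [e3, e4, hact, hact]
    have key2 : ∀ A B C : T.H X, A = B - C ↔ B = C + A := by
      intro A B C
      constructor
      · intro h1
        rw [h1]
        abel
      · intro h1
        rw [h1]
        abel
    exact key2 _ _ _
  · intro hz
    rw [← key (-1)]
    have hd : z ∈ D.deg (X ⊗ X) (2 * D.dim X) := h.cycle.deg _ _ z hz
    have hdim : D.dim (X ⊗ X) = 2 * D.dim X := by rw [h.kunneth.dim]; omega
    unfold Polarization.Primitive
    rw [hdim, Nat.sub_self, zero_add, pow_one, hP.chern_box, add_mul]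
    constructor
    · rintro ⟨-, -, h1⟩
      rw [neg_one_smul]
      exact eq_neg_of_add_eq_zero_left h1
    · intro h1
      refine ⟨le_rfl, hd, ?_⟩
      rw [h1, neg_one_smul, neg_add_cancel]

end Pool.Prm
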