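import Pool.Agent.Work.MP_a60482_prim.Interface

/-!
# MP_a60482_ag, primitive classes: block TYP
-/

open CategoryTheory MonoidalCategory CartesianMonoidalCategory Polynomial

universe u v w x b

namespace Pool.Prm

open Pool.Std

variable {V : Type u} [Category.{v} V] [CartesianMonoidalCategory V]

theorem blk_TYP (D : WeilCoh.{u, v, w, 0} V ℂ) (S : HodgeStr D) : Stmt_TYP D S := by
  intro h hT X z hz p q a ha
  have vanish : ∀ (Y : V) (r s : ℕ) (x : D.H Y), x ∈ S.hodge Y r s →
      ¬ (r = D.dim Y ∧ s = D.dim Y) → D.int x = 0 := by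
    intro Y r s x hx hne
    by_cases hrs : r = s
    · subst hrs
      refine h.trace.deg Y (r + r) x (hT.deg Y r r hx) ?_
      intro h2
      exact hne ⟨by omega, by omega⟩
    · exact hT.int Y r s hrs x hx
  have hdim : D.dim (X ⊗ X) = D.dim X + D.dim X := h.kunneth.dim X X
  have hzt : z ∈ S.hodge (X ⊗ X) (D.dim X) (D.dim X) := hT.alg _ _ z hz
  have htr : ∀ c : D.H X, D.int (D.act z a * c) =
      D.int (D.pb (fst X X) a * z * D.pb (snd X X) c) := by
    intro c
    have h1 := (WeilCoh.toWeil h).tr_act z a c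
    rw [WeilCoh.act_eq h] at h1
    exact h1
  have hzero : ∀ (p' q' : ℕ) (c : D.H X), c ∈ S.hodge X p' q' →
      ¬ (p + p' = D.dim X ∧ q + q' = D.dim X) → D.int (D.act z a * c) = 0 := by
    intro p' q' c hc hne
    rw [htr]
    refine vanish (X ⊗ X) (p + D.dim X + p') (q + D.dim X + q') _ ?_ ?_
    · exact hT.mul _ _ _ _ _ _ (hT.mul _ _ _ _ _ _ (hT.pull _ _ _ _ _ a ha) z hzt) _
        (hT.pull _ _ _ _ _ c hc)
    · rw [hdim]
      intro h2
      exact hne ⟨by omega, by omega⟩
  -- the projection onto the component of type `(p, q)`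
  have hint := hT.internal X
  letI := hint.chooseDecomposition
  let M : ℕ × ℕ → Submodule ℂ (D.H X) := fun pq => S.hodge X pq.1 pq.2
  obtain ⟨P, hP1, hP2, hP3⟩ : ∃ P : D.H X →ₗ[ℂ] D.H X, (∀ y, P y ∈ S.hodge X p q) ∧
      (∀ y ∈ S.hodge X p q, P y = y) ∧
      ∀ (r s : ℕ) (y : D.H X), y ∈ S.hodge X r s → ¬ (r = p ∧ s = q) → P y = 0 := by
    refine ⟨(Submodule.subtype (M (p, q))) ∘ₗ (DirectSum.component ℂ (ℕ × ℕ) _ (p, q)) ∘ₗ
      (DirectSum.decomposeLinearEquiv M).toLinearMap, ?_, ?_, ?_⟩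
    · intro y
      exact (DirectSum.component ℂ (ℕ × ℕ) (fun i => M i) (p, q)
        (DirectSum.decomposeLinearEquiv M y)).2
    · intro y hy
      exact DirectSum.decompose_of_mem_same M (i := (p, q)) hy
    · intro r s y hy hne
      exact DirectSum.decompose_of_mem_ne M (i := (r, s)) (j := (p, q)) hy
        (fun h2 => hne (by rw [Prod.mk.injEq] at h2; exact h2))
  have htop : (⨆ pq : ℕ × ℕ, S.hodge X pq.1 pq.2) = ⊤ := hint.submodule_iSup_eq_top
  have key : ∀ c y : D.H X, (∃ p' q', c ∈ S.hodge X p' q' ∧ p + p' = D.dim X ∧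
      q + q' = D.dim X) → D.int (y * c) = D.int (P y * c) := by
    rintro c y ⟨p', q', hc, e1, e2⟩
    refine Submodule.iSup_induction (fun pq : ℕ × ℕ => S.hodge X pq.1 pq.2)
      (motive := fun y => D.int (y * c) = D.int (P y * c)) (x := y) ?_ ?_ ?_ ?_
    · rw [htop]
      trivial
    · rintro ⟨r, s⟩ y hy
      by_cases hrs : r = p ∧ s = q
      · obtain ⟨rfl, rfl⟩ := hrs
        rw [hP2 y hy]
      · rw [hP3 r s y hy hrs, zero_mul]
        have h3 : D.int (0 : D.H X) = 0 := map_zero (D.tr X)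
        rw [h3]
        refine vanish X (r + p') (s + q') _ (hT.mul _ _ _ _ _ _ hy _ hc) ?_
        intro h4
        exact hrs ⟨by omega, by omega⟩
    · rw [map_zero]
    · intro y1 y2 h3 h4
      rw [map_add, add_mul, add_mul]
      have h5 : ∀ s t : D.H X, D.int (s + t) = D.int s + D.int t := fun s t => map_add (D.tr X) s t
      rw [h5, h5, h3, h4]
  have hb : D.act z a - P (D.act z a) = 0 := by
    apply (WeilCoh.toWeil h).nondeg'
    intro c
    change D.int ((D.act z a - P (D.act z a)) * c) = 0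
    refine Submodule.iSup_induction (fun pq : ℕ × ℕ => S.hodge X pq.1 pq.2)
      (motive := fun c => D.int ((D.act z a - P (D.act z a)) * c) = 0) (x := c) ?_ ?_ ?_ ?_
    · rw [htop]
      trivial
    · rintro ⟨p', q'⟩ c hc
      have h5 : D.int ((D.act z a - P (D.act z a)) * c) =
          D.int (D.act z a * c) - D.int (P (D.act z a) * c) := by
        rw [sub_mul]
        exact map_sub (D.tr X) _ _
      rw [h5, sub_eq_zero]
      by_cases hpq : p + p' = D.dim X ∧ q + q' = D.dim X
      · exact key c _ ⟨p', q', hc, hpq.1, hpq.2⟩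
      · rw [hzero p' q' c hc hpq]
        symm
        refine vanish X (p + p') (q + q') _ (hT.mul _ _ _ _ _ _ (hP1 _) _ hc) hpq
    · rw [mul_zero]
      exact map_zero (D.tr X)
    · intro c1 c2 h3 h4
      rw [mul_add]
      have h5 : ∀ s t : D.H X, D.int (s + t) = D.int s + D.int t := fun s t => map_add (D.tr X) s t
      rw [h5, h3, h4, add_zero]
  rw [sub_eq_zero] at hb
  rw [hb]
  exact hP1 _

end Pool.Prm
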