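import Pool.Agent.Work.MP_a60482_prim.Final
import Pool.Agent.Work.MP_a60482_prim.TWO
import Pool.Agent.Work.MP_a60482_prim.EXT
import Pool.Agent.Work.MP_a60482_prim.RAY
import Pool.Agent.Work.MP_a60482_prim.DER
import Pool.Agent.Work.MP_a60482_prim.PSD
import Pool.Agent.Work.MP_a60482_prim.SQR
import Pool.Agent.Work.MP_a60482_prim.SEP
import Pool.Agent.Work.MP_a60482_prim.SET
import Pool.Agent.Work.MP_a60482_prim.TYP
import Pool.Agent.Work.MP_a60482_prim.ADJ
import Pool.Agent.Work.MP_a60482_prim.BLD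
import Pool.Agent.Work.MP_a60482_prim.DIA
import Pool.Agent.Work.MP_a60482_prim.POL
import Pool.Agent.Work.MP_a60482_prim.TWI

/-!
All blocks.
-/

open CategoryTheory MonoidalCategory CartesianMonoidalCategory

universe u v w b

namespace Pool.Prm

open Pool.Std

variable {V : Type u} [Category.{v} V] [CartesianMonoidalCategory V]

theorem blocks {D : WeilCoh.{u, v, w, 0} V ℂ} {G : Polarization.{u, v, w, 0, b} D}
    {S : HodgeStr D} : Blocks D G S where
  RAY := blk_RAY blk_EXT
  DER := blk_DER blk_EXT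
  SQR := blk_SQR blk_EXT (blk_PSD blk_EXT)
  SEP := blk_SEP
  SET := blk_SET blk_SEP
  TYP := blk_TYP D S
  ADJ := blk_ADJ D S
  BLD := blk_BLD D G S
  DIA := blk_DIA D
  POL := blk_POL D
  TWI := blk_TWI D G

end Pool.Prm
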