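import Pool.Agent.Work.MP_a60482_prim.NUMA
import Pool.Agent.Work.MP_a60482_prim.Api
import Pool.Agent.Work.MP_a60482_kc.Num
import Pool.Agent.Work.StdConj.Conv

/-!
Up to numerical equivalence the class `ξ₁ Δ` is divisible by `(ξ₁ - ξ₂)²` in the algebraic
classes (with `K`-coefficients), for every algebraic class `ξ` of codimension one.
-/

open CategoryTheory MonoidalCategory CartesianMonoidalCategory

universe u v w x b

namespace Pool.Std

open Pool.KC

variable {V : Type u} [Category.{v} V] [CartesianMonoidalCategory V] {K : Type x} [Field K]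

section internal

variable (T : WeilTheory.{u, v, w, x} V K)

/-- all algebraic classes -/
def allC (X : V) : Submodule K (T.H X) := ⨆ k, T.C X k

variable {T}

theorem mem_allC {X : V} {k : ℕ} {z : T.H X} (hz : z ∈ T.C X k) : z ∈ allC T X :=
  Submodule.mem_iSup_of_mem k hz

theorem allC_ind {X : V} {P : T.H X → Prop} (h : ∀ k, ∀ z ∈ T.C X k, P z) (h0 : P 0)
    (ha : ∀ y z, P y → P z → P (y + z)) {z : T.H X} (hz : z ∈ allC T X) : P z :=
  Submodule.iSup_induction (p := fun k => T.C X k) (motive := P) hz h h0 ha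

theorem comp_eq_zero {X : V} {k l : ℕ} {z y : T.H (X ⊗ X)} (hz : z ∈ T.C (X ⊗ X) k)
    (hy : y ∈ T.C (X ⊗ X) l) (h : k + l < T.dim X) : T.comp z y = 0 := by
  apply T.act_injective
  rw [T.act_comp, T.act_zero]
  apply LinearMap.ext
  intro a
  refine T.hind (P := fun a => (T.act y ∘ₗ T.act z) a = (0 : T.H X →ₗ[K] T.H X) a) (by simp)
    ?_ ?_ a
  · intro i a ha
    change T.act y (T.act z a) = 0
    rcases Nat.lt_or_ge (i + 2 * k) (2 * T.dim X) with h1 | h1
    · rw [act_eq_zero T.toCohomology (T.C_deg _ _ hz) ha h1, map_zero]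
    · by_cases h2 : 2 * T.dim X < i
      · rw [T.deg_eq_zero ha h2, map_zero, map_zero]
      · refine act_eq_zero T.toCohomology (T.C_deg _ _ hy)
          (T.act_deg (T.C_deg _ _ hz) (l := i + 2 * k - 2 * T.dim X) (by omega) ha) (by omega)
  · intro a e h1 h2
    rw [map_add, h1, h2, map_add]

theorem comp_mem_allC {X : V} {z y : T.H (X ⊗ X)} (hz : z ∈ allC T (X ⊗ X))
    (hy : y ∈ allC T (X ⊗ X)) : T.comp z y ∈ allC T (X ⊗ X) := by
  refine allC_ind (P := fun z => T.comp z y ∈ allC T (X ⊗ X)) ?_ ?_ ?_ hz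
  · intro k z hz
    refine allC_ind (P := fun y => T.comp z y ∈ allC T (X ⊗ X)) ?_ ?_ ?_ hy
    · intro l y hy
      rcases Nat.lt_or_ge (k + l) (T.dim X) with h1 | h1
      · rw [comp_eq_zero hz hy h1]
        exact zero_mem _
      · refine mem_allC (k := k + l - T.dim X) ?_
        unfold Cohomology.comp
        apply T.C_push
        have := T.C_mul (T.C_pull (lift (snd X (X ⊗ X) ≫ fst X X) (fst X (X ⊗ X))) hz)
          (T.C_pull (lift (fst X (X ⊗ X)) (snd X (X ⊗ X) ≫ snd X X)) hy)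
        exact T.C_of_eq this (by omega)
    · have : T.comp z (0 : T.H (X ⊗ X)) = 0 := by simp [Cohomology.comp]
      rw [this]
      exact zero_mem _
    · intro a e h1 h2
      rw [T.comp_add_right]
      exact add_mem h1 h2
  · have : T.comp (0 : T.H (X ⊗ X)) y = 0 := by simp [Cohomology.comp]
    rw [this]
    exact zero_mem _
  · intro a e h1 h2
    rw [T.comp_add_left]
    exact add_mem h1 h2

variable (T) in
/-- the algebra of all algebraic operators, of all degrees -/
noncomputable def allOps (X : V) : Subalgebra K (Module.End K (T.H X)) where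
  carrier := {f | ∃ z ∈ allC T (X ⊗ X), T.act z = f}
  mul_mem' := by
    rintro f g ⟨z, hz, rfl⟩ ⟨y, hy, rfl⟩
    exact ⟨T.comp y z, comp_mem_allC hy hz, T.act_comp _ _⟩
  add_mem' := by
    rintro f g ⟨z, hz, rfl⟩ ⟨y, hy, rfl⟩
    exact ⟨z + y, add_mem hz hy, T.act_add _ _⟩
  algebraMap_mem' c := by
    refine ⟨c • T.diag X, Submodule.smul_mem _ _ (mem_allC (T.C_diag X)), ?_⟩
    rw [T.act_smul, T.act_diag]
    rfl

variable (T) in
/-- the parity operator -/
noncomputable def sgn (X : V) : Module.End K (T.H X) :=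
  ∑ i ∈ Finset.range (2 * T.dim X + 1), (-1 : K) ^ i • T.proj X i

theorem sgn_apply {X : V} {i : ℕ} {a : T.H X} (ha : a ∈ T.deg X i) :
    sgn T X a = (-1 : K) ^ i • a := by
  unfold sgn
  rw [LinearMap.sum_apply]
  by_cases hi : i < 2 * T.dim X + 1
  · rw [Finset.sum_eq_single i]
    · rw [LinearMap.smul_apply, T.proj_same ha]
    · intro j _ hj
      rw [LinearMap.smul_apply, T.proj_ne ha (Ne.symm hj), smul_zero]
    · intro h
      exact absurd (Finset.mem_range.mpr hi) h
  · rw [T.deg_eq_zero ha (by omega)]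
    simp

theorem str_eq {X : V} (f : Module.End K (T.H X)) :
    str (T.proj X) (2 * T.dim X + 1) f = LinearMap.trace K (T.H X) (f * sgn T X) := by
  rw [str_apply]
  unfold sgn
  rw [Finset.mul_sum, map_sum]
  refine Finset.sum_congr rfl fun i _ => ?_
  rw [mul_smul_comm, map_smul, smul_eq_mul]

/-- algebraic operators commute with the parity operator -/
theorem sgn_comm {X : V} {f : Module.End K (T.H X)} (hf : f ∈ allOps T X) :
    sgn T X * f = f * sgn T X := by
  obtain ⟨z, hz, rfl⟩ := hf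
  refine allC_ind (P := fun z => sgn T X * T.act z = T.act z * sgn T X) ?_ ?_ ?_ hz
  · intro k z hz
    apply LinearMap.ext
    intro a
    refine T.hind (P := fun a => (sgn T X * T.act z) a = (T.act z * sgn T X) a) (by simp) ?_ ?_ a
    · intro i a ha
      change sgn T X (T.act z a) = T.act z (sgn T X a)
      rw [sgn_apply ha, map_smul]
      rcases Nat.lt_or_ge (i + 2 * k) (2 * T.dim X) with h1 | h1
      · rw [act_eq_zero T.toCohomology (T.C_deg _ _ hz) ha h1, map_zero, smul_zero]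
      · rw [sgn_apply (T.act_deg (T.C_deg _ _ hz) (l := i + 2 * k - 2 * T.dim X) (by omega) ha)]
        congr 1
        have h2 : i + 2 * k - 2 * T.dim X + 2 * T.dim X = i + 2 * k := by omega
        have h3 := congrArg (fun t => (-1 : K) ^ t) h2
        simp only [pow_add, pow_mul, neg_one_sq, one_pow, mul_one] at h3
        exact h3
    · intro a e h1 h2
      rw [map_add, h1, h2, map_add]
  · rw [T.act_zero]
    simp
  · intro y z h1 h2
    rw [T.act_add, mul_add, add_mul, h1, h2]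

variable (T) in
/-- the supertrace on the algebra of all algebraic operators -/
noncomputable def tau (X : V) : allOps T X →+ K where
  toFun f := LinearMap.trace K (T.H X) (f.1 * sgn T X)
  map_zero' := by
    have : (0 : allOps T X).1 = 0 := rfl
    rw [this, zero_mul, map_zero]
  map_add' f g := by
    have : (f + g).1 = f.1 + g.1 := rfl
    rw [this, add_mul, map_add]

theorem tau_comm {X : V} (f g : allOps T X) : tau T X (f * g) = tau T X (g * f) := by
  change LinearMap.trace K (T.H X) (f.1 * g.1 * sgn T X) =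
    LinearMap.trace K (T.H X) (g.1 * f.1 * sgn T X)
  rw [mul_assoc, ← sgn_comm g.2, ← mul_assoc, LinearMap.trace_mul_comm, mul_assoc]

theorem tau_nilp {X : V} (f : allOps T X) (hf : IsNilpotent f) : tau T X f = 0 := by
  obtain ⟨n, hn⟩ := hf
  have h1 : f.1 ^ n = 0 := congrArg Subtype.val hn
  have h2 : IsNilpotent (f.1 * sgn T X) := by
    refine ⟨n, ?_⟩
    have h3 : Commute f.1 (sgn T X) := (sgn_comm f.2).symm
    rw [h3.mul_pow, h1, zero_mul]
  exact (LinearMap.isNilpotent_trace_of_isNilpotent h2).eq_zero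

theorem tau_act {X : V} {y z : T.H (X ⊗ X)} (hy : T.act y ∈ allOps T X)
    (hz : T.act z ∈ allOps T X) : tau T X (⟨T.act y, hy⟩ * ⟨T.act z, hz⟩) =
      T.tr (X ⊗ X) (z * T.pull (Cohomology.swap X) y) := by
  rw [T.tr_mul_eq_str, T.swap_swap, str_eq]
  rfl

variable [CharZero K]

/-- the orthogonality relation -/
theorem num_orth {X : V} {c : T.H X} (hc : c ∈ T.C X 1) {n : ℕ} (hn : n + 1 = T.dim X)
    {y : T.H (X ⊗ X)} (hy : y ∈ T.C (X ⊗ X) n)
    (h : ∀ z ∈ T.C (X ⊗ X) n, T.tr (X ⊗ X)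
      ((T.pull (fst X X) c - T.pull (snd X X) c) ^ 2 * z * y) = 0) :
    T.tr (X ⊗ X) (T.pull (fst X X) c * T.diag X * y) = 0 := by
  set ξ1 : T.H (X ⊗ X) := T.pull (fst X X) c with hξ1
  set ξ2 : T.H (X ⊗ X) := T.pull (snd X X) c with hξ2
  have hc2 : c ∈ T.deg X (2 * 1) := T.C_deg _ _ hc
  have m1 : ξ1 ∈ T.C (X ⊗ X) 1 := T.C_pull _ hc
  have m2 : ξ2 ∈ T.C (X ⊗ X) 1 := T.C_pull _ hc
  have m12 : (ξ1 - ξ2) ^ 2 ∈ T.C (X ⊗ X) 2 := by
    rw [pow_two]
    exact T.C_mul (sub_mem m1 m2) (sub_mem m1 m2)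
  have a1 : ∀ (y : T.H (X ⊗ X)) (a : T.H X), T.act (ξ1 * y) a = T.act y (c * a) := by
    intro y a
    rw [hξ1, T.act_fst_mul, ← T.even_comm hc2 a]
  have a2 : ∀ (y : T.H (X ⊗ X)) (a : T.H X), T.act (ξ2 * y) a = c * T.act y a :=
    fun y a => T.act_snd_mul hc2 y a
  have e1 : ∀ a : T.H X, T.act (ξ1 * T.diag X) a = c * a := by
    intro a
    rw [a1, T.act_diag]
    rfl
  have e3 : ∀ (y : T.H (X ⊗ X)) (a : T.H X), T.act ((ξ1 - ξ2) * y) a =
      T.act y (c * a) - c * T.act y a := by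
    intro y a
    have e6 : ξ1 * y = (ξ1 - ξ2) * y + ξ2 * y := by rw [← add_mul, sub_add_cancel]
    rw [← a1, ← a2, e6, T.act_add, LinearMap.add_apply, add_sub_cancel_right]
  -- the operators
  set y' : T.H (X ⊗ X) := T.pull (Cohomology.swap X) y with hy'
  have hy'm : y' ∈ T.C (X ⊗ X) n := T.C_pull _ hy
  have hY : T.act y' ∈ allOps T X := ⟨y', mem_allC hy'm, rfl⟩
  have hLm : ξ1 * T.diag X ∈ T.C (X ⊗ X) (1 + T.dim X) := T.C_mul m1 (T.C_diag X)
  have hL : T.act (ξ1 * T.diag X) ∈ allOps T X := ⟨_, mem_allC hLm, rfl⟩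
  have hv : (ξ1 - ξ2) ^ 2 * y' ∈ T.C (X ⊗ X) (2 + n) := T.C_mul m12 hy'm
  have hvo : T.act ((ξ1 - ξ2) ^ 2 * y') ∈ allOps T X := ⟨_, mem_allC hv, rfl⟩
  set L : allOps T X := ⟨T.act (ξ1 * T.diag X), hL⟩ with hLdef
  set Y : allOps T X := ⟨T.act y', hY⟩ with hYdef
  set W : allOps T X := ⟨T.act ((ξ1 - ξ2) ^ 2 * y'), hvo⟩ with hWdef
  have eW : L * L * Y - 2 • (L * Y * L) + Y * L * L = W := by
    apply Subtype.ext
    apply LinearMap.ext
    intro a
    change T.act (ξ1 * T.diag X) (T.act (ξ1 * T.diag X) (T.act y' a)) -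
      2 • T.act (ξ1 * T.diag X) (T.act y' (T.act (ξ1 * T.diag X) a)) +
      T.act y' (T.act (ξ1 * T.diag X) (T.act (ξ1 * T.diag X) a)) =
      T.act ((ξ1 - ξ2) ^ 2 * y') a
    rw [pow_two, mul_assoc, e3, e3, e3, e1, e1, e1, e1, e1, mul_sub]
    module
  have hnil : IsNilpotent L := by
    refine ⟨T.dim X + 1, ?_⟩
    apply Subtype.ext
    have h1 : L.1 = LinearMap.mulLeft K c := by
      apply LinearMap.ext
      intro a
      exact e1 a
    change L.1 ^ (T.dim X + 1) = 0
    rw [h1, LinearMap.pow_mulLeft, T.C_eq_zero (T.C_pow hc (T.dim X + 1)) (by omega)]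
    simp
  have key : tau T X (L * Y) = 0 := by
    have hart := IsArtinianRing.of_finite K (allOps T X)
    refine Pool.Prm.NUM.tau_mul_eq_zero (tau T X) tau_comm tau_nilp ?_ hnil ?_
    · intro j a ha
      rw [nsmul_eq_mul] at ha
      refine (mul_eq_zero.mp ha).resolve_left ?_
      exact_mod_cast Nat.succ_ne_zero j
    · rintro ⟨_, w, hw, rfl⟩
      rw [eW, hWdef, tau_act]
      refine allC_ind (P := fun w => T.tr (X ⊗ X) ((ξ1 - ξ2) ^ 2 * y' *
        T.pull (Cohomology.swap X) w) = 0) ?_ ?_ ?_ hw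
      · intro k w hw
        by_cases hk : k = n
        · subst hk
          have e4 : T.pull (Cohomology.swap X) ((ξ1 - ξ2) ^ 2 * y' *
              T.pull (Cohomology.swap X) w) = (ξ1 - ξ2) ^ 2 * w * y := by
            have e5 : T.pull (Cohomology.swap X) ξ1 = ξ2 := by
              rw [hξ1, hξ2, T.pull_comp', lift_fst]
            have e6 : T.pull (Cohomology.swap X) ξ2 = ξ1 := by
              rw [hξ1, hξ2, T.pull_comp', lift_snd]
            rw [map_mul, map_mul, map_pow, map_sub, e5, e6, T.swap_swap, T.swap_swap,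
              mul_assoc, mul_assoc, T.even_comm (T.C_deg _ _ hy)]
            congr 1
            rw [← neg_sub ξ1 ξ2, neg_sq]
          have e7 : T.tr (X ⊗ X) (T.pull (Cohomology.swap X) ((ξ1 - ξ2) ^ 2 * y' *
              T.pull (Cohomology.swap X) w)) = T.tr (X ⊗ X) ((ξ1 - ξ2) ^ 2 * y' *
              T.pull (Cohomology.swap X) w) := T.tr_sw _
          rw [← e7, e4]
          exact h w hw
        · refine T.tr_mul_ne (T.C_deg _ _ hv) (T.pull_deg _ (T.C_deg _ _ hw)) ?_
          rw [T.dim_prod]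
          omega
      · rw [map_zero, mul_zero, map_zero]
      · intro a e h1 h2
        rw [map_add, mul_add, map_add, h1, h2, add_zero]
  rw [tau_comm, hLdef, hYdef, tau_act, hy', T.swap_swap] at key
  exact key

/-- the internal form of the theorem -/
theorem num_internal {X : V} {c : T.H X} (hc : c ∈ T.C X 1) :
    ∃ z ∈ T.C (X ⊗ X) (T.dim X - 1), ∀ y ∈ T.C (X ⊗ X) (T.dim X - 1),
      T.tr (X ⊗ X) ((T.pull (fst X X) c * T.diag X -
        (T.pull (fst X X) c - T.pull (snd X X) c) ^ 2 * z) * y) = 0 := by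
  rcases Nat.eq_zero_or_pos (T.dim X) with hX | hX
  · refine ⟨0, zero_mem _, fun y hy => ?_⟩
    have h0 : c = 0 := T.C_eq_zero hc (by omega)
    rw [h0]
    simp
  obtain ⟨n, hn⟩ : ∃ n, n + 1 = T.dim X := ⟨T.dim X - 1, by omega⟩
  rw [show T.dim X - 1 = n by omega]
  set C := T.C (X ⊗ X) n with hC
  set ξ : T.H (X ⊗ X) := (T.pull (fst X X) c - T.pull (snd X X) c) ^ 2 with hξ
  let β : C →ₗ[K] Module.Dual K C :=
    { toFun := fun z => T.tr (X ⊗ X) ∘ₗ LinearMap.mulLeft K (ξ * z.1) ∘ₗ C.subtype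
      map_add' := by
        intro z z'
        apply LinearMap.ext
        intro y
        change T.tr (X ⊗ X) (ξ * (z.1 + z'.1) * y.1) =
          T.tr (X ⊗ X) (ξ * z.1 * y.1) + T.tr (X ⊗ X) (ξ * z'.1 * y.1)
        rw [mul_add, add_mul, map_add]
      map_smul' := by
        intro r z
        apply LinearMap.ext
        intro y
        change T.tr (X ⊗ X) (ξ * (r • z.1) * y.1) = r • T.tr (X ⊗ X) (ξ * z.1 * y.1)
        rw [mul_smul_comm, smul_mul_assoc, map_smul] }
  let lam : Module.Dual K C :=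
    T.tr (X ⊗ X) ∘ₗ LinearMap.mulLeft K (T.pull (fst X X) c * T.diag X) ∘ₗ C.subtype
  have hmem : lam ∈ LinearMap.range β := by
    have h1 : (LinearMap.range β).dualCoannihilator.dualAnnihilator = LinearMap.range β :=
      Subspace.dualCoannihilator_dualAnnihilator_eq
    rw [← h1, Submodule.mem_dualAnnihilator]
    intro y hy
    rw [Submodule.mem_dualCoannihilator] at hy
    refine num_orth hc hn y.2 ?_
    intro z hz
    exact hy (β ⟨z, hz⟩) ⟨_, rfl⟩
  obtain ⟨z, hz⟩ := hmem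
  refine ⟨z.1, z.2, fun y hy => ?_⟩
  have h1 := LinearMap.congr_fun hz ⟨y, hy⟩
  have h2 : T.tr (X ⊗ X) (ξ * z.1 * y) = T.tr (X ⊗ X) (T.pull (fst X X) c * T.diag X * y) := h1
  rw [sub_mul, map_sub, h2, sub_self]

end internal

variable {D : WeilCoh.{u, v, w, x} V K} {G : Polarization.{u, v, w, x, b} D}

theorem num_two [CharZero K] (h : D.IsWeil)
    (hF : ∀ (X : V) (i : ℕ) (q : K), ∀ a ∈ D.alg X i, q • a ∈ D.alg X i) {X : V} {c : D.H X}
    (hc : c ∈ D.alg X 1) :
    ∃ z ∈ D.alg (X ⊗ X) (D.dim X - 1), ∀ y ∈ D.alg (X ⊗ X) (D.dim X - 1),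
      D.int ((D.pb (fst X X) c * D.diag X -
        (D.pb (fst X X) c - D.pb (snd X X) c) ^ 2 * z) * y) = 0 := by
  obtain ⟨z, hz, h1⟩ := num_internal (T := WeilCoh.toWeil h) (X := X) (c := c)
    (Submodule.subset_span hc)
  have key : ∀ z ∈ Submodule.span K (D.alg (X ⊗ X) (D.dim X - 1) : Set (D.H (X ⊗ X))),
      z ∈ D.alg (X ⊗ X) (D.dim X - 1) := by
    intro z hz
    induction hz using Submodule.span_induction with
    | mem a ha => exact ha
    | zero => exact zero_mem _
    | add a e _ _ h3 h4 => exact add_mem h3 h4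
    | smul q a _ h3 => exact hF _ _ q a h3
  exact ⟨z, key z hz, fun y hy => h1 y (Submodule.subset_span hy)⟩

/-- Up to numerical equivalence `ξ₁ Δ` is divisible by `(ξ₁ - ξ₂)²` in the algebraic classes. -/
theorem num_twice [CharZero K] (h : D.IsWeil) (hF : D.CoefficientsIn K) (hP : G.IsPolarized)
    {X : V} (M : G.Bund X) :
    ∃ z ∈ D.alg (X ⊗ X) (D.dim X - 1), ∀ y ∈ D.alg (X ⊗ X) (D.dim X - 1),
      D.int ((D.pb (fst X X) (G.c M) * D.diag X -
        (D.pb (fst X X) (G.c M) - D.pb (snd X X) (G.c M)) ^ 2 * z) * y) = 0 :=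
  num_two h (fun X i q a ha => hF.smul X i q a ha) (hP.chern_mem X M)

end Pool.Std
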