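import Mathlib

/-!
Jacobson-Morozov lemma for trace forms: if `l` is nilpotent and `[l, [l, y]]` is in the radical
of the trace form `τ`, then `τ (l y) = 0`.
-/

namespace Pool.Prm.NUM

section nilpotent

variable {Q : Type*} [Ring Q]

/-- `l^j y = y l^j + j l^(j-1) u`, if `u = l y - y l` commutes with `l` -/
theorem pow_comm {l y u : Q} (hu : l * y = y * l + u) (hc : l * u = u * l) (j : ℕ) :
    l ^ (j + 1) * y = y * l ^ (j + 1) + (j + 1) • (l ^ j * u) := by
  induction j with
  | zero => simp [hu]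
  | succ j ih =>
    have e1 : ∀ j : ℕ, l ^ j * u = u * l ^ j := fun j => (Commute.pow_left hc j).eq
    rw [pow_succ', mul_assoc, ih, mul_add, ← mul_assoc, hu, add_mul, mul_assoc y,
      ← pow_succ', mul_smul_comm, ← mul_assoc, ← pow_succ', e1 (j + 1), add_assoc, add_right_inj,
      succ_nsmul (u * l ^ (j + 1)) (j + 1), add_comm]

/-- Jacobson's lemma -/
theorem nilp_comm (hQ : ∀ (j : ℕ) (a : Q), (j + 1) • a = 0 → a = 0) {l y u : Q}
    (hu : l * y = y * l + u) (hc : l * u = u * l) {m : ℕ} (hl : l ^ m = 0) : IsNilpotent u := by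
  have key : ∀ k ≤ m, ∃ e : ℕ, l ^ (m - k) * u ^ e = 0 := by
    intro k
    induction k with
    | zero => exact fun _ => ⟨0, by simpa using hl⟩
    | succ k ih =>
      intro hk
      obtain ⟨e, he⟩ := ih (by omega)
      obtain ⟨j, hj⟩ : ∃ j, m - k = j + 1 := ⟨m - k - 1, by omega⟩
      have hj' : m - (k + 1) = j := by omega
      rw [hj] at he
      rw [hj']
      refine ⟨e + 1 + e, hQ j _ ?_⟩
      have e2 : u ^ e * l ^ (j + 1) = 0 := by
        rw [← he]
        exact ((Commute.pow_right hc e).pow_left (j + 1)).eq.symm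
      have e3 := congrArg (fun t => u ^ e * t * u ^ e) (pow_comm hu hc j)
      simp only [mul_add, add_mul] at e3
      rw [← mul_assoc (u ^ e), e2, zero_mul, zero_mul, mul_assoc (u ^ e) (y * l ^ (j + 1)),
        mul_assoc y, he, mul_zero, mul_zero, zero_add, mul_smul_comm, smul_mul_assoc] at e3
      rw [e3]
      congr 1
      have e4 : Commute (u ^ e) (l ^ j) := ((Commute.pow_right hc e).pow_left j).symm
      rw [← mul_assoc, e4.eq, mul_assoc, mul_assoc, ← pow_succ', ← pow_add]
      congr 2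
      omega
  obtain ⟨e, he⟩ := key m le_rfl
  rw [Nat.sub_self, pow_zero, one_mul] at he
  exact ⟨e, he⟩

/-- `l y` is nilpotent -/
theorem nilp_mul (hQ : ∀ (j : ℕ) (a : Q), (j + 1) • a = 0 → a = 0) {l y u : Q}
    (hu : l * y = y * l + u) (hc : l * u = u * l) {m : ℕ} (hl : l ^ m = 0) :
    IsNilpotent (l * y) := by
  obtain ⟨E, hE⟩ := nilp_comm hQ hu hc hl
  have step : ∀ (j : ℕ) (s : Q), l ^ (j + 1) * s = 0 → ∀ i : ℕ,
      l ^ (j + 1) * ((l * y) ^ i * s) = 0 ∧
        l ^ j * ((l * y) ^ i * s) = (j + 1) ^ i • (u ^ i * (l ^ j * s)) := by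
    intro j s hs i
    induction i with
    | zero => exact ⟨by simpa using hs, by simp⟩
    | succ i ih =>
      obtain ⟨h1, h2⟩ := ih
      set t := (l * y) ^ i * s with ht
      have e1 : (l * y) ^ (i + 1) * s = l * y * t := by rw [pow_succ', mul_assoc]
      have e2 : l ^ (j + 1) * (l * y * t) = 0 := by
        have e3 : l ^ (j + 1) * (l * y * t) = l ^ (j + 1 + 1) * y * t := by
          rw [pow_succ l (j + 1)]
          simp only [mul_assoc]
        have e4 : l ^ (j + 1) * u = u * l ^ (j + 1) := (Commute.pow_left hc (j + 1)).eq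
        rw [e3, pow_comm hu hc (j + 1), add_mul, smul_mul_assoc, e4, mul_assoc y, mul_assoc u, h1,
          pow_succ' l (j + 1), mul_assoc l, h1]
        simp
      have e5 : l ^ j * (l * y * t) = (j + 1) • (u * (l ^ j * t)) := by
        have e3 : l ^ j * (l * y * t) = l ^ (j + 1) * y * t := by
          rw [pow_succ l j]
          simp only [mul_assoc]
        have e4 : l ^ j * u = u * l ^ j := (Commute.pow_left hc j).eq
        rw [e3, pow_comm hu hc j, add_mul, smul_mul_assoc, mul_assoc y, h1, mul_zero, zero_add, e4,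
          mul_assoc]
      rw [e1]
      refine ⟨e2, ?_⟩
      rw [e5, h2, mul_smul_comm, smul_smul, ← mul_assoc u, ← pow_succ', ← pow_succ']
  have key : ∀ j : ℕ, ∃ N : ℕ, ∀ s : Q, l ^ j * s = 0 → (l * y) ^ N * s = 0 := by
    intro j
    induction j with
    | zero => exact ⟨0, fun s hs => by simpa using hs⟩
    | succ j ih =>
      obtain ⟨N, hN⟩ := ih
      refine ⟨N + E, fun s hs => ?_⟩
      rw [pow_add, mul_assoc]
      apply hN
      rw [(step j s hs E).2, hE, zero_mul, smul_zero]
  obtain ⟨N, hN⟩ := key m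
  refine ⟨N, ?_⟩
  have := hN 1 (by rw [hl, zero_mul])
  rwa [mul_one] at this

end nilpotent

section trace

variable {A : Type*} [Ring A] {K : Type*} [AddCommGroup K]

/-- regularity modulo the radical -/
theorem exists_regular [IsArtinianRing A] (a : A) : ∃ x : A, a - a * x * a ∈ Ring.jacobson A := by
  have hss : IsSemisimpleRing (A ⧸ Ring.jacobson A) := IsSemiprimaryRing.isSemisimpleRing
  set π := Ideal.Quotient.mk (Ring.jacobson A) with hπ
  obtain ⟨e, he, hs⟩ := IsSemisimpleRing.ideal_eq_span_idempotent (Ideal.span {π a})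
  have h1 : e ∈ Ideal.span {π a} := by
    rw [hs]
    exact Ideal.subset_span rfl
  have h2 : π a ∈ Ideal.span {e} := by
    rw [← hs]
    exact Ideal.subset_span rfl
  obtain ⟨x', hx'⟩ := Submodule.mem_span_singleton.mp h1
  obtain ⟨r, hr⟩ := Submodule.mem_span_singleton.mp h2
  obtain ⟨x, rfl⟩ := Ideal.Quotient.mk_surjective x'
  refine ⟨x, ?_⟩
  rw [← Ideal.Quotient.eq_zero_iff_mem, map_sub, map_mul, map_mul]
  rw [smul_eq_mul] at hx' hr
  rw [mul_assoc, hx', ← hr, mul_assoc, he.eq, sub_self]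

/-- nilpotent elements modulo the radical of a trace form have trace zero -/
theorem tau_eq_zero [IsArtinianRing A] (τ : A →+ K) (hτ : ∀ a b, τ (a * b) = τ (b * a))
    (hnil : ∀ a, IsNilpotent a → τ a = 0) {k : ℕ} : ∀ {a : A}, (∀ b, τ (b * a ^ k) = 0) →
    τ a = 0 := by
  have hJ : ∀ a ∈ Ring.jacobson A, IsNilpotent a := by
    intro a ha
    obtain ⟨n, hn⟩ := IsSemiprimaryRing.isNilpotent (R := A)
    refine ⟨n, ?_⟩
    have := Ideal.pow_mem_pow ha n
    rw [hn] at this
    simpa using this
  induction k with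
  | zero =>
    intro a h
    simpa using h a
  | succ k ih =>
    intro a h
    rcases Nat.eq_zero_or_pos k with hk | hk
    · subst hk
      simpa using h 1
    obtain ⟨x, hx⟩ := exists_regular a
    -- `a * a * x` has the same trace
    have e1 : τ a = τ (a * (a * x)) := by
      have h1 : τ (a - a * x * a) = 0 := hnil _ (hJ _ hx)
      rw [map_sub, sub_eq_zero, hτ] at h1
      exact h1
    rw [e1]
    apply ih
    intro b
    -- `(a * (a * x)) ^ k = a ^ (k + 1) * x` modulo the radical
    have hmod : ∀ j : ℕ, (a * (a * x)) ^ (j + 1) - a ^ (j + 1) * (a * x) ∈ Ring.jacobson A := by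
      intro j
      induction j with
      | zero => simp
      | succ j ihj =>
        have e2 : (a * (a * x)) ^ (j + 1 + 1) - a ^ (j + 1 + 1) * (a * x) =
            (a * (a * x)) * ((a * (a * x)) ^ (j + 1) - a ^ (j + 1) * (a * x)) +
            (a * (a * x)) * (a ^ (j + 1) * (a * x)) - a ^ (j + 1 + 1) * (a * x) := by
          rw [mul_sub, ← pow_succ']
          abel
        have e3 : (a * (a * x)) * (a ^ (j + 1) * (a * x)) - a ^ (j + 1 + 1) * (a * x) =
            -(a * (a - a * x * a) * (a ^ j * (a * x))) := by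
          rw [pow_succ' a (j + 1), pow_succ' a j]
          noncomm_ring
        rw [e2, add_sub_assoc, e3]
        refine add_mem (Ideal.mul_mem_left _ _ ihj) (neg_mem ?_)
        exact Ideal.mul_mem_right _ _ (Ideal.mul_mem_left _ _ hx)
    obtain ⟨j, rfl⟩ : ∃ j, k = j + 1 := ⟨k - 1, by omega⟩
    have e4 : τ (b * ((a * (a * x)) ^ (j + 1) - a ^ (j + 1) * (a * x))) = 0 :=
      hnil _ (hJ _ (Ideal.mul_mem_left _ _ (hmod j)))
    rw [mul_sub, map_sub, sub_eq_zero] at e4
    rw [e4]
    have e5 : b * (a ^ (j + 1) * (a * x)) = b * a ^ (j + 1 + 1) * x := by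
      rw [pow_succ a (j + 1)]
      simp only [mul_assoc]
    rw [e5, hτ, ← mul_assoc]
    exact h _

/-- the Jacobson-Morozov lemma for trace forms -/
theorem tau_mul_eq_zero [IsArtinianRing A] (τ : A →+ K) (hτ : ∀ a b, τ (a * b) = τ (b * a))
    (hnil : ∀ a, IsNilpotent a → τ a = 0) (hK : ∀ (j : ℕ) (a : K), (j + 1) • a = 0 → a = 0)
    {l y : A} (hl : IsNilpotent l) (h : ∀ b, τ (b * (l * l * y - 2 • (l * y * l) + y * l * l)) = 0) :
    τ (l * y) = 0 := by
  -- the radical
  let N : Ideal A :=
    { carrier := {a | ∀ b, τ (b * a) = 0}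
      add_mem' := by
        intro a b ha hb c
        rw [mul_add, map_add, ha c, hb c, add_zero]
      zero_mem' := by
        intro b
        rw [mul_zero, map_zero]
      smul_mem' := by
        intro c a ha b
        rw [smul_eq_mul, ← mul_assoc]
        exact ha _ }
  have hN : ∀ a, a ∈ N ↔ ∀ b, τ (b * a) = 0 := fun a => Iff.rfl
  have hN2 : N.IsTwoSided := by
    constructor
    intro a b ha c
    rw [← mul_assoc, hτ, ← mul_assoc]
    exact ha _
  set π := Ideal.Quotient.mk N with hπ
  obtain ⟨m, hm⟩ := hl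
  have hQ : ∀ (j : ℕ) (a : A ⧸ N), (j + 1) • a = 0 → a = 0 := by
    intro j a ha
    obtain ⟨a, rfl⟩ := Ideal.Quotient.mk_surjective a
    rw [← map_nsmul, Ideal.Quotient.eq_zero_iff_mem, hN] at ha
    rw [Ideal.Quotient.eq_zero_iff_mem, hN]
    intro b
    apply hK j
    rw [← map_nsmul, ← mul_smul_comm]
    exact ha b
  have h1 : π (l * l * y - 2 • (l * y * l) + y * l * l) = 0 := by
    rw [Ideal.Quotient.eq_zero_iff_mem]
    exact h
  have h2 : IsNilpotent (π l * π y) := by
    refine nilp_mul hQ (u := π l * π y - π y * π l) (by abel) ?_ (m := m) ?_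
    · have h3 : π l * (π l * π y - π y * π l) - (π l * π y - π y * π l) * π l = 0 := by
        rw [← h1]
        simp only [map_add, map_sub, map_mul, map_nsmul]
        noncomm_ring
      exact sub_eq_zero.mp h3
    · rw [← map_pow, hm, map_zero]
  obtain ⟨k, hk⟩ := h2
  rw [← map_mul, ← map_pow, Ideal.Quotient.eq_zero_iff_mem] at hk
  exact tau_eq_zero τ hτ hnil (k := k) hk

end trace

end Pool.Prm.NUM
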